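import Pool.Agent.Helper68.EG.Img

/-!
# EG-11: if `ℂ(x, y) = ℂ(t)` the parametrisation is injective outside a finite set

`X ∈ ℂ(rx, ry)`, so `X = G(rx, ry) / H(rx, ry)` with polynomials in two variables,
`H(rx, ry) ≠ 0`. Outside a finite set `E` of parameters `φ 2 (t) ≠ 0`, `H(x(t), y(t)) ≠ 0` and
`t = G(x(t), y(t)) / H(x(t), y(t))`. If `t, t' ∉ E` have the same image then `t = t'`. For fixed `t'`
only finitely many `t` have the same image (otherwise `rx` and `ry` are constant and
`ℂ(rx, ry) = ℂ`); so those `t` with a partner in the finite set `E` are finitely many.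
-/

set_option autoImplicit false

open Polynomial
open scoped LinearAlgebra.Projectivization

namespace Pool.Agent.Helper68.EG

open Pool.Agent.Helper19.ND

private theorem birat_inj {p q : ℂ[X]} (h : ι p = ι q) : p = q :=
  RatFunc.algebraMap_injective ℂ h

private theorem birat_poly (φ : Fin 3 → ℂ[X]) (h2 : φ 2 ≠ 0) (r : MvPolynomial (Fin 2) ℂ) :
    ∃ (N : ℕ) (g : ℂ[X]), MvPolynomial.aeval ![ι (φ 0) / ι (φ 2), ι (φ 1) / ι (φ 2)] r * ι (φ 2) ^ N = ι g ∧
      ∀ t : ℂ, (φ 2).eval t ≠ 0 → g.eval t = (φ 2).eval t ^ N *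
        MvPolynomial.aeval ![(φ 0).eval t / (φ 2).eval t, (φ 1).eval t / (φ 2).eval t] r := by
  have hι : ι (φ 2) ≠ 0 := by
    intro h0
    exact h2 (birat_inj (h0.trans (map_zero _).symm))
  induction r using MvPolynomial.induction_on with
  | C c =>
    refine ⟨0, C c, ?_, ?_⟩
    · rw [MvPolynomial.aeval_C, pow_zero, mul_one, RatFunc.algebraMap_eq_C]
      exact (RatFunc.algebraMap_C c).symm
    · intro t ht
      rw [MvPolynomial.aeval_C]
      simp
  | add p q hp hq =>
    obtain ⟨N, g, h1, h3⟩ := hp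
    obtain ⟨N', g', h1', h3'⟩ := hq
    refine ⟨N + N', g * φ 2 ^ N' + g' * φ 2 ^ N, ?_, ?_⟩
    · rw [map_add, map_add, map_mul, map_mul, ← h1, ← h1', map_pow, map_pow]
      ring
    · intro t ht
      rw [map_add, eval_add, eval_mul, eval_mul, h3 t ht, h3' t ht, eval_pow, eval_pow]
      ring
  | mul_X p i hp =>
    obtain ⟨N, g, h1, h3⟩ := hp
    fin_cases i
    · refine ⟨N + 1, g * φ 0, ?_, ?_⟩
      · rw [map_mul, map_mul, ← h1, MvPolynomial.aeval_X]
        simp only [Fin.zero_eta, Fin.isValue, Matrix.cons_val_zero]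
        field_simp
        ring
      · intro t ht
        rw [map_mul, eval_mul, h3 t ht, MvPolynomial.aeval_X]
        simp only [Fin.zero_eta, Fin.isValue, Matrix.cons_val_zero]
        field_simp
        ring
    · refine ⟨N + 1, g * φ 1, ?_, ?_⟩
      · rw [map_mul, map_mul, ← h1, MvPolynomial.aeval_X]
        simp only [Fin.mk_one, Fin.isValue, Matrix.cons_val_one, Matrix.cons_val_fin_one]
        field_simp
        ring
      · intro t ht
        rw [map_mul, eval_mul, h3 t ht, MvPolynomial.aeval_X]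
        simp only [Fin.mk_one, Fin.isValue, Matrix.cons_val_one, Matrix.cons_val_fin_one]
        field_simp
        ring

private theorem birat_finite (p : ℂ[X]) (hp : p ≠ 0) : {t : ℂ | p.eval t = 0}.Finite := by
  classical
  refine (p.roots.toFinset.finite_toSet).subset fun t ht => ?_
  rw [Finset.mem_coe, Multiset.mem_toFinset, mem_roots hp]
  exact ht

private theorem birat_const {c₀ c₁ : ℂ}
    (h : IntermediateField.adjoin ℂ {RatFunc.C c₀, RatFunc.C c₁} = ⊤) : False := by
  have h1 : IntermediateField.adjoin ℂ {RatFunc.C c₀, RatFunc.C c₁} = ⊥ := by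
    rw [IntermediateField.adjoin_eq_bot_iff]
    rintro z (rfl | rfl)
    · exact IntermediateField.algebraMap_mem _ c₀
    · exact IntermediateField.algebraMap_mem _ c₁
  have h2 : (RatFunc.X : RatFunc ℂ) ∈ (⊥ : IntermediateField ℂ (RatFunc ℂ)) := by
    rw [← h1, h]
    exact IntermediateField.mem_top
  obtain ⟨c, hc⟩ := IntermediateField.mem_bot.1 h2
  rw [RatFunc.algebraMap_eq_C, ← RatFunc.algebraMap_C, ← RatFunc.algebraMap_X] at hc
  have h3 := birat_inj hc
  have h4 := congrArg natDegree h3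
  rw [natDegree_C, natDegree_X] at h4
  exact absurd h4 (by norm_num)

theorem isRational {T : Fin 3 → ℂ[X]} (hT : T 2 ≠ 0)
    (h : IntermediateField.adjoin ℂ {rx T, ry T} = ⊤) : IsRationalCurve (fdeg T) (curve T) := by
  obtain ⟨φ, hφ⟩ : ∃ φ, φ = form T := ⟨_, rfl⟩
  have h2 : φ 2 ≠ 0 := hφ ▸ form_two_ne hT
  have hι : ι (φ 2) ≠ 0 := by
    intro h0
    exact h2 (birat_inj (h0.trans (map_zero _).symm))
  have hev : ∀ t : ℂ, (fun i => (φ i).eval t) ≠ 0 := fun t => hφ ▸ form_eval_ne hT t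
  have hrx : rx T = ι (φ 0) / ι (φ 2) := hφ ▸ rx_form hT
  have hry : ry T = ι (φ 1) / ι (φ 2) := hφ ▸ ry_form hT
  refine ⟨φ, fun i => hφ ▸ natDegree_form_le i, hev, hφ ▸ form_coeff_ne hT, ?_, ?_⟩
  · rw [hφ]
    rfl
  have hX : (RatFunc.X : RatFunc ℂ) ∈ IntermediateField.adjoin ℂ
      (Set.range ![ι (φ 0) / ι (φ 2), ι (φ 1) / ι (φ 2)]) := by
    have h3 : Set.range ![ι (φ 0) / ι (φ 2), ι (φ 1) / ι (φ 2)] = {rx T, ry T} := by
      rw [hrx, hry]
      simp [Set.pair_comm]
    rw [h3, h]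
    exact IntermediateField.mem_top
  rw [IntermediateField.mem_adjoin_range_iff] at hX
  obtain ⟨r, s, hrs⟩ := hX
  obtain ⟨N, g, hg1, hg2⟩ := birat_poly φ h2 r
  obtain ⟨N', g', hg1', hg2'⟩ := birat_poly φ h2 s
  have hs0 : MvPolynomial.aeval ![ι (φ 0) / ι (φ 2), ι (φ 1) / ι (φ 2)] s ≠ 0 := by
    intro h0
    rw [h0, div_zero] at hrs
    exact RatFunc.X_ne_zero hrs
  have hg'0 : g' ≠ 0 := by
    intro h0
    rw [h0, map_zero] at hg1'
    exact mul_ne_zero hs0 (pow_ne_zero _ hι) hg1'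
  have hrel : X * g' * φ 2 ^ N = g * φ 2 ^ N' := by
    apply birat_inj
    rw [map_mul, map_mul, map_mul, map_pow, map_pow, ← hg1, ← hg1', RatFunc.algebraMap_X, hrs]
    field_simp
  have hpt : ∀ t : ℂ, (φ 2).eval t ≠ 0 → g'.eval t ≠ 0 →
      t = MvPolynomial.aeval ![(φ 0).eval t / (φ 2).eval t, (φ 1).eval t / (φ 2).eval t] r /
        MvPolynomial.aeval ![(φ 0).eval t / (φ 2).eval t, (φ 1).eval t / (φ 2).eval t] s := by
    intro t ht ht'
    have h4 := congrArg (eval t) hrel
    rw [eval_mul, eval_mul, eval_mul, eval_X, eval_pow, eval_pow, hg2 t ht, hg2' t ht] at h4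
    have h5 : MvPolynomial.aeval ![(φ 0).eval t / (φ 2).eval t, (φ 1).eval t / (φ 2).eval t] s ≠ 0 := by
      intro h0
      rw [hg2' t ht, h0, mul_zero] at ht'
      exact ht' rfl
    rw [eq_div_iff h5]
    have h6 : (φ 2).eval t ^ N * (φ 2).eval t ^ N' ≠ 0 :=
      mul_ne_zero (pow_ne_zero _ ht) (pow_ne_zero _ ht)
    apply mul_left_cancel₀ h6
    linear_combination h4
  have hB : {t : ℂ | (φ 2 * g').eval t = 0}.Finite := birat_finite _ (mul_ne_zero h2 hg'0)
  refine (hB.union (hB.biUnion (t := fun t' => {t : ℂ | (φ 2).eval t' ≠ 0 ∧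
    (φ 0 * C ((φ 2).eval t') - C ((φ 0).eval t') * φ 2).eval t = 0 ∧
    (φ 1 * C ((φ 2).eval t') - C ((φ 1).eval t') * φ 2).eval t = 0}) ?_)).subset ?_
  · intro t' _
    by_cases h7 : (φ 2).eval t' = 0
    · exact Set.finite_empty.subset fun t ht => ht.1 h7
    by_cases h8 : φ 0 * C ((φ 2).eval t') - C ((φ 0).eval t') * φ 2 = 0
    · by_cases h9 : φ 1 * C ((φ 2).eval t') - C ((φ 1).eval t') * φ 2 = 0
      · exfalso
        have key : ∀ i : Fin 3, φ i * C ((φ 2).eval t') - C ((φ i).eval t') * φ 2 = 0 →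
            ι (φ i) / ι (φ 2) = RatFunc.C ((φ i).eval t' / (φ 2).eval t') := by
          intro i hi
          rw [div_eq_iff hι, ← RatFunc.algebraMap_C]
          rw [← map_mul]
          congr 1
          have h10 : (C ((φ 2).eval t') : ℂ[X]) ≠ 0 := C_ne_zero.2 h7
          apply mul_right_cancel₀ h10
          rw [sub_eq_zero.1 hi]
          have h11 : (C ((φ i).eval t' / (φ 2).eval t') : ℂ[X]) * C ((φ 2).eval t') =
              C ((φ i).eval t') := by
            rw [← C_mul, div_mul_cancel₀ _ h7]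
          linear_combination (-φ 2) * h11
        rw [hrx, hry, key 0 h8, key 1 h9] at h
        exact birat_const h
      · exact (birat_finite _ h9).subset fun t ht => ht.2.2
    · exact (birat_finite _ h8).subset fun t ht => ht.2.1
  · rintro t ⟨t', htt', c, hc⟩
    by_cases hA : (φ 2 * g').eval t = 0
    · exact Or.inl hA
    have hA1 : (φ 2).eval t ≠ 0 := fun h0 => hA (by rw [eval_mul, h0, zero_mul])
    have hA2 : g'.eval t ≠ 0 := fun h0 => hA (by rw [eval_mul, h0, mul_zero])
    have hc0 : c ≠ 0 := by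
      intro h0
      apply hev t'
      funext i
      rw [hc i, h0, zero_mul]
      rfl
    have hA3 : (φ 2).eval t' ≠ 0 := by
      rw [hc 2]
      exact mul_ne_zero hc0 hA1
    by_cases hA' : g'.eval t' = 0
    · refine Or.inr (Set.mem_biUnion (x := t') (show (φ 2 * g').eval t' = 0 by rw [eval_mul, hA', mul_zero]) ⟨hA3, ?_, ?_⟩)
      · rw [eval_sub, eval_mul, eval_mul, eval_C, eval_C, hc 0, hc 2]
        ring
      · rw [eval_sub, eval_mul, eval_mul, eval_C, eval_C, hc 1, hc 2]
        ring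
    · exfalso
      apply htt'
      rw [hpt t' hA3 hA', hpt t hA1 hA2]
      have e0 : (φ 0).eval t' / (φ 2).eval t' = (φ 0).eval t / (φ 2).eval t := by
        rw [hc 0, hc 2]
        field_simp
      have e1 : (φ 1).eval t' / (φ 2).eval t' = (φ 1).eval t / (φ 2).eval t := by
        rw [hc 1, hc 2]
        field_simp
      rw [e0, e1]

end Pool.Agent.Helper68.EG
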