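import Mathlib

/-!
# EG-15a: counting subsets

`card_big`: for a subset `T` of `S \ {x₀}` (`2m - 1` elements), `T` or its complement in `S \ {x₀}` has at least
`m` elements, in particular `T ∪ {x₀}` or `(complement of T) ∪ {x₀}` has at least `m` elements. So
`2^(2m - 1) ≤ 2 · #`.
-/

set_option autoImplicit false

namespace Pool.Agent.Helper68.EG

/-- many subsets -/
theorem card_big (S : Finset ℂ) (x₀ : ℂ) (h₀ : x₀ ∈ S) (m : ℕ) (hS : S.card = 2 * m)
    (hm : 1 ≤ m) :
    2 ^ (2 * m - 2) ≤ (S.powerset.filter fun J => x₀ ∈ J ∧ m ≤ J.card).card := by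
  classical
  have hS' : (S.erase x₀).card = 2 * m - 1 := by
    rw [Finset.card_erase_of_mem h₀, hS]
  set P := (S.erase x₀).powerset with hP
  have hPc : P.card = 2 ^ (2 * m - 1) := by
    rw [hP, Finset.card_powerset, hS']
  set A := P.filter (fun T => m ≤ T.card + 1) with hA
  set B := P.filter (fun T => ¬ m ≤ T.card + 1) with hB
  have hAB : A.card + B.card = P.card := Finset.card_filter_add_card_filter_not _
  -- the complement
  have hBA : B.card ≤ A.card := by
    refine Finset.card_le_card_of_injOn (fun T => (S.erase x₀) \ T) ?_ ?_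
    · intro T hT
      have hT' : T ∈ B := hT
      rw [hB, Finset.mem_filter, hP, Finset.mem_powerset] at hT'
      have h2 : ((S.erase x₀) \ T).card = 2 * m - 1 - T.card := by
        rw [Finset.card_sdiff_of_subset hT'.1, hS']
      have h1 : (S.erase x₀) \ T ∈ A := by
        rw [hA, Finset.mem_filter, hP, Finset.mem_powerset]
        refine ⟨Finset.sdiff_subset, ?_⟩
        rw [h2]
        omega
      exact h1
    · intro T hT U hU hTU
      have hT' : T ∈ B := hT
      have hU' : U ∈ B := hU
      rw [hB, Finset.mem_filter, hP, Finset.mem_powerset] at hT' hU'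
      have h3 : (S.erase x₀) \ T = (S.erase x₀) \ U := hTU
      calc T = (S.erase x₀) \ ((S.erase x₀) \ T) := (Finset.sdiff_sdiff_eq_self hT'.1).symm
        _ = (S.erase x₀) \ ((S.erase x₀) \ U) := by rw [h3]
        _ = U := Finset.sdiff_sdiff_eq_self hU'.1
  have hle : A.card ≤ (S.powerset.filter fun J => x₀ ∈ J ∧ m ≤ J.card).card := by
    refine Finset.card_le_card_of_injOn (fun T => insert x₀ T) ?_ ?_
    · intro T hT
      have hT' : T ∈ A := hT
      rw [hA, Finset.mem_filter, hP, Finset.mem_powerset] at hT'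
      have hx : x₀ ∉ T := fun hx => by
        have := hT'.1 hx
        simp at this
      have h1 : insert x₀ T ∈ S.powerset.filter fun J => x₀ ∈ J ∧ m ≤ J.card := by
        rw [Finset.mem_filter, Finset.mem_powerset]
        refine ⟨?_, Finset.mem_insert_self _ _, ?_⟩
        · intro z hz
          rcases Finset.mem_insert.1 hz with rfl | hz
          · exact h₀
          · exact Finset.mem_of_mem_erase (hT'.1 hz)
        · rw [Finset.card_insert_of_notMem hx]
          exact hT'.2
      exact h1
    · intro T hT U hU hTU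
      have hT' : T ∈ A := hT
      have hU' : U ∈ A := hU
      rw [hA, Finset.mem_filter, hP, Finset.mem_powerset] at hT' hU'
      have hx : x₀ ∉ T := fun hx => by
        have := hT'.1 hx
        simp at this
      have hy : x₀ ∉ U := fun hx => by
        have := hU'.1 hx
        simp at this
      have h3 : insert x₀ T = insert x₀ U := hTU
      calc T = (insert x₀ T).erase x₀ := (Finset.erase_insert hx).symm
        _ = (insert x₀ U).erase x₀ := by rw [h3]
        _ = U := Finset.erase_insert hy
  have h4 : 2 ^ (2 * m - 1) = 2 * 2 ^ (2 * m - 2) := by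
    rw [← pow_succ']
    congr 1
    omega
  omega

theorem ineq (k : ℕ) (hk : 2 ≤ k) :
    2 ^ (4 * 4 ^ k) * (92 * 4 ^ k) * (32 * 4 ^ k) ≤ 2 ^ (6 * 4 ^ k - 2) := by
  have h1 : 14 + 4 * k ≤ 2 * 4 ^ k := by
    induction k, hk using Nat.le_induction with
    | base => norm_num
    | succ n hn ih => rw [pow_succ]; omega
  have h2 : (4 : ℕ) ^ k = 2 ^ (2 * k) := by
    rw [pow_mul]
    norm_num
  calc 2 ^ (4 * 4 ^ k) * (92 * 4 ^ k) * (32 * 4 ^ k)
      = 2 ^ (4 * 4 ^ k) * (2944 * (4 ^ k * 4 ^ k)) := by ring
    _ ≤ 2 ^ (4 * 4 ^ k) * (2 ^ 12 * (4 ^ k * 4 ^ k)) := by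
        apply Nat.mul_le_mul_left
        apply Nat.mul_le_mul_right
        norm_num
    _ = 2 ^ (4 * 4 ^ k + (12 + (2 * k + 2 * k))) := by
        rw [pow_add 2 (4 * 4 ^ k), pow_add 2 12, pow_add 2 (2 * k) (2 * k), ← h2]
    _ ≤ 2 ^ (6 * 4 ^ k - 2) := by
        apply Nat.pow_le_pow_right (by norm_num)
        omega

end Pool.Agent.Helper68.EG
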