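import Pool.Agent.Helper19.ND.PDefs

/-!
# EG: exponentially many rational curves meet a smooth cubic in one point. Definitions

`f = X³ + a X + b` (`fP a b`). The doubling map on `x`-coordinates is `numF / denF`; the tower
`P k / Q k`, `Q k = f (U k)²`, is its `(k + 1)`-st iterate, and
`(P k)³ + a (P k) (Q k)² + b (Q k)³ = (W k)²`. The roots of `W k` are the `x`-coordinates of the
points of exact order `2^(k + 2)`.
-/

set_option autoImplicit false

open Polynomial
open scoped LinearAlgebra.Projectivization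

namespace Pool.Agent.Helper68.EG

open Pool.Agent.Helper19.ND

section forms

variable {R : Type*} [CommRing R]

/-- the cubic form `p³ + a p q² + b q³` -/
def cubF (a b p q : R) : R := p ^ 3 + a * p * q ^ 2 + b * q ^ 3

/-- numerator of the doubling map -/
def numF (a b p q : R) : R := (p ^ 2 - a * q ^ 2) ^ 2 - 8 * b * p * q ^ 3

/-- denominator of the doubling map -/
def denF (a b p q : R) : R := 4 * q * cubF a b p q

/-- the sextic form whose roots are the points of exact order 4 -/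
def sexF (a b p q : R) : R :=
  p ^ 6 + 5 * a * p ^ 4 * q ^ 2 + 20 * b * p ^ 3 * q ^ 3 - 5 * a ^ 2 * p ^ 2 * q ^ 4
    - 4 * a * b * p * q ^ 5 - (8 * b ^ 2 + a ^ 3) * q ^ 6

end forms

/-- the tower `(P, U, W)` -/
noncomputable def tow (a b : ℂ) : ℕ → ℂ[X] × ℂ[X] × ℂ[X]
  | 0 => (numF (C a) (C b) X 1, C 2, sexF (C a) (C b) X 1)
  | k + 1 =>
    (numF (C a) (C b) (tow a b k).1 (fP a b * (tow a b k).2.1 ^ 2),
      C 2 * (tow a b k).2.1 * (tow a b k).2.2,
      sexF (C a) (C b) (tow a b k).1 (fP a b * (tow a b k).2.1 ^ 2))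

/-- numerator of the `(k + 1)`-st iterate of the doubling map -/
noncomputable def P (a b : ℂ) (k : ℕ) : ℂ[X] := (tow a b k).1

/-- the denominator of the iterate is `f U²` -/
noncomputable def U (a b : ℂ) (k : ℕ) : ℂ[X] := (tow a b k).2.1

/-- the roots of `W k` are the points of exact order `2^(k + 2)` -/
noncomputable def W (a b : ℂ) (k : ℕ) : ℂ[X] := (tow a b k).2.2

/-- denominator of the `(k + 1)`-st iterate of the doubling map -/
noncomputable def Q (a b : ℂ) (k : ℕ) : ℂ[X] := fP a b * U a b k ^ 2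

/-- the double of the point with abscissa `x` -/
noncomputable def dbl (a b x : ℂ) : ℂ := numF a b x 1 / (4 * (fP a b).eval x)

/-- an ordinate of the point with abscissa `x` -/
noncomputable def yy (a b x : ℂ) : ℂ :=
  (IsAlgClosed.exists_pow_nat_eq ((fP a b).eval x) (n := 2) two_pos).choose

theorem yy_sq (a b x : ℂ) : yy a b x ^ 2 = (fP a b).eval x :=
  (IsAlgClosed.exists_pow_nat_eq ((fP a b).eval x) (n := 2) two_pos).choose_spec

/-- the tangent at `(x, yy x)` is `Y = tang x` -/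
noncomputable def tang (a b x : ℂ) : ℂ[X] :=
  C (yy a b x) + C ((3 * x ^ 2 + a) / (2 * yy a b x)) * (X - C x)

/-- functions `B + A Y` on the affine cubic `Y² = f` -/
abbrev Fun (a b : ℂ) := QuadraticAlgebra ℂ[X] (fP a b) 0

/-- the equation `Y - tang x` of the tangent -/
noncomputable def ell (a b x : ℂ) : Fun a b := ⟨-tang a b x, 1⟩

/-- product of the equations of the tangents at the points of `J` and once more at `x₀` -/
noncomputable def hJ (a b : ℂ) (J : Finset ℂ) (x₀ : ℂ) : Fun a b :=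
  (∏ x ∈ J, ell a b x) * ell a b x₀

/-- `hJ = BJ + AJ Y` -/
noncomputable def BJ (a b : ℂ) (J : Finset ℂ) (x₀ : ℂ) : ℂ[X] := (hJ a b J x₀).re

/-- `hJ = BJ + AJ Y` -/
noncomputable def AJ (a b : ℂ) (J : Finset ℂ) (x₀ : ℂ) : ℂ[X] := (hJ a b J x₀).im

/-- the norm of `hJ` up to sign -/
noncomputable def NJ (a b : ℂ) (J : Finset ℂ) (x₀ : ℂ) : ℂ[X] :=
  (∏ x ∈ J, ((X - C x) ^ 2 * (X - C (dbl a b x)))) * ((X - C x₀) ^ 2 * (X - C (dbl a b x₀)))

/-- homogeneous coordinates of the curve `D` -/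
noncomputable def dX (a b : ℂ) (k : ℕ) (J : Finset ℂ) (x₀ : ℂ) : ℂ[X] :=
  P a b k * fP a b * U a b k * AJ a b J x₀

/-- homogeneous coordinates of the curve `D` -/
noncomputable def dY (a b : ℂ) (k : ℕ) (J : Finset ℂ) (x₀ : ℂ) : ℂ[X] :=
  -(W a b k * BJ a b J x₀)

/-- homogeneous coordinates of the curve `D` -/
noncomputable def dZ (a b : ℂ) (k : ℕ) (J : Finset ℂ) (x₀ : ℂ) : ℂ[X] :=
  fP a b ^ 2 * U a b k ^ 3 * AJ a b J x₀

section dbl

variable {R : Type*} [CommRing R]

/-- the doubling map of the pencil `y² = x³ + a x + β`, as a map of the plane -/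
def dup (a x y z : R) : Fin 3 → R :=
  ![2 * y * z * ((3 * x ^ 2 + a * z ^ 2) ^ 2 - 8 * x * y ^ 2 * z),
    (3 * x ^ 2 + a * z ^ 2) * (12 * x * y ^ 2 * z - (3 * x ^ 2 + a * z ^ 2) ^ 2)
      - 8 * y ^ 4 * z ^ 2,
    8 * y ^ 3 * z ^ 3]

end dbl

/-- homogeneous coordinates of the double of the curve `D` -/
noncomputable def TJ (a b : ℂ) (k : ℕ) (J : Finset ℂ) (x₀ : ℂ) : Fin 3 → ℂ[X] :=
  dup (C a) (dX a b k J x₀) (dY a b k J x₀) (dZ a b k J x₀)

/-- A place of the rational function field `ℂ(t)`: a valuation with values in `ℤ ∪ {0}` (written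
multiplicatively), trivial on the constants. -/
structure Place where
  /-- the valuation -/
  v : Valuation (RatFunc ℂ) (WithZero (Multiplicative ℤ))
  const : ∀ c : ℂ, c ≠ 0 → v (RatFunc.C c) = 1

/-- inclusion of the polynomials -/
noncomputable abbrev ι : ℂ[X] →+* RatFunc ℂ := algebraMap ℂ[X] (RatFunc ℂ)

end Pool.Agent.Helper68.EG
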