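import Pool.Agent.Helper68.EG.Vals

/-!
# EG-13: the degree of the curve

Upper bound: with `t = |J| + 1 ≤ 6·4^k + 1`, `2 deg B ≤ 3t`, `2 deg A + 3 ≤ 3t`, the polynomials `dX`, `dY`,
`dZ` have degree at most `6·4^k + 1 + 3t/2 ≤ 15·4^k + 1` (`natDegree_P`, `natDegree_U`, `natDegree_W`),
and the entries of `dup` have degree 6 in them.
Lower bound: at `x ∈ J` `exp 3 = v (ry) = v (φ 1) / v (φ 2)` (`ry_form`), so `φ 2` has a root of
multiplicity at least 3 at `x`; so `natDegree (φ 2) ≥ 3 |J|`.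
-/

set_option autoImplicit false

open Polynomial WithZero

namespace Pool.Agent.Helper68.EG

open Pool.Agent.Helper19.ND

variable {a b : ℂ} {k : ℕ} {J : Finset ℂ} {x₀ : ℂ}

private theorem deg_ofNat (m : ℕ) [m.AtLeastTwo] :
    (OfNat.ofNat m : ℂ[X]).natDegree ≤ 0 := by
  rw [natDegree_ofNat]

private theorem deg_N {a : ℂ} {x z : ℂ[X]} {n : ℕ} (hx : x.natDegree ≤ n) (hz : z.natDegree ≤ n) :
    (3 * x ^ 2 + C a * z ^ 2).natDegree ≤ 2 * n := by
  refine natDegree_add_le_of_degree_le ?_ ?_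
  · have h := natDegree_mul_le_of_le (deg_ofNat 3) (natDegree_pow_le_of_le 2 hx)
    exact h.trans (by omega)
  · have h := natDegree_mul_le_of_le (natDegree_C a).le (natDegree_pow_le_of_le 2 hz)
    exact h.trans (by omega)

private theorem deg_dup {a : ℂ} {x y z : ℂ[X]} {n : ℕ} (hx : x.natDegree ≤ n)
    (hy : y.natDegree ≤ n) (hz : z.natDegree ≤ n) (i : Fin 3) :
    (dup (C a) x y z i).natDegree ≤ 6 * n := by
  have hN := deg_N (a := a) hx hz
  have hN2 : ((3 * x ^ 2 + C a * z ^ 2) ^ 2).natDegree ≤ 4 * n :=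
    (natDegree_pow_le_of_le 2 hN).trans (by omega)
  have h8 : (8 * x * y ^ 2 * z).natDegree ≤ 4 * n :=
    (natDegree_mul_le_of_le (natDegree_mul_le_of_le (natDegree_mul_le_of_le (deg_ofNat 8) hx)
      (natDegree_pow_le_of_le 2 hy)) hz).trans (by omega)
  have h12 : (12 * x * y ^ 2 * z).natDegree ≤ 4 * n :=
    (natDegree_mul_le_of_le (natDegree_mul_le_of_le (natDegree_mul_le_of_le (deg_ofNat 12) hx)
      (natDegree_pow_le_of_le 2 hy)) hz).trans (by omega)
  fin_cases i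
  · have h : (2 * y * z * ((3 * x ^ 2 + C a * z ^ 2) ^ 2 - 8 * x * y ^ 2 * z)).natDegree ≤ 6 * n :=
      (natDegree_mul_le_of_le (natDegree_mul_le_of_le (natDegree_mul_le_of_le (deg_ofNat 2) hy) hz)
        (natDegree_sub_le_of_le hN2 h8)).trans (by omega)
    exact h
  · have h : ((3 * x ^ 2 + C a * z ^ 2) * (12 * x * y ^ 2 * z - (3 * x ^ 2 + C a * z ^ 2) ^ 2)
        - 8 * y ^ 4 * z ^ 2).natDegree ≤ 6 * n := by
      refine (natDegree_sub_le_of_le (m := 6 * n) (n := 6 * n) ?_ ?_).trans (by omega)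
      · exact (natDegree_mul_le_of_le hN (natDegree_sub_le_of_le h12 hN2)).trans (by omega)
      · exact (natDegree_mul_le_of_le (natDegree_mul_le_of_le (deg_ofNat 8)
          (natDegree_pow_le_of_le 4 hy)) (natDegree_pow_le_of_le 2 hz)).trans (by omega)
    exact h
  · have h : (8 * y ^ 3 * z ^ 3).natDegree ≤ 6 * n :=
      (natDegree_mul_le_of_le (natDegree_mul_le_of_le (deg_ofNat 8)
          (natDegree_pow_le_of_le 3 hy)) (natDegree_pow_le_of_le 3 hz)).trans (by omega)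
    exact h

theorem fdeg_TJ_le (hab : 4 * a ^ 3 + 27 * b ^ 2 ≠ 0) (hJ : ∀ x ∈ J, (W a b k).eval x = 0)
    (h₀ : x₀ ∈ J) (hk : 1 ≤ k) (hc : J.card ≤ 6 * 4 ^ k) :
    fdeg (TJ a b k J x₀) ≤ 92 * 4 ^ k := by
  have hf : ∀ x ∈ J, (fP a b).eval x ≠ 0 := fun x hx => (W_root hab (hJ x hx)).1
  have hA := natDegree_AJ hf h₀ (AJ_ne_zero hab hJ h₀)
  have hB := natDegree_BJ hf h₀
  have h4 : 4 ≤ 4 ^ k := by
    calc 4 = 4 ^ 1 := (pow_one 4).symm
      _ ≤ 4 ^ k := Nat.pow_le_pow_right (by norm_num) hk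
  have hP : (P a b k).natDegree = 4 * 4 ^ k := by rw [natDegree_P, pow_succ, mul_comm]
  have hU := natDegree_U a b k
  have hW := natDegree_W a b k
  have hF := natDegree_fP' a b
  have hX : (dX a b k J x₀).natDegree ≤ 15 * 4 ^ k + 1 := by
    rw [dX]
    exact (natDegree_mul_le_of_le (natDegree_mul_le_of_le (natDegree_mul_le_of_le hP.le hF.le)
      hU.le) (le_refl _)).trans (by omega)
  have hY : (dY a b k J x₀).natDegree ≤ 15 * 4 ^ k + 1 := by
    rw [dY, natDegree_neg]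
    exact (natDegree_mul_le_of_le hW.le (le_refl _)).trans (by omega)
  have hZ : (dZ a b k J x₀).natDegree ≤ 15 * 4 ^ k + 1 := by
    rw [dZ]
    exact (natDegree_mul_le_of_le (natDegree_mul_le_of_le (natDegree_pow_le_of_le 2 hF.le)
      (natDegree_pow_le_of_le 3 hU.le)) (le_refl _)).trans (by omega)
  refine (fdeg_le (TJ_ne hab hJ h₀) (n := 6 * (15 * 4 ^ k + 1)) fun i => ?_).trans (by omega)
  exact deg_dup hX hY hZ i

theorem le_fdeg_TJ (hab : 4 * a ^ 3 + 27 * b ^ 2 ≠ 0) (hJ : ∀ x ∈ J, (W a b k).eval x = 0)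
    (h₀ : x₀ ∈ J) : 3 * J.card ≤ fdeg (TJ a b k J x₀) := by
  classical
  have hT := TJ_ne hab hJ h₀
  have h2 := form_two_ne hT
  have hm : ∀ x ∈ J, 3 ≤ (form (TJ a b k J x₀) 2).roots.count x := by
    intro x hx
    have h := (val_xy hab hJ h₀ hx).2
    rw [ry_form hT, map_div₀, plAt_v x h2] at h
    have h1 := plAt_le_one x (form (TJ a b k J x₀) 1)
    rw [div_eq_iff exp_ne_zero, ← exp_add] at h
    rw [h, ← exp_zero, exp_le_exp] at h1
    rw [count_roots]
    omega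
  have hs : J ⊆ (form (TJ a b k J x₀) 2).roots.toFinset := by
    intro x hx
    rw [Multiset.mem_toFinset, ← Multiset.count_pos]
    exact lt_of_lt_of_le (by norm_num) (hm x hx)
  calc 3 * J.card = ∑ _x ∈ J, 3 := by rw [Finset.sum_const, smul_eq_mul, mul_comm]
    _ ≤ ∑ x ∈ J, (form (TJ a b k J x₀) 2).roots.count x := Finset.sum_le_sum hm
    _ ≤ ∑ x ∈ (form (TJ a b k J x₀) 2).roots.toFinset,
        (form (TJ a b k J x₀) 2).roots.count x := Finset.sum_le_sum_of_subset hs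
    _ = Multiset.card (form (TJ a b k J x₀) 2).roots := Multiset.toFinset_sum_count_eq _
    _ ≤ (form (TJ a b k J x₀) 2).natDegree := card_roots' _
    _ ≤ fdeg (TJ a b k J x₀) := natDegree_form_le 2

end Pool.Agent.Helper68.EG
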