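import Pool.Agent.Helper68.EG.Tower

/-!
# EG-14a: at most `32·4^k` pairs (parameter, ordinate) over a point

`s` is a root of `P⁴ - 2a P² Q² - 8β P Q³ + a² Q⁴ - 4 c₀ (P³ Q + a P Q³ + β Q⁴)`, monic of degree `16·4^k`
(`P_monic`, `natDegree_P`, `natDegree_Q_lt`), and for each `s` there are at most two values of `y`.
-/

set_option autoImplicit false

open Polynomial

namespace Pool.Agent.Helper68.EG

open Pool.Agent.Helper19.ND

/-- the quartic form in `P`, `Q` without its leading term -/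
private noncomputable def fpR (a c₀ β : ℂ) (p q : ℂ[X]) : ℂ[X] :=
  C (-4 * c₀) * (p ^ 3 * q) + C (-2 * a) * (p ^ 2 * q ^ 2) + C (-8 * β - 4 * c₀ * a) * (p * q ^ 3)
    + C (a ^ 2 - 4 * c₀ * β) * q ^ 4

private theorem fp_term {p q : ℂ[X]} {n : ℕ} (hp : p.natDegree = n) (hq : q.natDegree < n)
    (c : ℂ) (i j : ℕ) (hij : i + j = 4) (hj : 0 < j) :
    (C c * (p ^ i * q ^ j)).natDegree < 4 * n := by
  refine (natDegree_C_mul_le _ _).trans_lt ?_
  refine natDegree_mul_le.trans_lt ?_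
  have h1 : (p ^ i).natDegree ≤ i * n := by
    have := natDegree_pow_le (p := p) (n := i)
    rwa [hp] at this
  have h2 : (q ^ j).natDegree ≤ j * q.natDegree := natDegree_pow_le
  have h3 : j * q.natDegree < j * n := Nat.mul_lt_mul_of_pos_left hq hj
  have h4 : i * n + j * n = 4 * n := by rw [← Nat.add_mul, hij]
  omega

private theorem fpR_deg {p q : ℂ[X]} {n : ℕ} (hp : p.natDegree = n) (hq : q.natDegree < n)
    (a c₀ β : ℂ) : (fpR a c₀ β p q).natDegree < 4 * n := by
  have h1 := fp_term hp hq (-4 * c₀) 3 1 rfl Nat.one_pos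
  have h2 := fp_term hp hq (-2 * a) 2 2 rfl Nat.two_pos
  have h3 := fp_term hp hq (-8 * β - 4 * c₀ * a) 1 3 rfl (by norm_num)
  have h4 := fp_term hp hq (a ^ 2 - 4 * c₀ * β) 0 4 rfl (by norm_num)
  simp only [pow_one, pow_zero, one_mul] at h1 h2 h3 h4
  unfold fpR
  refine (natDegree_add_le _ _).trans_lt (max_lt ?_ h4)
  refine (natDegree_add_le _ _).trans_lt (max_lt ?_ h3)
  exact (natDegree_add_le _ _).trans_lt (max_lt h1 h2)

private theorem fp_monic {p q : ℂ[X]} {n : ℕ} (hm : p.Monic) (hp : p.natDegree = n)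
    (hq : q.natDegree < n) (a c₀ β : ℂ) :
    (p ^ 4 + fpR a c₀ β p q).Monic ∧ (p ^ 4 + fpR a c₀ β p q).natDegree = 4 * n := by
  have h4 : (p ^ 4).Monic := hm.pow 4
  have hd : (p ^ 4).natDegree = 4 * n := by rw [hm.natDegree_pow, hp]
  have hlt : (fpR a c₀ β p q).natDegree < (p ^ 4).natDegree := by
    rw [hd]; exact fpR_deg hp hq a c₀ β
  refine ⟨h4.add_of_left (degree_lt_degree hlt), ?_⟩
  rw [natDegree_add_eq_left_of_natDegree_lt hlt, hd]

/-- the parameters over a point `c`: a finite set of pairs -/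
theorem fib_pairs (a b : ℂ) (k : ℕ) (c₀ β : ℂ) : ∃ G : Finset (ℂ × ℂ), G.card ≤ 32 * 4 ^ k ∧
    ∀ s y : ℂ, (Q a b k).eval s ≠ 0 →
      y ^ 2 = ((P a b k).eval s / (Q a b k).eval s) ^ 3
        + a * ((P a b k).eval s / (Q a b k).eval s) + β →
      ((P a b k).eval s / (Q a b k).eval s) ^ 4
        - 2 * a * ((P a b k).eval s / (Q a b k).eval s) ^ 2
        - 8 * β * ((P a b k).eval s / (Q a b k).eval s) + a ^ 2 = 4 * c₀ * y ^ 2 →
      (s, y) ∈ G := by
  classical
  obtain ⟨hM, hD⟩ := fp_monic (P_monic a b k) (natDegree_P a b k) (natDegree_Q_lt a b k) a c₀ β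
  set F : ℂ[X] := P a b k ^ 4 + fpR a c₀ β (P a b k) (Q a b k) with hF
  let r : ℂ → ℂ := fun s => ((P a b k).eval s / (Q a b k).eval s) ^ 3
    + a * ((P a b k).eval s / (Q a b k).eval s) + β
  refine ⟨F.roots.toFinset.biUnion fun s => (nthRoots 2 (r s)).toFinset.image fun y => (s, y),
    ?_, ?_⟩
  · refine (Finset.card_biUnion_le_card_mul _ _ 2 ?_).trans ?_
    · intro s _
      refine Finset.card_image_le.trans ?_
      exact (Multiset.toFinset_card_le _).trans (card_nthRoots 2 (r s))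
    · have h1 : F.roots.toFinset.card ≤ 4 * 4 ^ (k + 1) := by
        refine (Multiset.toFinset_card_le _).trans ?_
        rw [← hD]
        exact card_roots' F
      calc F.roots.toFinset.card * 2 ≤ 4 * 4 ^ (k + 1) * 2 := Nat.mul_le_mul_right _ h1
        _ = 32 * 4 ^ k := by ring
  · intro s y hQ hy hx
    rw [Finset.mem_biUnion]
    refine ⟨s, ?_, ?_⟩
    · rw [Multiset.mem_toFinset, mem_roots hM.ne_zero, IsRoot.def]
      rw [hy] at hx
      rw [hF]
      simp only [fpR, eval_add, eval_mul, eval_pow, eval_C]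
      field_simp at hx
      linear_combination hx
    · rw [Finset.mem_image]
      refine ⟨y, ?_, rfl⟩
      rw [Multiset.mem_toFinset, mem_nthRoots two_pos]
      exact hy

end Pool.Agent.Helper68.EG
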