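import Pool.Agent.Helper68.EG.Local
import Pool.Agent.Helper68.EG.FibPairs

/-!
# EG-14: at most `32·4^k` sets `J` give the same curve

Let `K` be infinite and `curve (TJ J) = K` for all `J ∈ 𝒥`. Call a parameter `s` bad for `J` if
`s` is a root of one of `dZ J`, `dY J` (so of `Q`, `W`, `A`, `B`), `TJ J 2`, or if
`B_J (s) A_J' (s) = B_J' (s) A_J (s)` for some `J' ≠ J` in `𝒥` (finitely many, `AB_inj`). The images of
the bad parameters and of `∞` for all `J ∈ 𝒥` form a finite set of points; take `c ∈ K` outside.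
For each `J ∈ 𝒥` there is a good `s_J` with image `c`. Then `c = (c₀ : c₁ : 1)` is the double of
`(X₀, Y₀) = (P/Q, dY/dZ)(s_J)` (`fib_pairs`) on `Y² = X³ + a X + β`, `β = c₁² - c₀³ - a c₀` (depends on `c` only):
`Y₀² = X₀³ + a X₀ + β` and `X₀⁴ - 2a X₀² - 8β X₀ + a² = 4 c₀ (X₀³ + a X₀ + β)`. So `s_J` is a root of
`P⁴ - 2a P² Q² - 8β P Q³ + a² Q⁴ - 4 c₀ (P³ Q + a P Q³ + β Q⁴)`, monic of degree `16·4^k`, and for each
`s` there are at most two values `Y₀`. If `|𝒥| > 32·4^k` two sets `J ≠ J'` have the same `(s, Y₀)`, so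
`(B_J / A_J)(s) = (B_J' / A_J')(s)`: `s` is bad. Contradiction.
-/

set_option autoImplicit false

open Polynomial WithZero
open scoped LinearAlgebra.Projectivization

namespace Pool.Agent.Helper68.EG

open Pool.Agent.Helper19.ND

/-- the polynomial whose roots are the bad parameters of `J` -/
private noncomputable def badP (a b : ℂ) (k : ℕ) (x₀ : ℂ) (𝒥 : Finset (Finset ℂ)) (J : Finset ℂ) :
    ℂ[X] :=
  TJ a b k J x₀ 2 * ∏ J' ∈ 𝒥.erase J,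
    (BJ a b J x₀ * AJ a b J' x₀ - BJ a b J' x₀ * AJ a b J x₀)

/-- the bad points of `J` -/
private def badS (R : ℂ[X]) (d : ℕ) (φ : Fin 3 → ℂ[X]) : Set (ℙ ℂ (Fin 3 → ℂ)) :=
  {P | ∃ (v : Fin 3 → ℂ) (hv : v ≠ 0), P = Projectivization.mk ℂ v hv ∧
    ((∃ t : ℂ, R.eval t = 0 ∧ v = fun i => (φ i).eval t) ∨ v = fun i => (φ i).coeff d)}

private theorem badS_finite {R : ℂ[X]} (hR : R ≠ 0) (d : ℕ) (φ : Fin 3 → ℂ[X]) :
    (badS R d φ).Finite := by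
  have hV : ({v : Fin 3 → ℂ | ∃ t : ℂ, R.eval t = 0 ∧ v = fun i => (φ i).eval t} ∪
      {fun i => (φ i).coeff d}).Finite := by
    refine Set.Finite.union ?_ (Set.finite_singleton _)
    have h1 : {t : ℂ | R.eval t = 0}.Finite := by
      refine (Multiset.finite_toSet R.roots).subset ?_
      intro t ht
      exact (mem_roots hR).2 ht
    refine (h1.image fun t => fun i => (φ i).eval t).subset ?_
    rintro v ⟨t, ht, rfl⟩
    exact ⟨t, ht, rfl⟩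
  have h2 : (Subtype.val ⁻¹' ({v : Fin 3 → ℂ | ∃ t : ℂ, R.eval t = 0 ∧ v = fun i => (φ i).eval t} ∪
      {fun i => (φ i).coeff d}) : Set {v : Fin 3 → ℂ // v ≠ 0}).Finite :=
    hV.preimage Subtype.val_injective.injOn
  refine (h2.image fun v => Projectivization.mk ℂ v.1 v.2).subset ?_
  rintro P ⟨v, hv, rfl, h⟩
  refine ⟨⟨v, hv⟩, ?_, rfl⟩
  rcases h with ⟨t, ht, rfl⟩ | rfl
  · exact Or.inl ⟨t, ht, rfl⟩
  · exact Or.inr rfl

private theorem dup_id (a X Y : ℂ) (hY : Y ≠ 0) (c₀ c₁ : ℂ)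
    (h0 : c₀ = ((3 * X ^ 2 + a) ^ 2 - 8 * X * Y ^ 2) / (4 * Y ^ 2))
    (h1 : c₁ = ((3 * X ^ 2 + a) * (12 * X * Y ^ 2 - (3 * X ^ 2 + a) ^ 2) - 8 * Y ^ 4)
      / (8 * Y ^ 3)) :
    Y ^ 2 = X ^ 3 + a * X + (c₁ ^ 2 - c₀ ^ 3 - a * c₀) ∧
      X ^ 4 - 2 * a * X ^ 2 - 8 * (c₁ ^ 2 - c₀ ^ 3 - a * c₀) * X + a ^ 2 = 4 * c₀ * Y ^ 2 := by
  have hβ : c₁ ^ 2 - c₀ ^ 3 - a * c₀ = Y ^ 2 - X ^ 3 - a * X := by
    rw [h0, h1]
    field_simp
    ring
  rw [hβ]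
  refine ⟨by ring, ?_⟩
  have h2 : 4 * c₀ * Y ^ 2 = (3 * X ^ 2 + a) ^ 2 - 8 * X * Y ^ 2 := by
    rw [h0]
    field_simp
  rw [h2]
  ring

/-- what a good parameter gives -/
private theorem good_param {a b : ℂ} {k : ℕ} {x₀ : ℂ} {J : Finset ℂ} {s : ℂ}
    (hT : TJ a b k J x₀ 2 ≠ 0) (hs : (TJ a b k J x₀ 2).eval s ≠ 0)
    (c : ℙ ℂ (Fin 3 → ℂ)) (hv : (fun i => (form (TJ a b k J x₀) i).eval s) ≠ 0)
    (hc : c = Projectivization.mk ℂ (fun i => (form (TJ a b k J x₀) i).eval s) hv) :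
    (Q a b k).eval s ≠ 0 ∧ (W a b k).eval s ≠ 0 ∧ (AJ a b J x₀).eval s ≠ 0 ∧
    (fP a b).eval s ≠ 0 ∧ (U a b k).eval s ≠ 0 ∧
    ((dY a b k J x₀).eval s / (dZ a b k J x₀).eval s) ^ 2 =
      ((P a b k).eval s / (Q a b k).eval s) ^ 3
        + a * ((P a b k).eval s / (Q a b k).eval s)
        + ((c.rep 1 / c.rep 2) ^ 2 - (c.rep 0 / c.rep 2) ^ 3 - a * (c.rep 0 / c.rep 2)) ∧
    ((P a b k).eval s / (Q a b k).eval s) ^ 4
        - 2 * a * ((P a b k).eval s / (Q a b k).eval s) ^ 2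
        - 8 * ((c.rep 1 / c.rep 2) ^ 2 - (c.rep 0 / c.rep 2) ^ 3 - a * (c.rep 0 / c.rep 2))
          * ((P a b k).eval s / (Q a b k).eval s) + a ^ 2
      = 4 * (c.rep 0 / c.rep 2) * ((dY a b k J x₀).eval s / (dZ a b k J x₀).eval s) ^ 2 := by
  obtain ⟨g, -, hg⟩ := form_spec hT
  -- evaluation of `TJ`
  set x := (dX a b k J x₀).eval s with hx
  set y := (dY a b k J x₀).eval s with hy
  set z := (dZ a b k J x₀).eval s with hz
  have e0 : (TJ a b k J x₀ 0).eval s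
      = 2 * y * z * ((3 * x ^ 2 + a * z ^ 2) ^ 2 - 8 * x * y ^ 2 * z) := by
    simp [TJ, dup, hx, hy, hz]
  have e1 : (TJ a b k J x₀ 1).eval s
      = (3 * x ^ 2 + a * z ^ 2) * (12 * x * y ^ 2 * z - (3 * x ^ 2 + a * z ^ 2) ^ 2)
        - 8 * y ^ 4 * z ^ 2 := by
    simp [TJ, dup, hx, hy, hz]
  have e2 : (TJ a b k J x₀ 2).eval s = 8 * y ^ 3 * z ^ 3 := by
    simp [TJ, dup, hy, hz]
  have hy0 : y ≠ 0 := by
    intro h
    rw [e2, h] at hs
    exact hs (by ring)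
  have hz0 : z ≠ 0 := by
    intro h
    rw [e2, h] at hs
    exact hs (by ring)
  -- the factors
  have hzf : z = (fP a b).eval s ^ 2 * (U a b k).eval s ^ 3 * (AJ a b J x₀).eval s := by
    simp [hz, dZ]
  have hyf : y = -((W a b k).eval s * (BJ a b J x₀).eval s) := by
    simp [hy, dY]
  have hxf : x = (P a b k).eval s * (fP a b).eval s * (U a b k).eval s * (AJ a b J x₀).eval s := by
    simp [hx, dX]
  have hf : (fP a b).eval s ≠ 0 := by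
    intro h
    rw [hzf, h] at hz0
    exact hz0 (by ring)
  have hU : (U a b k).eval s ≠ 0 := by
    intro h
    rw [hzf, h] at hz0
    exact hz0 (by ring)
  have hA : (AJ a b J x₀).eval s ≠ 0 := by
    intro h
    rw [hzf, h] at hz0
    exact hz0 (by ring)
  have hW : (W a b k).eval s ≠ 0 := by
    intro h
    rw [hyf, h] at hy0
    exact hy0 (by ring)
  have hQe : (Q a b k).eval s = (fP a b).eval s * (U a b k).eval s ^ 2 := by
    simp [Q]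
  have hQ : (Q a b k).eval s ≠ 0 := by
    rw [hQe]
    exact mul_ne_zero hf (pow_ne_zero _ hU)
  have hPQ : (P a b k).eval s / (Q a b k).eval s = x / z := by
    rw [hxf, hzf, hQe]
    field_simp
  -- the point
  obtain ⟨u, hu⟩ := Projectivization.exists_smul_eq_mk_rep ℂ
    (fun i => (form (TJ a b k J x₀) i).eval s) hv
  rw [← hc] at hu
  have hrep : ∀ i, c.rep i = (u : ℂ) * (form (TJ a b k J x₀) i).eval s := by
    intro i
    rw [← hu]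
    rfl
  have hu0 : (u : ℂ) ≠ 0 := u.ne_zero
  have hgi : ∀ i, (TJ a b k J x₀ i).eval s = g.eval s * (form (TJ a b k J x₀) i).eval s := by
    intro i
    rw [hg i, eval_mul]
  have hg0 : g.eval s ≠ 0 := by
    intro h
    rw [hgi 2, h, zero_mul] at hs
    exact hs rfl
  have hφ2 : (form (TJ a b k J x₀) 2).eval s ≠ 0 := by
    intro h
    rw [hgi 2, h, mul_zero] at hs
    exact hs rfl
  have hr : ∀ i, c.rep i / c.rep 2 = (TJ a b k J x₀ i).eval s / (TJ a b k J x₀ 2).eval s := by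
    intro i
    rw [hrep i, hrep 2, hgi i, hgi 2]
    field_simp
  have h0 : c.rep 0 / c.rep 2
      = ((3 * (x / z) ^ 2 + a) ^ 2 - 8 * (x / z) * (y / z) ^ 2) / (4 * (y / z) ^ 2) := by
    rw [hr 0, e0, e2]
    field_simp
    ring
  have h1 : c.rep 1 / c.rep 2
      = ((3 * (x / z) ^ 2 + a) * (12 * (x / z) * (y / z) ^ 2 - (3 * (x / z) ^ 2 + a) ^ 2)
        - 8 * (y / z) ^ 4) / (8 * (y / z) ^ 3) := by
    rw [hr 1, e1, e2]
    field_simp
  obtain ⟨r1, r2⟩ := dup_id a (x / z) (y / z) (div_ne_zero hy0 hz0) _ _ h0 h1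
  rw [hPQ]
  exact ⟨hQ, hW, hA, hf, hU, r1, r2⟩

theorem fibre {a b : ℂ} {k : ℕ} {x₀ : ℂ} (hab : 4 * a ^ 3 + 27 * b ^ 2 ≠ 0)
    (𝒥 : Finset (Finset ℂ)) (h𝒥 : ∀ J ∈ 𝒥, (∀ x ∈ J, (W a b k).eval x = 0) ∧ x₀ ∈ J)
    (K : Set (ℙ ℂ (Fin 3 → ℂ))) (hK : ∀ J ∈ 𝒥, curve (TJ a b k J x₀) = K)
    (hinf : K.Infinite) : 𝒥.card ≤ 32 * 4 ^ k := by
  classical
  have hT : ∀ J ∈ 𝒥, TJ a b k J x₀ 2 ≠ 0 := fun J hJ => TJ_ne hab (h𝒥 J hJ).1 (h𝒥 J hJ).2
  have hR : ∀ J ∈ 𝒥, badP a b k x₀ 𝒥 J ≠ 0 := by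
    intro J hJ
    refine mul_ne_zero (hT J hJ) (Finset.prod_ne_zero_iff.2 fun J' hJ' => ?_)
    obtain ⟨hne, hJ'm⟩ := Finset.mem_erase.1 hJ'
    intro h
    exact hne (AB_inj hab (h𝒥 J hJ).1 (h𝒥 J' hJ'm).1 (h𝒥 J hJ).2 (h𝒥 J' hJ'm).2
      (sub_eq_zero.1 h)).symm
  have hfin : (⋃ J ∈ 𝒥, badS (badP a b k x₀ 𝒥 J) (fdeg (TJ a b k J x₀))
      (form (TJ a b k J x₀))).Finite := by
    refine Set.Finite.biUnion 𝒥.finite_toSet (fun J hJ => badS_finite (hR J hJ) _ _)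
  obtain ⟨c, hcK, hcn⟩ := hinf.exists_notMem_finite hfin
  -- good parameters
  have hgood : ∀ J ∈ 𝒥, ∃ s : ℂ, (badP a b k x₀ 𝒥 J).eval s ≠ 0 ∧
      ∃ hv : (fun i => (form (TJ a b k J x₀) i).eval s) ≠ 0,
        c = Projectivization.mk ℂ (fun i => (form (TJ a b k J x₀) i).eval s) hv := by
    intro J hJ
    have hcJ : c ∈ curve (TJ a b k J x₀) := by rw [hK J hJ]; exact hcK
    have hcn' : c ∉ badS (badP a b k x₀ 𝒥 J) (fdeg (TJ a b k J x₀)) (form (TJ a b k J x₀)) := by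
      intro h
      exact hcn (Set.mem_biUnion (Finset.mem_coe.2 hJ) h)
    obtain ⟨v, hv, hcv, h | h⟩ := hcJ
    · obtain ⟨t, rfl⟩ := h
      refine ⟨t, fun h0 => hcn' ⟨_, hv, hcv, Or.inl ⟨t, h0, rfl⟩⟩, hv, hcv⟩
    · exact absurd ⟨v, hv, hcv, Or.inr h⟩ hcn'
  choose! s hs hsc using hgood
  obtain ⟨G, hG, hGm⟩ := fib_pairs a b k (c.rep 0 / c.rep 2)
    ((c.rep 1 / c.rep 2) ^ 2 - (c.rep 0 / c.rep 2) ^ 3 - a * (c.rep 0 / c.rep 2))
  have hT2 : ∀ J ∈ 𝒥, (TJ a b k J x₀ 2).eval (s J) ≠ 0 := by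
    intro J hJ h
    apply hs J hJ
    rw [badP, eval_mul, h, zero_mul]
  have hgp := fun (J : Finset ℂ) (hJ : J ∈ 𝒥) =>
    good_param (hT J hJ) (hT2 J hJ) c (hsc J hJ).choose (hsc J hJ).choose_spec
  refine le_trans (Finset.card_le_card_of_injOn
    (fun J => (s J, (dY a b k J x₀).eval (s J) / (dZ a b k J x₀).eval (s J))) ?_ ?_) hG
  · intro J hJ
    obtain ⟨hQ, -, -, -, -, h1, h2⟩ := hgp J hJ
    exact hGm _ _ hQ h1 h2
  · intro J hJ J' hJ' heq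
    by_contra hne
    obtain ⟨hQ, hW, hA, hf, hU, -, -⟩ := hgp J hJ
    obtain ⟨-, -, hA', -, -, -, -⟩ := hgp J' hJ'
    simp only [Prod.mk.injEq] at heq
    obtain ⟨hss, hyy⟩ := heq
    rw [← hss] at hyy hA'
    have key : (BJ a b J x₀ * AJ a b J' x₀ - BJ a b J' x₀ * AJ a b J x₀).eval (s J) = 0 := by
      simp only [dY, dZ, eval_neg, eval_mul, eval_pow] at hyy
      rw [div_eq_div_iff (by positivity) (by positivity)] at hyy
      simp only [eval_sub, eval_mul]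
      have h3 : (fP a b).eval (s J) ^ 2 * (U a b k).eval (s J) ^ 3 * (W a b k).eval (s J) ≠ 0 := by
        positivity
      apply mul_left_cancel₀ h3
      linear_combination (-1 : ℂ) * hyy
    apply hs J hJ
    rw [badP, eval_mul, eval_prod]
    rw [Finset.prod_eq_zero (Finset.mem_erase.2 ⟨fun h => hne h.symm, hJ'⟩) key, mul_zero]

end Pool.Agent.Helper68.EG
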