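import Pool.Agent.Helper68.EG.ValA

/-!
# EG-08: the curve parametrised by three polynomials

Divide `T` by the gcd of its entries.
-/

set_option autoImplicit false

open Polynomial
open scoped LinearAlgebra.Projectivization

namespace Pool.Agent.Helper68.EG

open Pool.Agent.Helper19.ND

theorem exists_forms (T : Fin 3 → ℂ[X]) : ∃ (φ : Fin 3 → ℂ[X]) (g : ℂ[X]),
    (∀ i, T i = g * φ i) ∧ (T ≠ 0 → g ≠ 0 ∧ ∀ t : ℂ, (fun i => (φ i).eval t) ≠ 0) := by
  have hp : (Ideal.span (Set.range T)).IsPrincipal := IsPrincipalIdealRing.principal _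
  let g : ℂ[X] := Submodule.IsPrincipal.generator (Ideal.span (Set.range T))
  have hg : ∀ i, g ∣ T i := fun i => by
    rw [← Ideal.mem_span_singleton, Ideal.span_singleton_generator]
    exact Ideal.subset_span ⟨i, rfl⟩
  choose φ hφ using hg
  refine ⟨φ, g, hφ, fun hT => ?_⟩
  have hg0 : g ≠ 0 := by
    intro h0
    apply hT
    funext i
    rw [hφ i, h0, zero_mul]
    rfl
  refine ⟨hg0, fun t h0 => ?_⟩
  have hgm : g ∈ Ideal.span (Set.range T) := Submodule.IsPrincipal.generator_mem _
  obtain ⟨c, hc⟩ := (Ideal.mem_span_range_iff_exists_fun).1 hgm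
  have h1 : (∑ i, c i * φ i) = 1 := by
    apply mul_left_cancel₀ hg0
    rw [mul_one, Finset.mul_sum]
    conv_rhs => rw [← hc]
    refine Finset.sum_congr rfl fun i _ => ?_
    rw [hφ i]; ring
  have h2 := congrArg (Polynomial.eval t) h1
  rw [Polynomial.eval_finsetSum, Polynomial.eval_one] at h2
  have h3 : ∀ i, (c i * φ i).eval t = 0 := fun i => by
    have := congrFun h0 i
    simp only [Pi.zero_apply] at this
    rw [Polynomial.eval_mul, this, mul_zero]
  rw [Finset.sum_eq_zero (fun i _ => h3 i)] at h2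
  exact zero_ne_one h2

/-- `T` divided by the gcd of its entries -/
noncomputable def form (T : Fin 3 → ℂ[X]) : Fin 3 → ℂ[X] := (exists_forms T).choose

/-- the degree of the forms -/
noncomputable def fdeg (T : Fin 3 → ℂ[X]) : ℕ := Finset.univ.sup fun i => (form T i).natDegree

/-- the curve parametrised by `T` -/
noncomputable def curve (T : Fin 3 → ℂ[X]) : Set (ℙ ℂ (Fin 3 → ℂ)) := image (fdeg T) (form T)

/-- affine coordinate -/
noncomputable def rx (T : Fin 3 → ℂ[X]) : RatFunc ℂ := ι (T 0) / ι (T 2)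

/-- affine coordinate -/
noncomputable def ry (T : Fin 3 → ℂ[X]) : RatFunc ℂ := ι (T 1) / ι (T 2)

variable {T : Fin 3 → ℂ[X]}

private theorem Img_ne (hT : T 2 ≠ 0) : T ≠ 0 := fun h => hT (by rw [h]; rfl)

private theorem Img_const (pl : Place) (c : ℂ) : pl.v (RatFunc.C c) ≤ 1 := by
  by_cases h : c = 0
  · rw [h, map_zero, map_zero]; exact zero_le_one
  · rw [pl.const c h]

theorem form_spec (hT : T 2 ≠ 0) : ∃ g : ℂ[X], g ≠ 0 ∧ ∀ i, T i = g * form T i := by
  obtain ⟨g, h1, h2⟩ := (exists_forms T).choose_spec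
  exact ⟨g, (h2 (Img_ne hT)).1, h1⟩

theorem form_eval_ne (hT : T 2 ≠ 0) (t : ℂ) : (fun i => (form T i).eval t) ≠ 0 := by
  obtain ⟨g, _, h2⟩ := (exists_forms T).choose_spec
  exact (h2 (Img_ne hT)).2 t

theorem form_two_ne (hT : T 2 ≠ 0) : form T 2 ≠ 0 := by
  obtain ⟨g, _, h⟩ := form_spec hT
  intro h0
  exact hT (by rw [h 2, h0, mul_zero])

theorem natDegree_form_le (i : Fin 3) : (form T i).natDegree ≤ fdeg T :=
  Finset.le_sup (f := fun i => (form T i).natDegree) (Finset.mem_univ i)

theorem form_coeff_ne (hT : T 2 ≠ 0) : (fun i => (form T i).coeff (fdeg T)) ≠ 0 := by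
  intro h0
  have hc : ∀ i, (form T i).coeff (fdeg T) = 0 := fun i => congrFun h0 i
  obtain ⟨i, _, hi⟩ := Finset.exists_mem_eq_sup (Finset.univ : Finset (Fin 3))
    Finset.univ_nonempty (fun i => (form T i).natDegree)
  have hi' : fdeg T = (form T i).natDegree := hi
  have h1 : form T i = 0 := by
    have := hc i
    rw [hi'] at this
    exact Polynomial.leadingCoeff_eq_zero.1 this
  have h2 : fdeg T = 0 := by rw [hi', h1, Polynomial.natDegree_zero]
  have h3 : (form T 2).natDegree ≤ 0 := by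
    have := natDegree_form_le (T := T) 2
    rwa [h2] at this
  have h4 := Polynomial.eq_C_of_natDegree_le_zero h3
  have h5 := hc 2
  rw [h2] at h5
  rw [h5, map_zero] at h4
  exact form_two_ne hT h4

theorem rx_form (hT : T 2 ≠ 0) : rx T = ι (form T 0) / ι (form T 2) := by
  obtain ⟨g, hg, h⟩ := form_spec hT
  have hg' : ι g ≠ 0 := by
    intro h0
    exact hg ((map_eq_zero_iff ι (RatFunc.algebraMap_injective ℂ)).1 h0)
  unfold rx
  rw [h 0, h 2, map_mul, map_mul, mul_div_mul_left _ _ hg']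

theorem ry_form (hT : T 2 ≠ 0) : ry T = ι (form T 1) / ι (form T 2) := by
  obtain ⟨g, hg, h⟩ := form_spec hT
  have hg' : ι g ≠ 0 := by
    intro h0
    exact hg ((map_eq_zero_iff ι (RatFunc.algebraMap_injective ℂ)).1 h0)
  unfold ry
  rw [h 1, h 2, map_mul, map_mul, mul_div_mul_left _ _ hg']

theorem fdeg_le (hT : T 2 ≠ 0) {n : ℕ} (h : ∀ i, (T i).natDegree ≤ n) : fdeg T ≤ n := by
  obtain ⟨g, hg, hs⟩ := form_spec hT
  refine Finset.sup_le fun i _ => ?_
  by_cases h0 : form T i = 0
  · rw [h0, Polynomial.natDegree_zero]; exact Nat.zero_le _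
  · have h1 := h i
    rw [hs i, Polynomial.natDegree_mul hg h0] at h1
    omega

/-- if an affine coordinate is not constant the curve is infinite -/
theorem curve_infinite (hT : T 2 ≠ 0) {pl : Place} (h : 1 < pl.v (rx T)) :
    (curve T).Infinite := by
  intro hfin
  let F : ℂ → ℙ ℂ (Fin 3 → ℂ) := fun t =>
    Projectivization.mk ℂ (fun i => (form T i).eval t) (form_eval_ne hT t)
  have hF : ∀ t, F t ∈ curve T := fun t =>
    ⟨_, form_eval_ne hT t, rfl, Or.inl ⟨t, rfl⟩⟩
  obtain ⟨p, hinf⟩ : ∃ p, {t | F t = p}.Infinite := by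
    by_contra hcon
    push Not at hcon
    have hcov : (Set.univ : Set ℂ) ⊆ ⋃ p ∈ curve T, {t | F t = p} := fun t _ =>
      Set.mem_biUnion (hF t) rfl
    have hfin2 : (⋃ p ∈ curve T, {t | F t = p}).Finite :=
      hfin.biUnion fun p _ => hcon p
    exact Set.infinite_univ (hfin2.subset hcov)
  have hpr : ∀ t, F t = p → ∃ c : ℂ, ∀ i, (form T i).eval t = c * p.rep i := by
    intro t ht
    have h1 : Projectivization.mk ℂ (fun i => (form T i).eval t) (form_eval_ne hT t)
        = Projectivization.mk ℂ p.rep p.rep_nonzero := by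
      rw [Projectivization.mk_rep]; exact ht
    obtain ⟨c, hc⟩ := (Projectivization.mk_eq_mk_iff' ℂ _ _ _ _).1 h1
    exact ⟨c, fun i => (congrFun hc i).symm⟩
  have hzero : form T 0 * C (p.rep 2) - form T 2 * C (p.rep 0) = 0 := by
    refine Polynomial.eq_zero_of_infinite_isRoot _ (hinf.mono fun t ht => ?_)
    obtain ⟨c, hc⟩ := hpr t ht
    show Polynomial.IsRoot _ t
    rw [Polynomial.IsRoot.def, Polynomial.eval_sub, Polynomial.eval_mul, Polynomial.eval_mul,
      Polynomial.eval_C, Polynomial.eval_C, hc 0, hc 2]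
    ring
  have hne : ι (form T 2) ≠ 0 := by
    intro h0
    exact form_two_ne hT ((map_eq_zero_iff ι (RatFunc.algebraMap_injective ℂ)).1 h0)
  by_cases h2 : p.rep 2 = 0
  · apply form_two_ne hT
    refine Polynomial.eq_zero_of_infinite_isRoot _ (hinf.mono fun t ht => ?_)
    obtain ⟨c, hc⟩ := hpr t ht
    show Polynomial.IsRoot _ t
    rw [Polynomial.IsRoot.def, hc 2, h2, mul_zero]
  · have h3 : rx T = RatFunc.C (p.rep 0 / p.rep 2) := by
      rw [rx_form hT, div_eq_iff hne]
      have h4 : form T 0 = C (p.rep 0 / p.rep 2) * form T 2 := by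
        have h5 : form T 0 * C (p.rep 2) = form T 2 * C (p.rep 0) := sub_eq_zero.1 hzero
        have h6 : C (p.rep 2) * C (p.rep 2)⁻¹ = (1 : ℂ[X]) := by
          rw [← C_mul, mul_inv_cancel₀ h2, C_1]
        calc form T 0 = form T 0 * (C (p.rep 2) * C (p.rep 2)⁻¹) := by rw [h6, mul_one]
          _ = (form T 0 * C (p.rep 2)) * C (p.rep 2)⁻¹ := by ring
          _ = form T 2 * C (p.rep 0) * C (p.rep 2)⁻¹ := by rw [h5]
          _ = C (p.rep 0 / p.rep 2) * form T 2 := by
            rw [div_eq_mul_inv, C_mul]; ring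
      rw [h4, map_mul, RatFunc.algebraMap_C]
    rw [h3] at h
    exact absurd h (not_lt.2 (Img_const pl _))

/-- if an affine coordinate is not constant the degree is positive -/
theorem fdeg_pos (hT : T 2 ≠ 0) {pl : Place} (h : 1 < pl.v (rx T)) : 1 ≤ fdeg T := by
  by_contra hlt
  have h0 : fdeg T = 0 := by omega
  have hC : ∀ i, form T i = C ((form T i).coeff 0) := fun i =>
    Polynomial.eq_C_of_natDegree_le_zero (by
      have := natDegree_form_le (T := T) i
      rwa [h0] at this)
  have h3 : rx T = RatFunc.C ((form T 0).coeff 0 / (form T 2).coeff 0) := by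
    rw [rx_form hT, hC 0, hC 2, RatFunc.algebraMap_C, RatFunc.algebraMap_C, map_div₀]
    simp
  rw [h3] at h
  exact absurd h (not_lt.2 (Img_const pl _))

end Pool.Agent.Helper68.EG
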