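import Pool.Agent.Helper68.EG.Tower

/-!
# EG-03: the double of a root of `W k` is a root of `Q k`

Put `g (p, q) = (numF p q, denF p q)` on `ℂ × ℂ`. Then `(P k (x), Q k (x)) = g^(k+1) (x, 1)`, and
`g^m (l p, l q) = l^(4^m) g^m (p, q)`. If `W k (x) = 0` then `Q (k+1) (x) = 4 Q k (x) W k (x)² = 0`.
But `(P (k+1), Q (k+1)) (x) = g^(k+1) (g (x, 1)) = g^(k+1) (4 f(x) dbl x, 4 f(x))
= (4 f(x))^(4^(k+1)) (P k (dbl x), Q k (dbl x))`, `f(x) ≠ 0` (`W_root`).
-/

set_option autoImplicit false

open Polynomial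

namespace Pool.Agent.Helper68.EG

open Pool.Agent.Helper19.ND

variable {a b : ℂ} {k : ℕ}

/-- the doubling map on pairs -/
private noncomputable def gI (a b : ℂ) (z : ℂ × ℂ) : ℂ × ℂ := (numF a b z.1 z.2, denF a b z.1 z.2)

private theorem gI_smul (a b l : ℂ) (z : ℂ × ℂ) : gI a b (l * z.1, l * z.2) =
    (l ^ 4 * (gI a b z).1, l ^ 4 * (gI a b z).2) := by
  simp only [gI, numF, denF, cubF, Prod.mk.injEq]
  constructor <;> ring

private theorem gI_iter_smul (a b : ℂ) (m : ℕ) : ∀ (l : ℂ) (z : ℂ × ℂ),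
    (gI a b)^[m] (l * z.1, l * z.2) =
      (l ^ 4 ^ m * ((gI a b)^[m] z).1, l ^ 4 ^ m * ((gI a b)^[m] z).2) := by
  induction m with
  | zero => intro l z; simp
  | succ m ih =>
    intro l z
    rw [Function.iterate_succ_apply, gI_smul, ih, Function.iterate_succ_apply, ← pow_mul, ← pow_succ']

private theorem eval_numF' (a b : ℂ) (p q : ℂ[X]) (x : ℂ) :
    (numF (C a) (C b) p q).eval x = numF a b (p.eval x) (q.eval x) := by
  simp [numF]

private theorem eval_denF' (a b : ℂ) (p q : ℂ[X]) (x : ℂ) :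
    (denF (C a) (C b) p q).eval x = denF a b (p.eval x) (q.eval x) := by
  simp [denF, cubF]

private theorem PQ_iter (a b : ℂ) (k : ℕ) (x : ℂ) :
    ((P a b k).eval x, (Q a b k).eval x) = (gI a b)^[k + 1] (x, 1) := by
  induction k with
  | zero =>
    rw [P_zero, Q_zero, eval_numF', eval_denF']
    simp [gI]
  | succ k ih =>
    rw [P_succ, Q_succ, eval_numF', eval_denF', Function.iterate_succ_apply', ← ih, gI]

theorem Q_dbl (hab : 4 * a ^ 3 + 27 * b ^ 2 ≠ 0) {x : ℂ} (h : (W a b k).eval x = 0) :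
    (Q a b k).eval (dbl a b x) = 0 := by
  have hf := (W_root hab h).1
  have h1 : (Q a b (k + 1)).eval x = 0 := by
    rw [Q_succ, denF, cub_tow]
    simp [h]
  have h2 := PQ_iter a b (k + 1) x
  rw [Function.iterate_succ_apply] at h2
  have h3 : gI a b (x, 1) = (4 * (fP a b).eval x * (dbl a b x), 4 * (fP a b).eval x * 1) := by
    have hd : 4 * (fP a b).eval x * (dbl a b x) = numF a b x 1 := by
      rw [dbl]
      field_simp
    rw [hd]
    simp only [gI, denF, cubF, fP, Prod.mk.injEq, true_and]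
    simp
  rw [h3, gI_iter_smul a b (k + 1) (4 * (fP a b).eval x) (dbl a b x, 1), ← PQ_iter] at h2
  have h4 := congrArg Prod.snd h2
  simp only at h4
  rw [h1] at h4
  rcases mul_eq_zero.1 h4.symm with h5 | h5
  · exact absurd (pow_eq_zero_iff (by positivity) |>.1 h5) (mul_ne_zero (by norm_num) hf)
  · exact h5

theorem W_dbl (hab : 4 * a ^ 3 + 27 * b ^ 2 ≠ 0) {x : ℂ} (h : (W a b k).eval x = 0) :
    (W a b k).eval (dbl a b x) ≠ 0 :=
  (Q_root hab (Q_dbl hab h)).2

/-- at most four points have the same double -/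
theorem card_dbl (a b s : ℂ) (J : Finset ℂ) (hJ : ∀ x ∈ J, (fP a b).eval x ≠ 0) :
    (J.filter fun x => dbl a b x = s).card ≤ 4 := by
  classical
  obtain ⟨g, hg⟩ : ∃ g : ℂ[X], g = (X ^ 2 - C a) ^ 2 - C (8 * b) * X - C (4 * s) * (X ^ 3 + C a * X + C b) :=
    ⟨_, rfl⟩
  have hdeg : g.natDegree = 4 := by
    rw [hg]
    compute_degree!
  have hg0 : g ≠ 0 := by
    intro h
    rw [h] at hdeg
    simp at hdeg
  calc (J.filter fun x => dbl a b x = s).card ≤ g.roots.toFinset.card := by
        refine Finset.card_le_card fun x hx => ?_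
        obtain ⟨h1, h2⟩ := Finset.mem_filter.1 hx
        rw [Multiset.mem_toFinset, mem_roots hg0, IsRoot.def]
        have h3 := hJ x h1
        rw [dbl, div_eq_iff (mul_ne_zero (by norm_num) h3)] at h2
        have h4 : (fP a b).eval x = x ^ 3 + a * x + b := by
          simp [fP]
        rw [h4] at h2
        simp only [numF] at h2
        rw [hg]
        simp only [eval_sub, eval_mul, eval_pow, eval_add, eval_X, eval_C]
        linear_combination h2
    _ ≤ Multiset.card g.roots := Multiset.toFinset_card_le _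
    _ ≤ g.natDegree := card_roots' g
    _ = 4 := hdeg

end Pool.Agent.Helper68.EG
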