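import Pool.Agent.Helper68.EG.Tower

/-!
# EG-02: the roots of `W k` are simple

* step of `wronskian`: for polynomials `p, q`
  `(numF p q)' (denF p q) - (numF p q) (denF p q)' = 4 sexF(p,q) (p' q - p q')` (derivative rules and
  `ring`), and `4 W_(k+1) 2^(k+1) W_k U_k = 2^(k+2) W_(k+1) U_(k+1)`. Base: the case `p = X`, `q = 1`.
* `deriv_id`: differentiate `W² = P³ + a P Q² + b Q³`, multiply by `Q`, use `wronskian` and
  `cub_tow`: `2 W W' Q = 3 Q' W² + 2^(k+1) W U (3P² + aQ²)`; cancel `W`, put `Q = f U²`,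
  `Q' = f' U² + 2 f U U'`, cancel `U`.
* at a root `x` of `W`: `2^(k+1) (3P² + aQ²) = 2 f U W'`, and `3P² + aQ² ≠ 0` (`W_root`).
-/

set_option autoImplicit false

open Polynomial

namespace Pool.Agent.Helper68.EG

open Pool.Agent.Helper19.ND

variable (a b : ℂ) (k : ℕ)

private theorem wr_step (a b : ℂ) (p q : ℂ[X]) :
    derivative (numF (C a) (C b) p q) * denF (C a) (C b) p q
      - numF (C a) (C b) p q * derivative (denF (C a) (C b) p q)
      = 4 * sexF (C a) (C b) p q * (derivative p * q - p * derivative q) := by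
  simp only [numF, denF, cubF, sexF, derivative_sub, derivative_add, derivative_mul,
    derivative_pow, derivative_C, derivative_ofNat, Nat.cast_ofNat, C_ofNat]
  simp only [Nat.reduceSub, pow_one]
  ring

theorem wronskian : derivative (P a b k) * Q a b k - P a b k * derivative (Q a b k)
    = C (2 ^ (k + 1)) * W a b k * U a b k := by
  induction k with
  | zero =>
    rw [P_zero, Q_zero, wr_step, W_zero, U_zero, derivative_X]
    have h : (C (2 ^ (0 + 1)) : ℂ[X]) * C 2 = 4 := by
      rw [← C_mul, ← C_ofNat]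
      norm_num
    have h1 : derivative (1 : ℂ[X]) = 0 := derivative_one
    rw [h1]
    linear_combination (-sexF (C a) (C b) X 1) * h
  | succ k ih =>
    rw [P_succ, Q_succ, wr_step, ih, W_succ, U_succ]
    have h : (C (2 ^ (k + 1 + 1)) : ℂ[X]) * C 2 = 4 * C (2 ^ (k + 1)) := by
      rw [← C_mul, ← C_ofNat, ← C_mul]
      congr 1
      ring
    linear_combination (-sexF (C a) (C b) (P a b k) (Q a b k) * W a b k * U a b k) * h

theorem deriv_id : C (2 ^ (k + 1)) * (C 3 * P a b k ^ 2 + C a * Q a b k ^ 2)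
    = C 2 * fP a b * U a b k * derivative (W a b k)
      - C 3 * derivative (fP a b) * U a b k * W a b k
      - C 6 * fP a b * derivative (U a b k) * W a b k := by
  have e1 := congrArg derivative (cub_tow a b k)
  have e2 := wronskian a b k
  have e3 := cub_tow a b k
  have hQ : derivative (Q a b k) =
      derivative (fP a b) * U a b k ^ 2 + C 2 * fP a b * U a b k * derivative (U a b k) := by
    rw [Q]
    simp only [derivative_mul, derivative_pow, Nat.cast_ofNat]
    simp only [C_ofNat, Nat.reduceSub, pow_one]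
    ring
  have hQ' : Q a b k = fP a b * U a b k ^ 2 := rfl
  simp only [cubF, derivative_add, derivative_mul, derivative_pow, derivative_C, Nat.cast_ofNat,
    Nat.reduceSub, pow_one, C_ofNat] at e1 e3
  have c2 : (C 2 : ℂ[X]) = 2 := C_ofNat 2
  have c3 : (C 3 : ℂ[X]) = 3 := C_ofNat 3
  have c6 : (C 6 : ℂ[X]) = 6 := C_ofNat 6
  refine mul_right_cancel₀ (mul_ne_zero (W_ne_zero a b k) (U_ne_zero a b k)) ?_
  rw [c2, c3, c6]
  rw [c2] at hQ
  have key : C (2 ^ (k + 1)) * (3 * P a b k ^ 2 + C a * Q a b k ^ 2) * (W a b k * U a b k)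
      = 2 * W a b k * derivative (W a b k) * Q a b k
        - 3 * derivative (Q a b k) * W a b k ^ 2 := by
    linear_combination (-(3 * P a b k ^ 2 + C a * Q a b k ^ 2)) * e2 + Q a b k * e1
      - 3 * derivative (Q a b k) * e3
  rw [key, hQ]
  rw [hQ']
  ring

variable {a b k}

theorem W_simple (hab : 4 * a ^ 3 + 27 * b ^ 2 ≠ 0) {x : ℂ} (h : (W a b k).eval x = 0) :
    (derivative (W a b k)).eval x ≠ 0 := by
  intro h1
  have h2 := congrArg (eval x) (deriv_id a b k)
  simp only [eval_mul, eval_add, eval_sub, eval_pow, eval_C, h, h1, mul_zero, sub_zero] at h2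
  rcases mul_eq_zero.1 h2 with h3 | h3
  · exact absurd h3 (pow_ne_zero _ two_ne_zero)
  · exact (W_root hab h).2.2.2 h3

theorem W_mult (hab : 4 * a ^ 3 + 27 * b ^ 2 ≠ 0) {x : ℂ} (h : (W a b k).eval x = 0) :
    (W a b k).rootMultiplicity x = 1 := by
  have h1 : 0 < (W a b k).rootMultiplicity x := (rootMultiplicity_pos (W_ne_zero a b k)).2 h
  have h2 : ¬ 1 < (W a b k).rootMultiplicity x := by
    intro h3
    exact W_simple hab h ((one_lt_rootMultiplicity_iff_isRoot (W_ne_zero a b k)).1 h3).2
  omega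

theorem card_W (hab : 4 * a ^ 3 + 27 * b ^ 2 ≠ 0) : (W a b k).roots.toFinset.card = 6 * 4 ^ k := by
  classical
  have hn : (W a b k).roots.Nodup := by
    rw [Multiset.nodup_iff_count_le_one]
    intro x
    rw [count_roots]
    by_cases h : (W a b k).eval x = 0
    · exact (W_mult hab h).le
    · rw [rootMultiplicity_eq_zero h]
      exact zero_le_one
  rw [Multiset.toFinset_card_of_nodup hn, ← natDegree_W a b k]
  exact (IsAlgClosed.splits (W a b k)).natDegree_eq_card_roots.symm

end Pool.Agent.Helper68.EG
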