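import Pool.Agent.Helper68.EG.Norm
import Pool.Agent.Helper68.EG.Simple

/-!
# EG-05b: degrees and multiplicities of `AJ`, `BJ`, `NJ`

* `BJ² - f AJ² = ± NJ` has degree `3 (|J| + 1)`; the degrees of `BJ²` (even) and `f AJ²` (odd)
  are different, so both are at most `3 (|J| + 1)`.
* `mult_NJ_self`: the factors `(X - x₀)²` from `x₀ ∈ J` and from the extra factor; the other factors do not
  vanish at `x₀` (`x ≠ x₀`, and `dbl x ≠ x₀` by `W_dbl`).
* `mult_NJ_le`: if `W (s) = 0` then `mult W = 1` (`W_mult`) and only the factor `(X - s)²` (if `s ∈ J`)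
  vanishes at `s`: total at most 4. If `W (s) ≠ 0` then `s ∉ J`, the multiplicity is the number of
  `x ∈ J` with `dbl x = s` (at most 4, `card_dbl`) plus 1 if `dbl x₀ = s`.
-/

set_option autoImplicit false

open Polynomial

namespace Pool.Agent.Helper68.EG

open Pool.Agent.Helper19.ND

variable {a b : ℂ} {k : ℕ} {J : Finset ℂ} {x₀ : ℂ}

private lemma normDeg_fac (x s : ℂ) : ((X - C x) ^ 2 * (X - C s) : ℂ[X]).Monic :=
  ((monic_X_sub_C x).pow 2).mul (monic_X_sub_C s)

private lemma normDeg_monic : (NJ a b J x₀).Monic :=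
  (monic_prod_of_monic _ _ fun x _ => normDeg_fac x (dbl a b x)).mul (normDeg_fac _ _)

theorem NJ_ne_zero : NJ a b J x₀ ≠ 0 := normDeg_monic.ne_zero

private lemma normDeg_deg (x s : ℂ) : ((X - C x) ^ 2 * (X - C s) : ℂ[X]).natDegree = 3 := by
  rw [((monic_X_sub_C x).pow 2).natDegree_mul (monic_X_sub_C s), (monic_X_sub_C x).natDegree_pow,
    natDegree_X_sub_C, natDegree_X_sub_C]

theorem natDegree_NJ : (NJ a b J x₀).natDegree = 3 * (J.card + 1) := by
  unfold NJ
  rw [(monic_prod_of_monic _ _ fun x _ => normDeg_fac x (dbl a b x)).natDegree_mul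
      (normDeg_fac _ _), natDegree_prod_of_monic _ _ fun x _ => normDeg_fac x (dbl a b x),
    normDeg_deg]
  simp only [normDeg_deg, Finset.sum_const, smul_eq_mul]
  ring

theorem NJ_root (h₀ : x₀ ∈ J) {s : ℂ} (h : (NJ a b J x₀).eval s = 0) :
    s ∈ J ∨ ∃ x ∈ J, s = dbl a b x := by
  have key : ∀ x ∈ J, ((X - C x) ^ 2 * (X - C (dbl a b x)) : ℂ[X]).eval s = 0 →
      s ∈ J ∨ ∃ x ∈ J, s = dbl a b x := by
    intro x hx hx0
    rw [eval_mul, eval_pow, eval_sub, eval_X, eval_C, eval_sub, eval_X, eval_C] at hx0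
    rcases mul_eq_zero.1 hx0 with h1 | h1
    · left
      rw [sub_eq_zero.1 (pow_eq_zero_iff two_ne_zero |>.1 h1)]
      exact hx
    · right
      exact ⟨x, hx, sub_eq_zero.1 h1⟩
  unfold NJ at h
  rw [eval_mul] at h
  rcases mul_eq_zero.1 h with h1 | h1
  · rw [eval_prod] at h1
    obtain ⟨x, hx, hx0⟩ := Finset.prod_eq_zero_iff.1 h1
    exact key x hx hx0
  · exact key x₀ h₀ h1

/-- the degree of `B² - f A²` is the maximum of the two degrees -/
private lemma normDeg_max {A B N : ℂ[X]} {ε : ℂ} (hε : ε ^ 2 = 1) (hA : A ≠ 0)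
    (h : B ^ 2 - fP a b * A ^ 2 = C ε * N) :
    2 * B.natDegree ≤ N.natDegree ∧ 2 * A.natDegree + 3 ≤ N.natDegree := by
  have hε0 : ε ≠ 0 := by
    rintro rfl
    norm_num at hε
  have hN : (C ε * N).natDegree = N.natDegree := natDegree_C_mul hε0
  have h2 : (fP a b * A ^ 2).natDegree = 2 * A.natDegree + 3 := by
    rw [natDegree_mul (fP_ne_zero a b) (pow_ne_zero 2 hA), natDegree_fP', natDegree_pow]
    ring
  have h1 : (B ^ 2).natDegree = 2 * B.natDegree := natDegree_pow B 2
  have hne : (B ^ 2).natDegree ≠ (fP a b * A ^ 2).natDegree := by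
    rw [h1, h2]
    omega
  rcases lt_or_gt_of_ne hne with hlt | hlt
  · have h3 := natDegree_sub_eq_right_of_natDegree_lt hlt
    rw [h, hN] at h3
    rw [h1, h2] at hlt
    rw [h2] at h3
    omega
  · have h3 := natDegree_sub_eq_left_of_natDegree_lt hlt
    rw [h, hN] at h3
    rw [h1, h2] at hlt
    rw [h1] at h3
    omega

theorem natDegree_BJ (hJ : ∀ x ∈ J, (fP a b).eval x ≠ 0) (h₀ : x₀ ∈ J) :
    2 * (BJ a b J x₀).natDegree ≤ 3 * (J.card + 1) := by
  obtain ⟨ε, hε, h⟩ := norm_hJ hJ h₀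
  rw [← natDegree_NJ (a := a) (b := b) (J := J) (x₀ := x₀)]
  by_cases hA : AJ a b J x₀ = 0
  · have hε0 : ε ≠ 0 := by
      rintro rfl
      norm_num at hε
    rw [hA] at h
    have h1 : (BJ a b J x₀ ^ 2).natDegree = (NJ a b J x₀).natDegree := by
      rw [← natDegree_C_mul (p := NJ a b J x₀) hε0, ← h]
      congr 1
      ring
    rw [natDegree_pow] at h1
    exact h1.le
  · exact (normDeg_max hε hA h).1

theorem natDegree_AJ (hJ : ∀ x ∈ J, (fP a b).eval x ≠ 0) (h₀ : x₀ ∈ J)
    (hA : AJ a b J x₀ ≠ 0) : 2 * (AJ a b J x₀).natDegree + 3 ≤ 3 * (J.card + 1) := by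
  obtain ⟨ε, hε, h⟩ := norm_hJ hJ h₀
  rw [← natDegree_NJ (a := a) (b := b) (J := J) (x₀ := x₀)]
  exact (normDeg_max hε hA h).2

private lemma normDeg_mfac (x t s : ℂ) : ((X - C x) ^ 2 * (X - C t) : ℂ[X]).rootMultiplicity s
    = 2 * (if s = x then 1 else 0) + (if s = t then 1 else 0) := by
  have h1 : (X - C x : ℂ[X]) ≠ 0 := X_sub_C_ne_zero x
  have h2 : (X - C t : ℂ[X]) ≠ 0 := X_sub_C_ne_zero t
  rw [rootMultiplicity_mul (mul_ne_zero (pow_ne_zero 2 h1) h2), rootMultiplicity_X_sub_C, pow_two,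
    rootMultiplicity_mul (mul_ne_zero h1 h1), rootMultiplicity_X_sub_C]
  ring

/-- multiplicity of a root of a product of such factors -/
private lemma normDeg_mprod (a b s : ℂ) (J : Finset ℂ) :
    (∏ x ∈ J, ((X - C x) ^ 2 * (X - C (dbl a b x))) : ℂ[X]).rootMultiplicity s
      = 2 * (if s ∈ J then 1 else 0) + (J.filter fun x => dbl a b x = s).card := by
  classical
  induction J using Finset.induction_on with
  | empty => simp
  | insert x J hx ih =>
    have hne : (∏ x ∈ insert x J, ((X - C x) ^ 2 * (X - C (dbl a b x))) : ℂ[X]) ≠ 0 :=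
      (monic_prod_of_monic _ _ fun x _ => normDeg_fac x (dbl a b x)).ne_zero
    rw [Finset.prod_insert hx] at hne ⊢
    rw [rootMultiplicity_mul hne, ih, normDeg_mfac, Finset.filter_insert]
    by_cases h1 : s = x
    · subst h1
      by_cases h2 : dbl a b s = s
      · rw [if_pos h2, Finset.card_insert_of_notMem (by simp [hx])]
        simp [hx, h2]
        ring
      · rw [if_neg h2]
        have h3 : ¬ s = dbl a b s := fun h => h2 h.symm
        simp [hx, h3]
    · by_cases h2 : dbl a b x = s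
      · rw [if_pos h2, Finset.card_insert_of_notMem (by simp [hx])]
        simp [h1, h2]
        ring
      · rw [if_neg h2]
        have h3 : ¬ s = dbl a b x := fun h => h2 h.symm
        simp [h1, h3]

private lemma normDeg_mNJ (s : ℂ) : (NJ a b J x₀).rootMultiplicity s
    = (2 * (if s ∈ J then 1 else 0) + (J.filter fun x => dbl a b x = s).card)
      + (2 * (if s = x₀ then 1 else 0) + (if s = dbl a b x₀ then 1 else 0)) := by
  have h := NJ_ne_zero (a := a) (b := b) (J := J) (x₀ := x₀)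
  unfold NJ at h ⊢
  rw [rootMultiplicity_mul h, normDeg_mprod, normDeg_mfac]

/-- the multiplicity at `x₀` -/
theorem mult_NJ_self (hab : 4 * a ^ 3 + 27 * b ^ 2 ≠ 0) (hJ : ∀ x ∈ J, (W a b k).eval x = 0)
    (h₀ : x₀ ∈ J) : (NJ a b J x₀).rootMultiplicity x₀ = 4 := by
  have h1 : ∀ x ∈ J, dbl a b x ≠ x₀ := by
    intro x hx h
    have := W_dbl hab (hJ x hx)
    rw [h] at this
    exact this (hJ x₀ h₀)
  have h2 : (J.filter fun x => dbl a b x = x₀) = ∅ := by
    rw [Finset.filter_eq_empty_iff]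
    intro x hx
    exact h1 x hx
  have h3 : ¬ x₀ = dbl a b x₀ := fun h => h1 x₀ h₀ h.symm
  rw [normDeg_mNJ, h2, if_pos h₀, if_pos rfl, if_neg h3, Finset.card_empty]

/-- the multiplicity elsewhere: at most 2 at a root of `W`, at most 5 (`card_dbl`) elsewhere -/
theorem mult_NJ_le (hab : 4 * a ^ 3 + 27 * b ^ 2 ≠ 0) (hJ : ∀ x ∈ J, (W a b k).eval x = 0)
    (h₀ : x₀ ∈ J) {s : ℂ} (hs : s ≠ x₀) :
    2 * (W a b k).rootMultiplicity s + (NJ a b J x₀).rootMultiplicity s ≤ 5 := by
  rw [normDeg_mNJ, if_neg hs]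
  by_cases hW : (W a b k).eval s = 0
  · have h1 : ∀ x ∈ J, dbl a b x ≠ s := by
      intro x hx h
      have := W_dbl hab (hJ x hx)
      rw [h] at this
      exact this hW
    have h2 : (J.filter fun x => dbl a b x = s) = ∅ := by
      rw [Finset.filter_eq_empty_iff]
      intro x hx
      exact h1 x hx
    have h3 : ¬ s = dbl a b x₀ := fun h => h1 x₀ h₀ h.symm
    rw [W_mult hab hW, h2, if_neg h3, Finset.card_empty]
    split_ifs <;> omega
  · have h1 : s ∉ J := fun h => hW (hJ s h)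
    have h2 : (W a b k).rootMultiplicity s = 0 := rootMultiplicity_eq_zero hW
    have h3 := card_dbl a b s J fun x hx => (W_root hab (hJ x hx)).1
    rw [h2, if_neg h1]
    split_ifs <;> omega

end Pool.Agent.Helper68.EG
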