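import Pool.Agent.Helper68.EG.Meet
import Pool.Agent.Helper68.EG.NormDeg

/-!
# EG-12a: algebra of the curve `TJ`

`xD = dX/dZ = P/Q`, `yD = dY/dZ = - W B / (f² U³ A)`.
* `rx_TJ`, `ry_TJ`: clear denominators (`field_simp; ring`).
* `bb_eq`: `yD² - xD³ - a xD - b = W² B² / (f⁴ U⁶ A²) - W²/(f³ U⁶)` (`cub_tow`, `Q = f U²`)
  `= W² (B² - f A²) / (f⁴ U⁶ A²) = ε W² NJ / (f⁴ U⁶ A²)` (`norm_hJ`).
-/

set_option autoImplicit false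

open Polynomial WithZero

namespace Pool.Agent.Helper68.EG

open Pool.Agent.Helper19.ND

/-- the abscissa of `D` -/
noncomputable def xD (a b : ℂ) (k : ℕ) (J : Finset ℂ) (x₀ : ℂ) : RatFunc ℂ :=
  ι (dX a b k J x₀) / ι (dZ a b k J x₀)

/-- the ordinate of `D` -/
noncomputable def yD (a b : ℂ) (k : ℕ) (J : Finset ℂ) (x₀ : ℂ) : RatFunc ℂ :=
  ι (dY a b k J x₀) / ι (dZ a b k J x₀)

variable {a b : ℂ} {k : ℕ} {J : Finset ℂ} {x₀ : ℂ}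

private theorem ι_ne {p : ℂ[X]} (h : p ≠ 0) : ι p ≠ 0 := by
  intro h0
  exact h ((map_eq_zero_iff _ (RatFunc.algebraMap_injective ℂ)).1 h0)

private theorem ι_C (c : ℂ) : ι (C c) = RatFunc.C c := RatFunc.algebraMap_C c

theorem dZ_ne (hab : 4 * a ^ 3 + 27 * b ^ 2 ≠ 0) (hJ : ∀ x ∈ J, (W a b k).eval x = 0)
    (h₀ : x₀ ∈ J) : dZ a b k J x₀ ≠ 0 := by
  rw [dZ]
  exact mul_ne_zero (mul_ne_zero (pow_ne_zero _ (fP_ne_zero a b)) (pow_ne_zero _ (U_ne_zero a b k)))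
    (AJ_ne_zero hab hJ h₀)

theorem dY_ne (hab : 4 * a ^ 3 + 27 * b ^ 2 ≠ 0) (hJ : ∀ x ∈ J, (W a b k).eval x = 0)
    (h₀ : x₀ ∈ J) : dY a b k J x₀ ≠ 0 := by
  rw [dY]
  exact neg_ne_zero.2 (mul_ne_zero (W_ne_zero a b k) (BJ_ne_zero hab hJ h₀))

theorem yD_ne (hab : 4 * a ^ 3 + 27 * b ^ 2 ≠ 0) (hJ : ∀ x ∈ J, (W a b k).eval x = 0)
    (h₀ : x₀ ∈ J) : yD a b k J x₀ ≠ 0 :=
  div_ne_zero (ι_ne (dY_ne hab hJ h₀)) (ι_ne (dZ_ne hab hJ h₀))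

theorem TJ_ne (hab : 4 * a ^ 3 + 27 * b ^ 2 ≠ 0) (hJ : ∀ x ∈ J, (W a b k).eval x = 0)
    (h₀ : x₀ ∈ J) : TJ a b k J x₀ 2 ≠ 0 := by
  have h : TJ a b k J x₀ 2 = 8 * dY a b k J x₀ ^ 3 * dZ a b k J x₀ ^ 3 := rfl
  rw [h]
  exact mul_ne_zero (mul_ne_zero (by norm_num) (pow_ne_zero _ (dY_ne hab hJ h₀)))
    (pow_ne_zero _ (dZ_ne hab hJ h₀))

theorem xD_eq (hab : 4 * a ^ 3 + 27 * b ^ 2 ≠ 0) (hJ : ∀ x ∈ J, (W a b k).eval x = 0)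
    (h₀ : x₀ ∈ J) : xD a b k J x₀ = ι (P a b k) / ι (Q a b k) := by
  have h1 := ι_ne (fP_ne_zero a b)
  have h2 := ι_ne (U_ne_zero a b k)
  have h3 := ι_ne (AJ_ne_zero hab hJ h₀)
  rw [xD, dX, dZ, Q]
  simp only [map_mul, map_pow]
  field_simp

theorem rx_TJ (hab : 4 * a ^ 3 + 27 * b ^ 2 ≠ 0) (hJ : ∀ x ∈ J, (W a b k).eval x = 0)
    (h₀ : x₀ ∈ J) : rx (TJ a b k J x₀) = dx a (xD a b k J x₀) (yD a b k J x₀) := by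
  have h0 : TJ a b k J x₀ 0 = 2 * dY a b k J x₀ * dZ a b k J x₀ *
      ((3 * dX a b k J x₀ ^ 2 + C a * dZ a b k J x₀ ^ 2) ^ 2
        - 8 * dX a b k J x₀ * dY a b k J x₀ ^ 2 * dZ a b k J x₀) := rfl
  have h2 : TJ a b k J x₀ 2 = 8 * dY a b k J x₀ ^ 3 * dZ a b k J x₀ ^ 3 := rfl
  have hY := ι_ne (dY_ne hab hJ h₀)
  have hZ := ι_ne (dZ_ne hab hJ h₀)
  rw [rx, h0, h2, dx, xD, yD]
  simp only [map_mul, map_pow, map_add, map_sub, map_ofNat, ι_C]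
  field_simp
  ring

theorem ry_TJ (hab : 4 * a ^ 3 + 27 * b ^ 2 ≠ 0) (hJ : ∀ x ∈ J, (W a b k).eval x = 0)
    (h₀ : x₀ ∈ J) : ry (TJ a b k J x₀) = dy a (xD a b k J x₀) (yD a b k J x₀) := by
  have h1 : TJ a b k J x₀ 1 =
      (3 * dX a b k J x₀ ^ 2 + C a * dZ a b k J x₀ ^ 2) *
        (12 * dX a b k J x₀ * dY a b k J x₀ ^ 2 * dZ a b k J x₀
          - (3 * dX a b k J x₀ ^ 2 + C a * dZ a b k J x₀ ^ 2) ^ 2)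
        - 8 * dY a b k J x₀ ^ 4 * dZ a b k J x₀ ^ 2 := rfl
  have h2 : TJ a b k J x₀ 2 = 8 * dY a b k J x₀ ^ 3 * dZ a b k J x₀ ^ 3 := rfl
  have hY := ι_ne (dY_ne hab hJ h₀)
  have hZ := ι_ne (dZ_ne hab hJ h₀)
  rw [ry, h1, h2, dy, dx, xD, yD]
  simp only [map_mul, map_pow, map_add, map_sub, map_ofNat, ι_C]
  field_simp
  ring

theorem bb_eq (hab : 4 * a ^ 3 + 27 * b ^ 2 ≠ 0) (hJ : ∀ x ∈ J, (W a b k).eval x = 0)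
    (h₀ : x₀ ∈ J) : ∃ ε : ℂ, ε ^ 2 = 1 ∧ bb a b (xD a b k J x₀) (yD a b k J x₀) =
      ι (C ε * W a b k ^ 2 * NJ a b J x₀) /
        ι (fP a b ^ 4 * U a b k ^ 6 * AJ a b J x₀ ^ 2) := by
  obtain ⟨ε, hε, h⟩ := norm_hJ (a := a) (b := b) (x₀ := x₀)
    (fun x hx => (W_root hab (hJ x hx)).1) h₀
  refine ⟨ε, hε, ?_⟩
  have h1 := ι_ne (fP_ne_zero a b)
  have h2 := ι_ne (U_ne_zero a b k)
  have h3 := ι_ne (AJ_ne_zero hab hJ h₀)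
  have h5 : C ε * W a b k ^ 2 * NJ a b J x₀ =
      W a b k ^ 2 * BJ a b J x₀ ^ 2 - fP a b * AJ a b J x₀ ^ 2 *
        (P a b k ^ 3 + C a * P a b k * (fP a b * U a b k ^ 2) ^ 2
          + C b * (fP a b * U a b k ^ 2) ^ 3) := by
    have h6 := cub_tow a b k
    rw [cubF, Q] at h6
    rw [h6]
    linear_combination (-(W a b k ^ 2)) * h
  rw [h5, xD_eq hab hJ h₀, bb, yD, dY, dZ, Q]
  simp only [map_mul, map_pow, map_add, map_sub, map_neg, ι_C]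
  field_simp
  ring

end Pool.Agent.Helper68.EG
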