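import Pool.Agent.Helper68.EG.Places
import Mathlib.FieldTheory.RatFunc.Luroth

/-!
# EG-10: a criterion for `ℂ(x, y) = ℂ(t)`

By Luroth (`RatFunc.Luroth.eq_adjoin_generator`) `E = ℂ(x, y) = ℂ(g)`, `g` not constant (`v x ≠ 1`).
Replace `g` by `g - c` or `1/g` such that `v₀ g < 1`, `v₀ = (plAt s₀).v` (evaluate at `s₀`).
For any place `v` with `v g < 1` and `0 ≠ r ∈ ℂ(g)`, `r = p(g)/q(g)`: `v r = (v g)^m`, where `m ∈ ℤ` is the
difference of the orders of `p` and `q` at 0, and does not depend on `v`.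
* `v₀ g = exp(-e)`, `v₀ x = exp 2`, `v₀ y = exp 3`: `e` divides 2 and 3, so `e = 1`.
* `w`: `v₀ w = (v₀ g)^m = exp(-m) < 1`, so `m ≥ 1`. If `v` is another place with `v g < 1` then
  `v w = (v g)^m ≤ exp(-m) = v₀ w`, against the hypothesis.
* So `t = s₀` is the only zero of `g` and it is simple: the numerator of `g` is `c (t - s₀)` and
  (`plInf.v g ≥ 1`) the denominator has degree `≤ 1`. So `max (natDegree num) (natDegree denom) = 1`
  and `[ℂ(t) : ℂ(g)] = 1` (`RatFunc.finrank_eq_max_natDegree`).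
-/

set_option autoImplicit false

open Polynomial WithZero

namespace Pool.Agent.Helper68.EG

private theorem place_C_le (pl : Place) (c : ℂ) : pl.v (algebraMap ℂ (RatFunc ℂ) c) ≤ 1 := by
  rw [RatFunc.algebraMap_eq_C]
  by_cases hc : c = 0
  · rw [hc, map_zero, map_zero]
    exact zero_le_one
  · exact (pl.const c hc).le

private theorem place_aeval_le (pl : Place) {h : RatFunc ℂ} (hh : pl.v h ≤ 1) (p : ℂ[X]) :
    pl.v (aeval h p) ≤ 1 := by
  induction p using Polynomial.induction_on' with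
  | add p q hp hq =>
    rw [map_add]
    exact (pl.v.map_add _ _).trans (max_le hp hq)
  | monomial n c =>
    rw [aeval_monomial, map_mul, map_pow]
    exact mul_le_one' (place_C_le pl c) (pow_le_one' hh n)

private theorem place_aeval_unit (pl : Place) {h : RatFunc ℂ} (hh : pl.v h < 1) {p : ℂ[X]}
    (hp : p.eval 0 ≠ 0) : pl.v (aeval h p) = 1 := by
  have e : aeval h p = h * aeval h p.divX + RatFunc.C (p.eval 0) := by
    conv_lhs => rw [← p.X_mul_divX_add]
    rw [map_add, map_mul, aeval_X, aeval_C, RatFunc.algebraMap_eq_C, coeff_zero_eq_eval_zero]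
  have h1 : pl.v (h * aeval h p.divX) < 1 := by
    rw [map_mul]
    exact mul_lt_one_of_nonneg_of_lt_one_left zero_le hh (place_aeval_le pl hh.le _)
  rw [e, pl.v.map_add_eq_of_lt_right (by rwa [pl.const _ hp]), pl.const _ hp]

private theorem place_aeval (pl : Place) {h : RatFunc ℂ} (hh : pl.v h < 1) {p : ℂ[X]}
    (hp : p ≠ 0) : pl.v (aeval h p) = pl.v h ^ (p.rootMultiplicity 0) := by
  obtain ⟨q, hq, hq1⟩ := exists_eq_pow_rootMultiplicity_mul_and_not_dvd p hp 0
  have hq0 : q.eval 0 ≠ 0 := by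
    intro h0
    exact hq1 (dvd_iff_isRoot.2 h0)
  conv_lhs => rw [hq]
  rw [map_mul, map_mul, place_aeval_unit pl hh hq0, mul_one, map_pow, map_pow, map_sub, aeval_X,
    map_zero, map_zero, sub_zero]

/-- elements of `ℂ(h)` have proportional values at all zeros of `h` -/
private theorem exists_ord {h r : RatFunc ℂ} (hr : r ∈ IntermediateField.adjoin ℂ {h})
    (hr0 : r ≠ 0) : ∃ m : ℤ, ∀ pl : Place, pl.v h < 1 → pl.v h ≠ 0 → pl.v r = pl.v h ^ m := by
  obtain ⟨p, q, rfl⟩ := (IntermediateField.mem_adjoin_simple_iff ℂ r).1 hr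
  have hp : p ≠ 0 := by
    rintro rfl
    exact hr0 (by simp)
  have hq : q ≠ 0 := by
    rintro rfl
    exact hr0 (by simp)
  refine ⟨p.rootMultiplicity 0 - q.rootMultiplicity 0, fun pl hl h0 => ?_⟩
  rw [map_div₀, place_aeval pl hl hp, place_aeval pl hl hq, zpow_sub₀ h0, zpow_natCast,
    zpow_natCast]

private theorem place_ne_zero (pl : Place) {h : RatFunc ℂ} (h0 : h ≠ 0) : pl.v h ≠ 0 :=
  (Valuation.ne_zero_iff _).2 h0

/-- a generator that vanishes at `s₀` -/
private theorem exists_gen {E : IntermediateField ℂ (RatFunc ℂ)} (hE : E ≠ ⊥) (s₀ : ℂ) :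
    ∃ h : RatFunc ℂ, E = IntermediateField.adjoin ℂ {h} ∧ h ≠ 0 ∧ (plAt s₀).v h < 1 := by
  obtain ⟨g, hg, hgC⟩ : ∃ g : RatFunc ℂ, E = IntermediateField.adjoin ℂ {g} ∧
      ¬ ∃ c, g = RatFunc.C c :=
    ⟨_, RatFunc.Luroth.eq_adjoin_generator, RatFunc.Luroth.generator_ne_C hE⟩
  have hg0 : g ≠ 0 := by
    rintro rfl
    exact hgC ⟨0, by simp⟩
  rcases lt_trichotomy ((plAt s₀).v g) 1 with hl | he | hgt
  · exact ⟨g, hg, hg0, hl⟩
  · have hn0 : g.num ≠ 0 := RatFunc.num_ne_zero hg0
    have hd0 : g.denom ≠ 0 := g.denom_ne_zero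
    have hdd : ι g.denom ≠ 0 := (map_ne_zero_iff _ (RatFunc.algebraMap_injective ℂ)).2 hd0
    have hden : g.denom.eval s₀ ≠ 0 := by
      intro h0
      have h1 : (plAt s₀).v (ι g.denom) < 1 := plAt_lt_one.2 h0
      have h2 : (plAt s₀).v (ι g.num) = (plAt s₀).v (ι g.denom) := by
        have h4 : ι g.num = g * ι g.denom := (div_eq_iff hdd).1 (RatFunc.num_div_denom g)
        rw [h4, map_mul, he, one_mul]
      rw [← h2, plAt_lt_one] at h1
      obtain ⟨u, v, huv⟩ := g.isCoprime_num_denom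
      have h5 := congrArg (Polynomial.eval s₀) huv
      rw [eval_add, eval_mul, eval_mul, h0, h1, mul_zero, mul_zero, add_zero, eval_one] at h5
      exact zero_ne_one h5
    set c : ℂ := g.num.eval s₀ / g.denom.eval s₀ with hc
    refine ⟨g - RatFunc.C c, ?_, ?_, ?_⟩
    · rw [hg]
      have hCm : ∀ K : IntermediateField ℂ (RatFunc ℂ), RatFunc.C c ∈ K := by
        intro K
        rw [← RatFunc.algebraMap_eq_C]
        exact K.algebraMap_mem c
      refine le_antisymm ?_ ?_
      · rw [IntermediateField.adjoin_simple_le_iff]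
        have h1 : g - RatFunc.C c + RatFunc.C c ∈
            IntermediateField.adjoin ℂ {g - RatFunc.C c} :=
          add_mem (IntermediateField.mem_adjoin_simple_self ℂ _) (hCm _)
        rwa [sub_add_cancel] at h1
      · rw [IntermediateField.adjoin_simple_le_iff]
        exact sub_mem (IntermediateField.mem_adjoin_simple_self ℂ _) (hCm _)
    · intro h0
      exact hgC ⟨c, sub_eq_zero.1 h0⟩
    · have e : g - RatFunc.C c = ι (g.num - C c * g.denom) / ι g.denom := by
        rw [map_sub, map_mul, sub_div, mul_div_assoc, div_self hdd, mul_one]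
        congr 1
        exact (RatFunc.num_div_denom g).symm
      rw [e, map_div₀, plAt_eq_one.2 hden, div_one, plAt_lt_one, eval_sub, eval_mul, eval_C, hc,
        div_mul_cancel₀ _ hden, sub_self]
  · refine ⟨g⁻¹, ?_, inv_ne_zero hg0, ?_⟩
    · rw [hg]
      refine le_antisymm ?_ ?_
      · rw [IntermediateField.adjoin_simple_le_iff]
        have h1 := inv_mem (IntermediateField.mem_adjoin_simple_self ℂ g⁻¹)
        rwa [inv_inv] at h1
      · rw [IntermediateField.adjoin_simple_le_iff]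
        exact inv_mem (IntermediateField.mem_adjoin_simple_self ℂ _)
    · rw [map_inv₀]
      exact inv_lt_one_of_one_lt₀ hgt

theorem adjoin_top {x y w : RatFunc ℂ} {s₀ : ℂ} (hx : (plAt s₀).v x = exp (2 : ℤ))
    (hy : (plAt s₀).v y = exp (3 : ℤ)) (hw : w ∈ IntermediateField.adjoin ℂ {x, y}) (hw0 : w ≠ 0)
    (hw1 : (plAt s₀).v w < 1) (hs : ∀ s, s ≠ s₀ → (plAt s₀).v w < (plAt s).v w)
    (hinf : (plAt s₀).v w < plInf.v w) : IntermediateField.adjoin ℂ {x, y} = ⊤ := by
  have hx0 : x ≠ 0 := by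
    rintro rfl
    rw [map_zero] at hx
    exact exp_ne_zero hx.symm
  have hy0 : y ≠ 0 := by
    rintro rfl
    rw [map_zero] at hy
    exact exp_ne_zero hy.symm
  have hxm : x ∈ IntermediateField.adjoin ℂ {x, y} :=
    IntermediateField.subset_adjoin _ _ (by simp)
  have hym : y ∈ IntermediateField.adjoin ℂ {x, y} :=
    IntermediateField.subset_adjoin _ _ (by simp)
  have hE : IntermediateField.adjoin ℂ {x, y} ≠ ⊥ := by
    intro hb
    rw [hb, IntermediateField.mem_bot] at hxm
    obtain ⟨c, hc⟩ := hxm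
    have h1 := place_C_le (plAt s₀) c
    rw [hc, hx, ← exp_zero, exp_le_exp] at h1
    omega
  obtain ⟨h, hEh, h0, hlt⟩ := exists_gen hE s₀
  have hv0 : ∀ pl : Place, pl.v h ≠ 0 := fun pl => place_ne_zero pl h0
  -- the order of `h` at `s₀` is one
  obtain ⟨e, he⟩ : ∃ e : ℤ, (plAt s₀).v h = exp e := ⟨_, (exp_log (hv0 _)).symm⟩
  have he0 : e < 0 := by
    rwa [he, ← exp_zero, exp_lt_exp] at hlt
  obtain ⟨m2, hm2⟩ := exists_ord (hEh ▸ hxm) hx0
  obtain ⟨m3, hm3⟩ := exists_ord (hEh ▸ hym) hy0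
  obtain ⟨m, hm⟩ := exists_ord (hEh ▸ hw) hw0
  have e2 := hm2 _ hlt (hv0 _)
  have e3 := hm3 _ hlt (hv0 _)
  have ew := hm _ hlt (hv0 _)
  rw [hx, he, ← exp_zsmul, exp_inj, smul_eq_mul] at e2
  rw [hy, he, ← exp_zsmul, exp_inj, smul_eq_mul] at e3
  rw [he, ← exp_zsmul, smul_eq_mul] at ew
  have he1 : e = -1 := by
    have h1 : (m3 - m2) * e = 1 := by
      rw [sub_mul]
      omega
    have h2 : e ∣ 1 := ⟨m3 - m2, by rw [mul_comm, h1]⟩
    have h3 := Int.isUnit_iff.1 (isUnit_of_dvd_one h2)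
    omega
  subst he1
  have hmpos : 0 < m := by
    rw [ew, ← exp_zero, exp_lt_exp] at hw1
    omega
  -- no other zero
  have hother : ∀ pl : Place, (plAt s₀).v w < pl.v w → 1 ≤ pl.v h := by
    intro pl hpl
    by_contra hcon
    rw [not_le] at hcon
    have h1 := hm pl hcon (hv0 _)
    obtain ⟨f, hf⟩ : ∃ f : ℤ, pl.v h = exp f := ⟨_, (exp_log (hv0 _)).symm⟩
    rw [hf, ← exp_zero, exp_lt_exp] at hcon
    rw [hf, ← exp_zsmul, smul_eq_mul] at h1
    rw [ew, h1, exp_lt_exp] at hpl
    have h2 : m * f ≤ m * (-1) := mul_le_mul_of_nonneg_left (by omega) hmpos.le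
    omega
  have hn0 : h.num ≠ 0 := RatFunc.num_ne_zero h0
  have hd0 : h.denom ≠ 0 := h.denom_ne_zero
  have hval : ∀ pl : Place, pl.v h = pl.v (ι h.num) / pl.v (ι h.denom) := by
    intro pl
    rw [← map_div₀]
    congr 1
    exact (RatFunc.num_div_denom h).symm
  have hcop : ∀ s, h.num.eval s = 0 → h.denom.eval s ≠ 0 := by
    intro s h1 h2
    obtain ⟨u, v, huv⟩ := h.isCoprime_num_denom
    have h5 := congrArg (Polynomial.eval s) huv
    rw [eval_add, eval_mul, eval_mul, h1, h2, mul_zero, mul_zero, add_zero, eval_one] at h5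
    exact zero_ne_one h5
  have hroots : ∀ s, h.num.eval s = 0 → s = s₀ := by
    intro s h1
    by_contra hne
    have h2 := hother _ (hs s hne)
    rw [hval, plAt_eq_one.2 (hcop s h1), div_one] at h2
    exact absurd (plAt_lt_one.2 h1) (not_lt.2 h2)
  have hmult : h.num.rootMultiplicity s₀ = 1 := by
    have h1 := he
    rw [hval, plAt_v _ hn0, plAt_v _ hd0, ← exp_sub, exp_inj] at h1
    have h2 : h.num.eval s₀ = 0 := by
      by_contra h3
      have h4 : h.num.rootMultiplicity s₀ = 0 := rootMultiplicity_eq_zero h3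
      omega
    have h5 : h.denom.rootMultiplicity s₀ = 0 := rootMultiplicity_eq_zero (hcop _ h2)
    omega
  have hdeg : h.num.natDegree = 1 := by
    rw [← (IsAlgClosed.splits h.num).natDegree_eq_card_roots.symm]
    have h1 : h.num.roots = Multiset.replicate (Multiset.card h.num.roots) s₀ :=
      Multiset.eq_replicate_card.2 fun s hsr => hroots s ((mem_roots hn0).1 hsr)
    have h2 : Multiset.count s₀ h.num.roots = Multiset.card h.num.roots := by
      conv_lhs => rw [h1]
      rw [Multiset.count_replicate_self]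
    rw [← h2, count_roots, hmult]
  have hdegd : h.denom.natDegree ≤ 1 := by
    have h1 := hother _ hinf
    rw [hval, plInf_v hn0, plInf_v hd0, ← exp_sub, ← exp_zero, exp_le_exp] at h1
    omega
  rw [hEh, ← IntermediateField.finrank_eq_one_iff_eq_top, RatFunc.finrank_eq_max_natDegree, hdeg]
  exact max_eq_left hdegd

end Pool.Agent.Helper68.EG
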