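import Pool.Agent.Helper68.EG.Local

/-!
# EG-12b: the double of `D` has no affine point on the cubic

* `hyp_H`: let `v xD ≤ 1`, `v yD ≤ 1`, `v (bb) < 1` and suppose `v yD = 1`. The place is not `plInf`
  (`v xD = exp (natDegree P - natDegree Q) > 1`), so it is `plAt s`, and `Q(s) ≠ 0` (else `P(s) ≠ 0`
  and `v xD > 1`); so `f(s), U(s) ≠ 0`. `xD³ + a xD + b = W²/Q³` has `v = v (yD² - bb) = 1`, so
  `W(s) ≠ 0`. `v (B/A) = v yD = 1` and `bb = ε W² NJ / (f⁴ U⁶ A²)`, so `v NJ < v A² ≤ 1`,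
  so `NJ (s) = 0`; by `NJ_root` `s ∈ J` (then `W(s) = 0`) or `s = dbl x`, `x ∈ J` (then `Q(s) = 0`,
  `Q_dbl`): contradiction.
* `noAffine`: `rx_TJ`, `ry_TJ`, `valA` and `bb_double`.
-/

set_option autoImplicit false

open Polynomial WithZero

namespace Pool.Agent.Helper68.EG

open Pool.Agent.Helper19.ND

variable {a b : ℂ} {k : ℕ} {J : Finset ℂ} {x₀ : ℂ}

private theorem noAff_ι_ne {p : ℂ[X]} (h : p ≠ 0) : ι p ≠ 0 := by
  intro h0
  exact h ((map_eq_zero_iff _ (RatFunc.algebraMap_injective ℂ)).1 h0)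

private theorem noAff_ι_C (c : ℂ) : ι (C c) = RatFunc.C c := RatFunc.algebraMap_C c

private theorem noAff_v_ne (pl : Place) {x : RatFunc ℂ} (h : x ≠ 0) : pl.v x ≠ 0 :=
  (Valuation.ne_zero_iff _).2 h

theorem hyp_H (hab : 4 * a ^ 3 + 27 * b ^ 2 ≠ 0) (hJ : ∀ x ∈ J, (W a b k).eval x = 0)
    (h₀ : x₀ ∈ J) {pl : Place} (hpl : IsPl pl) (h1 : pl.v (xD a b k J x₀) ≤ 1)
    (h2 : pl.v (yD a b k J x₀) ≤ 1)
    (h3 : pl.v (bb a b (xD a b k J x₀) (yD a b k J x₀)) < 1) :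
    pl.v (yD a b k J x₀) < 1 := by
  have hQv : pl.v (ι (Q a b k)) ≠ 0 := noAff_v_ne pl (noAff_ι_ne (Q_ne_zero a b k))
  rw [xD_eq hab hJ h₀, map_div₀, div_le_one₀ (zero_lt_iff.2 hQv)] at h1
  rcases hpl with rfl | ⟨s, rfl⟩
  · exfalso
    rw [plInf_v (P_monic a b k).ne_zero, plInf_v (Q_ne_zero a b k), natDegree_P] at h1
    have h5 := exp_le_exp.1 h1
    have h6 := natDegree_Q_lt a b k
    omega
  · by_contra hy
    have hy1 : (plAt s).v (yD a b k J x₀) = 1 := le_antisymm h2 (not_lt.1 hy)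
    have hQs : (Q a b k).eval s ≠ 0 := by
      intro hQ
      have hP := (Q_root hab hQ).1
      rw [plAt_eq_one.2 hP] at h1
      exact absurd (plAt_lt_one.2 hQ) (not_lt.2 h1)
    have hQe : (Q a b k).eval s = (fP a b).eval s * (U a b k).eval s ^ 2 := by
      rw [Q, eval_mul, eval_pow]
    have hfs : (fP a b).eval s ≠ 0 := by
      intro h
      rw [hQe, h, zero_mul] at hQs
      exact hQs rfl
    have hUs : (U a b k).eval s ≠ 0 := by
      intro h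
      apply hQs
      rw [hQe, h]
      ring
    -- `W (s) ≠ 0`
    have e1 : yD a b k J x₀ ^ 2 - bb a b (xD a b k J x₀) (yD a b k J x₀) =
        ι (W a b k) ^ 2 / ι (Q a b k) ^ 3 := by
      have hQ0 : ι (Q a b k) ≠ 0 := noAff_ι_ne (Q_ne_zero a b k)
      have h6 : ι (cubF (C a) (C b) (P a b k) (Q a b k)) = ι (W a b k ^ 2) := by
        rw [cub_tow a b k]
      simp only [cubF, map_add, map_mul, map_pow, noAff_ι_C] at h6
      rw [bb, xD_eq hab hJ h₀, ← h6]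
      field_simp
      ring
    have hWs : (W a b k).eval s ≠ 0 := by
      rw [← plAt_eq_one]
      have h7 : (plAt s).v (yD a b k J x₀ ^ 2 - bb a b (xD a b k J x₀) (yD a b k J x₀)) = 1 := by
        have h8 : (plAt s).v (yD a b k J x₀ ^ 2) = 1 := by
          rw [map_pow, hy1, one_pow]
        rw [sub_eq_add_neg, ← h8]
        apply (plAt s).v.map_add_eq_of_lt_left
        rw [Valuation.map_neg, h8]
        exact h3
      rw [e1, map_div₀, map_pow, map_pow, plAt_eq_one.2 hQs, one_pow, div_one] at h7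
      refine le_antisymm (plAt_le_one s _) (not_lt.1 fun h => ?_)
      exact absurd h7 (pow_lt_one₀ zero_le h two_ne_zero).ne
    -- `NJ (s) = 0`
    obtain ⟨ε, hε, hbb⟩ := bb_eq (x₀ := x₀) hab hJ h₀
    have hε0 : ε ≠ 0 := by
      rintro rfl
      norm_num at hε
    have hA0 : (plAt s).v (ι (AJ a b J x₀)) ≠ 0 :=
      noAff_v_ne _ (noAff_ι_ne (AJ_ne_zero hab hJ h₀))
    rw [hbb, map_div₀] at h3
    simp only [map_mul, map_pow] at h3
    rw [plAt_eq_one.2 hfs, plAt_eq_one.2 hUs, plAt_eq_one.2 hWs, noAff_ι_C,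
      (plAt s).const ε hε0, one_pow, one_pow, one_pow, one_mul, one_mul, one_mul,
      div_lt_one₀ (pow_pos (zero_lt_iff.2 hA0) 2)] at h3
    have h9 : (NJ a b J x₀).eval s = 0 :=
      plAt_lt_one.1 (lt_of_lt_of_le h3 (pow_le_one' (plAt_le_one s _) 2))
    rcases NJ_root h₀ h9 with h | ⟨x, hx, rfl⟩
    · exact hWs (hJ s h)
    · exact hQs (Q_dbl hab (hJ x hx))

theorem noAffine (hab : 4 * a ^ 3 + 27 * b ^ 2 ≠ 0) (hJ : ∀ x ∈ J, (W a b k).eval x = 0)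
    (h₀ : x₀ ∈ J) {pl : Place} (hpl : IsPl pl) (h1 : pl.v (rx (TJ a b k J x₀)) ≤ 1)
    (h2 : pl.v (ry (TJ a b k J x₀)) ≤ 1) :
    ¬ pl.v (bb a b (rx (TJ a b k J x₀)) (ry (TJ a b k J x₀))) < 1 := by
  intro h3
  have hy := yD_ne (x₀ := x₀) hab hJ h₀
  rw [rx_TJ hab hJ h₀] at h1
  rw [ry_TJ hab hJ h₀] at h2
  rw [rx_TJ hab hJ h₀, ry_TJ hab hJ h₀, bb_double a b hy] at h3
  exact valA hab pl hy h1 h2 h3 fun h4 h5 => hyp_H hab hJ h₀ hpl h4 h5 h3

end Pool.Agent.Helper68.EG
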