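import Pool.Agent.Helper68.EG.Deg
import Pool.Agent.Helper68.EG.NoAff
import Pool.Agent.Helper68.EG.Comb
import Pool.Agent.Helper68.EG.Fib
import Pool.Agent.Helper68.EG.Lur
import Pool.Agent.Helper68.EG.Birat

/-!
# EG-15: exponentially many rational curves

`S = (W k).roots.toFinset`, `|S| = 6·4^k`, `x₀ ∈ S`. `𝒥` = the subsets `J ∋ x₀` of `S` with
`3·4^k ≤ |J|`: at least `2^(6·4^k - 2)` (for a subset `T` of `S \ {x₀}`, `T` or its complement has at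
least `3·4^k - 1` elements). Every `J ∈ 𝒥` gives a rational curve of degree in `[9·4^k, 92·4^k]` which
meets the cubic in one point (`curve_ok`). Pigeonhole on the degree, then `fibre`:
`2^(6·4^k - 2) ≥ 2^(4·4^k) · 92·4^k · 32·4^k` for `k ≥ 2`.
-/

set_option autoImplicit false

open Polynomial WithZero
open scoped LinearAlgebra.Projectivization

namespace Pool.Agent.Helper68.EG

open Pool.Agent.Helper19.ND

/-- the curve of `J` is a rational curve which meets the cubic in one point -/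
theorem curve_ok {a b : ℂ} {k : ℕ} {J : Finset ℂ} {x₀ : ℂ} (hab : 4 * a ^ 3 + 27 * b ^ 2 ≠ 0)
    (hJ : ∀ x ∈ J, (W a b k).eval x = 0) (h₀ : x₀ ∈ J) :
    IsRationalCurve (fdeg (TJ a b k J x₀)) (curve (TJ a b k J x₀)) ∧
      (∃ P, curve (TJ a b k J x₀) ∩ cubic a b = {P}) ∧ (curve (TJ a b k J x₀)).Infinite := by
  have hT := TJ_ne hab hJ h₀
  obtain ⟨hx, hy⟩ := val_xy hab hJ h₀ h₀
  have h1 : 1 < (plAt x₀).v (rx (TJ a b k J x₀)) := by
    rw [hx, ← WithZero.exp_zero, WithZero.exp_lt_exp]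
    norm_num
  have hw := val_w_self hab hJ h₀
  refine ⟨isRational hT ?_, meet hT (fdeg_pos hT h1) ?_, curve_infinite hT h1⟩
  · refine adjoin_top (w := bb a b (rx (TJ a b k J x₀)) (ry (TJ a b k J x₀))) hx hy ?_ ?_ ?_ ?_ ?_
    · have m1 : rx (TJ a b k J x₀) ∈ IntermediateField.adjoin ℂ {rx (TJ a b k J x₀), ry (TJ a b k J x₀)} :=
        IntermediateField.subset_adjoin _ _ (by simp)
      have m2 : ry (TJ a b k J x₀) ∈ IntermediateField.adjoin ℂ {rx (TJ a b k J x₀), ry (TJ a b k J x₀)} :=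
        IntermediateField.subset_adjoin _ _ (by simp)
      have mc : ∀ c : ℂ, RatFunc.C c ∈
          IntermediateField.adjoin ℂ {rx (TJ a b k J x₀), ry (TJ a b k J x₀)} := fun c =>
        IntermediateField.algebraMap_mem _ c
      rw [bb]
      exact sub_mem (sub_mem (sub_mem (pow_mem m2 2) (pow_mem m1 3)) (mul_mem (mc a) m1)) (mc b)
    · intro h
      rw [h, map_zero] at hw
      exact WithZero.exp_ne_zero hw.symm
    · rw [hw, ← WithZero.exp_zero, WithZero.exp_lt_exp]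
      norm_num
    · intro s hs
      rw [hw]
      exact val_w_ne hab hJ h₀ hs
    · rw [hw]
      exact val_w_inf hab hJ h₀
  · intro pl hpl h1 h2
    exact noAffine hab hJ h₀ hpl h1 h2

/-- for every `k ≥ 2` some degree `d` in `[9·4^k, 92·4^k]` has at least `2^(4·4^k)` curves -/
theorem main {a b : ℂ} (hab : 4 * a ^ 3 + 27 * b ^ 2 ≠ 0) {k : ℕ} (hk : 2 ≤ k) :
    ∃ d : ℕ, 9 * 4 ^ k ≤ d ∧ d ≤ 92 * 4 ^ k ∧ ((2 ^ (4 * 4 ^ k) : ℕ) : ℕ∞) ≤ numCurves a b d := by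
  classical
  have h4 : 1 ≤ 4 ^ k := Nat.one_le_pow _ _ (by norm_num)
  obtain ⟨S, hS⟩ : ∃ S : Finset ℂ, S = (W a b k).roots.toFinset := ⟨_, rfl⟩
  have hSc : S.card = 2 * (3 * 4 ^ k) := by
    rw [hS, card_W hab]
    ring
  have hSr : ∀ x ∈ S, (W a b k).eval x = 0 := by
    intro x hx
    rw [hS, Multiset.mem_toFinset] at hx
    exact (mem_roots'.1 hx).2
  obtain ⟨x₀, h₀⟩ : S.Nonempty := by
    rw [← Finset.card_pos, hSc]
    omega
  obtain ⟨𝒥, h𝒥⟩ : ∃ 𝒥 : Finset (Finset ℂ), 𝒥 = S.powerset.filter fun J => x₀ ∈ J ∧ 3 * 4 ^ k ≤ J.card :=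
    ⟨_, rfl⟩
  have hcard : 2 ^ (6 * 4 ^ k - 2) ≤ 𝒥.card := by
    have := card_big S x₀ h₀ (3 * 4 ^ k) hSc (by omega)
    rw [h𝒥]
    convert this using 2
    omega
  have hprop : ∀ J ∈ 𝒥, (∀ x ∈ J, (W a b k).eval x = 0) ∧ x₀ ∈ J ∧ 3 * 4 ^ k ≤ J.card ∧
      J.card ≤ 6 * 4 ^ k := by
    intro J hJ
    rw [h𝒥, Finset.mem_filter, Finset.mem_powerset] at hJ
    refine ⟨fun x hx => hSr x (hJ.1 hx), hJ.2.1, hJ.2.2, ?_⟩
    have := Finset.card_le_card hJ.1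
    omega
  have hmaps : ∀ J ∈ 𝒥, fdeg (TJ a b k J x₀) ∈ Finset.Icc (9 * 4 ^ k) (92 * 4 ^ k) := by
    intro J hJ
    obtain ⟨p1, p2, p3, p4⟩ := hprop J hJ
    rw [Finset.mem_Icc]
    have := le_fdeg_TJ hab p1 p2
    exact ⟨by omega, fdeg_TJ_le hab p1 p2 (by omega) p4⟩
  have hIcc : (Finset.Icc (9 * 4 ^ k) (92 * 4 ^ k)).card ≤ 92 * 4 ^ k := by
    rw [Nat.card_Icc]
    omega
  obtain ⟨d, hd, hfib⟩ := Finset.exists_le_card_fiber_of_mul_le_card_of_maps_to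
    (n := 2 ^ (4 * 4 ^ k) * (32 * 4 ^ k)) hmaps ⟨9 * 4 ^ k, Finset.mem_Icc.2 ⟨le_rfl, by omega⟩⟩ (by
      calc (Finset.Icc (9 * 4 ^ k) (92 * 4 ^ k)).card * (2 ^ (4 * 4 ^ k) * (32 * 4 ^ k))
          ≤ (92 * 4 ^ k) * (2 ^ (4 * 4 ^ k) * (32 * 4 ^ k)) := Nat.mul_le_mul_right _ hIcc
        _ = 2 ^ (4 * 4 ^ k) * (92 * 4 ^ k) * (32 * 4 ^ k) := by ring
        _ ≤ 2 ^ (6 * 4 ^ k - 2) := ineq k hk
        _ ≤ 𝒥.card := hcard)
  rw [Finset.mem_Icc] at hd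
  refine ⟨d, hd.1, hd.2, ?_⟩
  have himg : (𝒥.filter fun J => fdeg (TJ a b k J x₀) = d).card ≤ 32 * 4 ^ k *
      ((𝒥.filter fun J => fdeg (TJ a b k J x₀) = d).image fun J => curve (TJ a b k J x₀)).card := by
    refine Finset.card_le_mul_card_image _ _ ?_
    intro K hK
    obtain ⟨J₁, hJ₁, hJK⟩ := Finset.mem_image.1 hK
    have p := hprop J₁ (Finset.mem_filter.1 hJ₁).1
    refine fibre (x₀ := x₀) hab _ ?_ K ?_ ?_
    · intro J hJ
      have q := hprop J (Finset.mem_filter.1 (Finset.mem_filter.1 hJ).1).1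
      exact ⟨q.1, q.2.1⟩
    · intro J hJ
      exact (Finset.mem_filter.1 hJ).2
    · rw [← hJK]
      exact (curve_ok hab p.1 p.2.1).2.2
  have h2 : 2 ^ (4 * 4 ^ k) ≤
      ((𝒥.filter fun J => fdeg (TJ a b k J x₀) = d).image fun J => curve (TJ a b k J x₀)).card := by
    have h3 := hfib.trans himg
    rw [mul_comm (2 ^ (4 * 4 ^ k))] at h3
    exact Nat.le_of_mul_le_mul_left h3 (by omega)
  calc ((2 ^ (4 * 4 ^ k) : ℕ) : ℕ∞)
      ≤ ((((𝒥.filter fun J => fdeg (TJ a b k J x₀) = d).image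
          fun J => curve (TJ a b k J x₀)).card : ℕ) : ℕ∞) := by exact_mod_cast h2
    _ = (((𝒥.filter fun J => fdeg (TJ a b k J x₀) = d).image
          fun J => curve (TJ a b k J x₀) : Finset _) : Set (Set (ℙ ℂ (Fin 3 → ℂ)))).encard :=
        (Set.encard_coe_eq_coe_finsetCard _).symm
    _ ≤ numCurves a b d := by
        refine Set.encard_le_encard ?_
        intro K hK
        rw [Finset.mem_coe, Finset.mem_image] at hK
        obtain ⟨J, hJ, rfl⟩ := hK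
        obtain ⟨hJ1, hJ2⟩ := Finset.mem_filter.1 hJ
        have p := hprop J hJ1
        have c := curve_ok hab p.1 p.2.1
        rw [← hJ2]
        exact ⟨c.1, c.2.1⟩

/-- for every `n ≥ 36` some degree `d` in `[n, 41 n]` has at least `2^(d/23)` curves -/
theorem main' {a b : ℂ} (hab : 4 * a ^ 3 + 27 * b ^ 2 ≠ 0) {n : ℕ} (hn : 36 ≤ n) :
    ∃ d : ℕ, n ≤ d ∧ d ≤ 41 * n ∧ ((2 ^ (d / 23) : ℕ) : ℕ∞) ≤ numCurves a b d := by
  obtain ⟨m, hm⟩ : ∃ m : ℕ, m = Nat.log 4 (n / 9) := ⟨_, rfl⟩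
  have h1 : 4 ^ m ≤ n / 9 := by
    rw [hm]
    exact Nat.pow_log_le_self 4 (by omega)
  have h2 : n / 9 < 4 ^ (m + 1) := by
    rw [hm]
    exact Nat.lt_pow_succ_log_self (by norm_num) _
  have hm1 : 1 ≤ m := by
    rw [hm]
    refine Nat.le_log_of_pow_le (by norm_num) ?_
    omega
  obtain ⟨d, hd1, hd2, hd3⟩ := main hab (k := m + 1) (by omega)
  rw [pow_succ] at hd1 hd2 hd3 h2
  refine ⟨d, by omega, by omega, le_trans ?_ hd3⟩
  have h5 : d / 23 ≤ 4 * (4 ^ m * 4) := by omega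
  exact_mod_cast Nat.pow_le_pow_right (by norm_num) h5

end Pool.Agent.Helper68.EG
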