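import Pool.Agent.Helper68.EG.Defs

/-!
# EG-07: the places of `ℂ(t)`

`plAt s`: the valuation of the prime `X - s`
(`IsDedekindDomain.HeightOneSpectrum.valuation`); `plInf`: `FunctionField.inftyValuation`.
-/

set_option autoImplicit false

open Polynomial WithZero

namespace Pool.Agent.Helper68.EG

private noncomputable def hosAt (s : ℂ) : IsDedekindDomain.HeightOneSpectrum ℂ[X] where
  asIdeal := Ideal.span {X - C s}
  isPrime := by
    rw [Ideal.span_singleton_prime (X_sub_C_ne_zero s)]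
    exact prime_X_sub_C s
  ne_bot := by
    rw [Ne, Ideal.span_singleton_eq_bot]
    exact X_sub_C_ne_zero s

private theorem mem_hosAt (s : ℂ) (p : ℂ[X]) : p ∈ (hosAt s).asIdeal ↔ p.eval s = 0 := by
  change p ∈ Ideal.span {X - C s} ↔ _
  rw [Ideal.mem_span_singleton, dvd_iff_isRoot]
  rfl

private theorem hosAt_val (s : ℂ) {p : ℂ[X]} (hp : p ≠ 0) :
    (hosAt s).valuation (RatFunc ℂ) (ι p) = exp (-(p.rootMultiplicity s : ℤ)) := by
  obtain ⟨g, hg, hgd⟩ := exists_eq_pow_rootMultiplicity_mul_and_not_dvd p hp s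
  have h1 : (hosAt s).valuation (RatFunc ℂ) (ι (X - C s)) = exp (-1 : ℤ) := by
    rw [IsDedekindDomain.HeightOneSpectrum.valuation_of_algebraMap]
    exact (hosAt s).intValuation_singleton (X_sub_C_ne_zero s) rfl
  have h2 : (hosAt s).valuation (RatFunc ℂ) (ι g) = 1 := by
    rw [IsDedekindDomain.HeightOneSpectrum.valuation_eq_one_iff_notMem, mem_hosAt]
    rw [dvd_iff_isRoot] at hgd
    exact hgd
  have h3 : (hosAt s).valuation (RatFunc ℂ) (ι p) = (exp (-1 : ℤ)) ^ p.rootMultiplicity s := by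
    conv_lhs => rw [hg]
    rw [map_mul, map_pow, map_mul, map_pow, h1, h2, mul_one]
  rw [h3, ← exp_nsmul]
  congr 1
  simp

/-- all facts about the place `t = s` used below -/
theorem exists_plAt (s : ℂ) : ∃ pl : Place, ∀ p : ℂ[X], p ≠ 0 →
    pl.v (ι p) = exp (-(p.rootMultiplicity s : ℤ)) := by
  refine ⟨⟨(hosAt s).valuation (RatFunc ℂ), ?_⟩, fun p hp => hosAt_val s hp⟩
  intro c hc
  have h := hosAt_val s (p := C c) (C_ne_zero.mpr hc)
  rw [rootMultiplicity_C] at h
  have h2 : (ι (C c) : RatFunc ℂ) = RatFunc.C c := RatFunc.algebraMap_C c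
  rw [← h2, h]
  simp

/-- all facts about the place `t = ∞` used below -/
theorem exists_plInf : ∃ pl : Place, ∀ p : ℂ[X], p ≠ 0 → pl.v (ι p) = exp (p.natDegree : ℤ) := by
  classical
  refine ⟨⟨RatFunc.inftyValuation ℂ, fun c hc => RatFunc.inftyValuation.C ℂ hc⟩, fun p hp => ?_⟩
  exact RatFunc.inftyValuation.polynomial ℂ hp

/-- the place `t = s` -/
noncomputable def plAt (s : ℂ) : Place := (exists_plAt s).choose

/-- the place `t = ∞` -/
noncomputable def plInf : Place := exists_plInf.choose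

theorem plAt_v (s : ℂ) {p : ℂ[X]} (hp : p ≠ 0) :
    (plAt s).v (ι p) = exp (-(p.rootMultiplicity s : ℤ)) := (exists_plAt s).choose_spec p hp

theorem plInf_v {p : ℂ[X]} (hp : p ≠ 0) : plInf.v (ι p) = exp (p.natDegree : ℤ) :=
  exists_plInf.choose_spec p hp

theorem plAt_le_one (s : ℂ) (p : ℂ[X]) : (plAt s).v (ι p) ≤ 1 := by
  by_cases hp : p = 0
  · rw [hp, map_zero, map_zero]
    exact zero_le_one
  · rw [plAt_v s hp, ← exp_zero, exp_le_exp]
    omega

theorem plAt_lt_one {s : ℂ} {p : ℂ[X]} : (plAt s).v (ι p) < 1 ↔ p.eval s = 0 := by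
  by_cases hp : p = 0
  · rw [hp, map_zero, map_zero, eval_zero]
    simp
  · rw [plAt_v s hp, ← exp_zero, exp_lt_exp]
    have h := rootMultiplicity_pos (p := p) (x := s) hp
    rw [IsRoot.def] at h
    rw [← h]
    omega

theorem plAt_eq_one {s : ℂ} {p : ℂ[X]} : (plAt s).v (ι p) = 1 ↔ p.eval s ≠ 0 := by
  rw [Ne, ← plAt_lt_one, not_lt]
  exact ⟨fun h => h.ge, fun h => le_antisymm (plAt_le_one s p) h⟩

end Pool.Agent.Helper68.EG
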