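import Pool.Agent.Helper68.EG.Img
import Pool.Agent.Helper68.EG.Places

/-!
# EG-09: the curve meets the cubic only at the flex `(0 : 1 : 0)`

Let `(φ 0, φ 1, φ 2) = form T`, `n = fdeg T`, `cub a b φ = φ 0³ + a φ 0 φ 2² + b φ 2³ - φ 1² φ 2`; then
`bb a b (rx T) (ry T) = - cub φ / φ 2³`. At a parameter `t` with `φ 2 (t) ≠ 0` and `cub (φ (t)) = 0` the
place `plAt t` contradicts the hypothesis. If `φ 2 (t) = 0`, then `cub (φ(t)) = φ 0 (t)³`, so the point
is on the cubic only if it is `(0 : 1 : 0)`. The same at infinity (coefficients of degree `n`; if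
`φ 2` has degree `n` and the coefficient of degree `3n` of `cub φ` vanishes, the place is `plInf`).
Nonempty: if `cub φ (t) ≠ 0` for all `t` then `cub φ` is a nonzero constant and its coefficient of
degree `3n ≥ 3` vanishes, so the point at infinity is on the cubic.
-/

set_option autoImplicit false

open Polynomial WithZero
open scoped LinearAlgebra.Projectivization

namespace Pool.Agent.Helper68.EG

open Pool.Agent.Helper19.ND

private theorem meet_cub_smul (a b c : ℂ) (v : Fin 3 → ℂ) :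
    cub a b (c • v) = c ^ 3 * cub a b v := by
  simp only [cub, Pi.smul_apply, smul_eq_mul]
  ring

private theorem meet_rep {a b : ℂ} {v : Fin 3 → ℂ} (hv : v ≠ 0) :
    cub a b (Projectivization.mk ℂ v hv).rep = 0 ↔ cub a b v = 0 := by
  obtain ⟨c, hc⟩ := Projectivization.exists_smul_eq_mk_rep ℂ v hv
  rw [← hc]
  have h1 : c • v = (c : ℂ) • v := rfl
  rw [h1, meet_cub_smul]
  constructor
  · intro h
    rcases mul_eq_zero.1 h with h2 | h2
    · exact absurd (pow_eq_zero_iff (by norm_num) |>.1 h2) c.ne_zero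
    · exact h2
  · intro h
    rw [h, mul_zero]

/-- the cubic form on the curve -/
private noncomputable def meetF (a b : ℂ) (φ : Fin 3 → ℂ[X]) : ℂ[X] :=
  φ 0 ^ 3 + C a * φ 0 * φ 2 ^ 2 + C b * φ 2 ^ 3 - φ 1 ^ 2 * φ 2

private theorem meetF_eval (a b : ℂ) (φ : Fin 3 → ℂ[X]) (t : ℂ) :
    (meetF a b φ).eval t = cub a b (fun i => (φ i).eval t) := by
  simp [meetF, cub]

private theorem meetF_deg (a b : ℂ) (φ : Fin 3 → ℂ[X]) {n : ℕ} (h : ∀ i, (φ i).natDegree ≤ n) :
    (meetF a b φ).natDegree ≤ 3 * n := by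
  have h0 := h 0
  have h1 := h 1
  have h2 := h 2
  unfold meetF
  refine (natDegree_sub_le _ _).trans (max_le ?_ ?_)
  · refine natDegree_add_le_of_degree_le (natDegree_add_le_of_degree_le ?_ ?_) ?_
    · exact natDegree_pow_le.trans (Nat.mul_le_mul_left 3 h0)
    · refine natDegree_mul_le.trans ?_
      have h3 := natDegree_C_mul_le a (φ 0)
      have h4 : (φ 2 ^ 2).natDegree ≤ 2 * n := natDegree_pow_le.trans (Nat.mul_le_mul_left 2 h2)
      omega
    · exact (natDegree_C_mul_le b _).trans (natDegree_pow_le.trans (Nat.mul_le_mul_left 3 h2))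
  · refine natDegree_mul_le.trans ?_
    have h4 : (φ 1 ^ 2).natDegree ≤ 2 * n := natDegree_pow_le.trans (Nat.mul_le_mul_left 2 h1)
    omega

private theorem meetF_coeff (a b : ℂ) (φ : Fin 3 → ℂ[X]) {n : ℕ}
    (h : ∀ i, (φ i).natDegree ≤ n) :
    (meetF a b φ).coeff (3 * n) = cub a b (fun i => (φ i).coeff n) := by
  have h0 := h 0
  have h1 := h 1
  have h2 := h 2
  have e1 : (φ 0 ^ 3).coeff (3 * n) = (φ 0).coeff n ^ 3 := coeff_pow_of_natDegree_le h0
  have e2 : (φ 2 ^ 3).coeff (3 * n) = (φ 2).coeff n ^ 3 := coeff_pow_of_natDegree_le h2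
  have e3 : (φ 2 ^ 2).coeff (2 * n) = (φ 2).coeff n ^ 2 := coeff_pow_of_natDegree_le h2
  have e4 : (φ 1 ^ 2).coeff (2 * n) = (φ 1).coeff n ^ 2 := coeff_pow_of_natDegree_le h1
  have d3 : (φ 2 ^ 2).natDegree ≤ 2 * n := natDegree_pow_le.trans (Nat.mul_le_mul_left 2 h2)
  have d4 : (φ 1 ^ 2).natDegree ≤ 2 * n := natDegree_pow_le.trans (Nat.mul_le_mul_left 2 h1)
  have e5 : (φ 0 * φ 2 ^ 2).coeff (3 * n) = (φ 0).coeff n * (φ 2).coeff n ^ 2 := by
    have := coeff_mul_add_eq_of_natDegree_le h0 d3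
    rw [e3] at this
    rw [← this]
    congr 1
    ring
  have e6 : (φ 1 ^ 2 * φ 2).coeff (3 * n) = (φ 1).coeff n ^ 2 * (φ 2).coeff n := by
    have := coeff_mul_add_eq_of_natDegree_le d4 h2
    rw [e4] at this
    rw [← this]
    congr 1
    ring
  unfold meetF cub
  rw [coeff_sub, coeff_add, coeff_add, mul_assoc, coeff_C_mul, coeff_C_mul, e1, e2, e5, e6]
  ring

private theorem meet_bb {a b : ℂ} {T : Fin 3 → ℂ[X]} (hT : T 2 ≠ 0) :
    bb a b (rx T) (ry T) = -(ι (meetF a b (form T)) / ι (form T 2) ^ 3) := by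
  have hne : ι (form T 2) ≠ 0 := by
    intro h0
    exact form_two_ne hT ((map_eq_zero_iff _ (IsFractionRing.injective ℂ[X] (RatFunc ℂ))).1 h0)
  have hC : ∀ c : ℂ, ι (C c) = RatFunc.C c := fun c => RatFunc.algebraMap_C c
  rw [rx_form hT, ry_form hT, bb, meetF]
  rw [map_sub, map_add, map_add, map_mul, map_mul, map_mul, map_mul, map_pow, map_pow, map_pow,
    map_pow, hC, hC]
  field_simp
  ring

private theorem meet_key {a b : ℂ} {T : Fin 3 → ℂ[X]} (hT : T 2 ≠ 0) {pl : Place}
    (h : pl.v (rx T) ≤ 1 → pl.v (ry T) ≤ 1 → ¬ pl.v (bb a b (rx T) (ry T)) < 1)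
    (h0 : pl.v (ι (form T 0)) ≤ pl.v (ι (form T 2)))
    (h1 : pl.v (ι (form T 1)) ≤ pl.v (ι (form T 2)))
    (hF : pl.v (ι (meetF a b (form T))) < pl.v (ι (form T 2)) ^ 3) : False := by
  have hne : ι (form T 2) ≠ 0 := by
    intro h0
    exact form_two_ne hT ((map_eq_zero_iff _ (IsFractionRing.injective ℂ[X] (RatFunc ℂ))).1 h0)
  have hpos : 0 < pl.v (ι (form T 2)) := zero_lt_iff.2 ((Valuation.ne_zero_iff _).2 hne)
  refine h ?_ ?_ ?_
  · rw [rx_form hT, map_div₀]
    exact div_le_one_of_le₀ h0 hpos.le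
  · rw [ry_form hT, map_div₀]
    exact div_le_one_of_le₀ h1 hpos.le
  · rw [meet_bb hT, Valuation.map_neg, map_div₀, map_pow]
    exact (div_lt_one₀ (pow_pos hpos 3)).2 hF

/-- the places `t = s` and `t = ∞` -/
def IsPl (pl : Place) : Prop := pl = plInf ∨ ∃ s : ℂ, pl = plAt s

theorem meet {a b : ℂ} {T : Fin 3 → ℂ[X]} (hT : T 2 ≠ 0) (hd : 1 ≤ fdeg T)
    (h : ∀ pl : Place, IsPl pl → pl.v (rx T) ≤ 1 → pl.v (ry T) ≤ 1 →
      ¬ pl.v (bb a b (rx T) (ry T)) < 1) :
    ∃ P, curve T ∩ cubic a b = {P} := by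
  classical
  have hdeg := fun i => natDegree_form_le (T := T) i
  have hne2 := form_two_ne hT
  -- finite points
  have hA : ∀ s : ℂ, cub a b (fun i => (form T i).eval s) = 0 →
      (form T 2).eval s = 0 ∧ (form T 0).eval s = 0 := by
    intro s hs
    have h2 : (form T 2).eval s = 0 := by
      by_contra h2
      have hv2 : (plAt s).v (ι (form T 2)) = 1 := plAt_eq_one.2 h2
      refine meet_key hT (pl := plAt s) (a := a) (b := b) (h _ (Or.inr ⟨s, rfl⟩)) ?_ ?_ ?_
      · rw [hv2]; exact plAt_le_one s _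
      · rw [hv2]; exact plAt_le_one s _
      · rw [hv2, one_pow, plAt_lt_one, meetF_eval]
        exact hs
    refine ⟨h2, ?_⟩
    have h3 : (form T 0).eval s ^ 3 = 0 := by
      have : cub a b (fun i => (form T i).eval s) = (form T 0).eval s ^ 3 := by
        simp only [cub, h2]
        ring
      rw [← this]
      exact hs
    exact pow_eq_zero_iff (by norm_num) |>.1 h3
  -- the point at infinity
  have hB : cub a b (fun i => (form T i).coeff (fdeg T)) = 0 →
      (form T 2).coeff (fdeg T) = 0 ∧ (form T 0).coeff (fdeg T) = 0 := by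
    intro hs
    have h2 : (form T 2).coeff (fdeg T) = 0 := by
      by_contra h2
      have hd2 : (form T 2).natDegree = fdeg T :=
        le_antisymm (hdeg 2) (le_natDegree_of_ne_zero h2)
      have hv2 : plInf.v (ι (form T 2)) = exp ((fdeg T : ℕ) : ℤ) := by
        rw [plInf_v hne2, hd2]
      have hle : ∀ i, plInf.v (ι (form T i)) ≤ plInf.v (ι (form T 2)) := by
        intro i
        by_cases hi : form T i = 0
        · rw [hi, map_zero, map_zero]; exact zero_le
        · rw [hv2, plInf_v hi, exp_le_exp]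
          exact_mod_cast hdeg i
      refine meet_key hT (pl := plInf) (a := a) (b := b) (h _ (Or.inl rfl)) (hle 0) (hle 1) ?_
      by_cases hF : meetF a b (form T) = 0
      · rw [hF, map_zero, map_zero, hv2]
        exact pow_pos (exp_pos) 3
      · have hlt : (meetF a b (form T)).natDegree < 3 * fdeg T := by
          refine lt_of_le_of_ne (meetF_deg a b _ hdeg) fun he => hF ?_
          have h3 := meetF_coeff a b (form T) hdeg
          rw [hs, ← he, coeff_natDegree, leadingCoeff_eq_zero] at h3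
          exact h3
        rw [hv2, plInf_v hF, ← exp_nsmul, exp_lt_exp]
        simp only [nsmul_eq_mul]
        exact_mod_cast hlt
    refine ⟨h2, ?_⟩
    have h3 : (form T 0).coeff (fdeg T) ^ 3 = 0 := by
      have : cub a b (fun i => (form T i).coeff (fdeg T)) = (form T 0).coeff (fdeg T) ^ 3 := by
        simp only [cub, h2]
        ring
      rw [← this]
      exact hs
    exact pow_eq_zero_iff (by norm_num) |>.1 h3
  -- the flex
  have hO : (![0, 1, 0] : Fin 3 → ℂ) ≠ 0 := by
    intro h0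
    have := congrFun h0 1
    simp at this
  have huniq : ∀ (v : Fin 3 → ℂ) (hv : v ≠ 0), v 0 = 0 → v 2 = 0 →
      Projectivization.mk ℂ v hv = Projectivization.mk ℂ (![0, 1, 0] : Fin 3 → ℂ) hO := by
    intro v hv h0 h2
    have h1 : v 1 ≠ 0 := by
      intro h1
      apply hv
      funext i
      fin_cases i
      · exact h0
      · exact h1
      · exact h2
    rw [Projectivization.mk_eq_mk_iff']
    refine ⟨v 1, ?_⟩
    funext i
    fin_cases i
    · simp [h0]
    · simp
    · simp [h2]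
  have hsub : ∀ Q ∈ curve T ∩ cubic a b,
      Q = Projectivization.mk ℂ (![0, 1, 0] : Fin 3 → ℂ) hO := by
    rintro Q ⟨⟨v, hv, rfl, hcase⟩, hc⟩
    have hc' : cub a b v = 0 := (meet_rep hv).1 hc
    rcases hcase with ⟨t, rfl⟩ | rfl
    · obtain ⟨h2, h0⟩ := hA t hc'
      exact huniq _ hv h0 h2
    · obtain ⟨h2, h0⟩ := hB hc'
      exact huniq _ hv h0 h2
  have hex : ∃ Q, Q ∈ curve T ∩ cubic a b := by
    by_cases hroot : ∃ s : ℂ, (meetF a b (form T)).eval s = 0
    · obtain ⟨s, hs⟩ := hroot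
      rw [meetF_eval] at hs
      exact ⟨Projectivization.mk ℂ _ (form_eval_ne hT s), ⟨_, form_eval_ne hT s, rfl,
        Or.inl ⟨s, rfl⟩⟩, (meet_rep _).2 hs⟩
    · have hd0 : (meetF a b (form T)).degree ≤ 0 := by
        by_contra hcon
        push Not at hcon
        obtain ⟨s, hs⟩ := IsAlgClosed.exists_root (meetF a b (form T)) hcon.ne'
        exact hroot ⟨s, hs⟩
      have hn0 : (meetF a b (form T)).natDegree = 0 := natDegree_eq_zero_iff_degree_le_zero.2 hd0
      have h3 := meetF_coeff a b (form T) hdeg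
      rw [coeff_eq_zero_of_natDegree_lt (by rw [hn0]; omega)] at h3
      exact ⟨Projectivization.mk ℂ _ (form_coeff_ne hT), ⟨_, form_coeff_ne hT, rfl, Or.inr rfl⟩,
        (meet_rep _).2 h3.symm⟩
  obtain ⟨Q, hQ⟩ := hex
  refine ⟨Projectivization.mk ℂ (![0, 1, 0] : Fin 3 → ℂ) hO, ?_⟩
  ext R
  rw [Set.mem_singleton_iff]
  constructor
  · exact hsub R
  · rintro rfl
    rw [← hsub Q hQ]
    exact hQ

end Pool.Agent.Helper68.EG
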