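import Pool.Agent.Helper68.EG.Tang
import Pool.Agent.Helper68.EG.Iter

/-!
# EG-05: the products `hJ = BJ + AJ Y`

`J` is a finite set of roots of `W k` and `x₀ ∈ J`.
* `norm_hJ`: multiplicativity of the norm and `norm_ell`; the sign is `(-1)^(|J| + 1)`.
* `ev_hJ_neg`: all factors are nonzero at `(x, - yy x)`: for `x' ≠ x` in `J` use `ev_ell_ne`
  (`x ≠ dbl x'` because `W (x) = 0 ≠ W (dbl x')`), for `x' = x` use `ev_ell_neg`.
  At `(x, yy x)` the factor `x' = x` vanishes. Hence `AJ (x) ≠ 0`, `BJ (x) = - AJ (x) yy x`.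
* `AB_inj`: if `x ∈ J \ J'` then `BJ (x) = - AJ (x) yy x`, `AJ (x) ≠ 0`, so the equation gives
  `BJ' (x) = - AJ' (x) yy x`, i.e. `ev x (yy x) (hJ') = 0`, against `ev_hJ_out`.
-/

set_option autoImplicit false

open Polynomial

namespace Pool.Agent.Helper68.EG

open Pool.Agent.Helper19.ND

variable {a b : ℂ} {k : ℕ} {J J' : Finset ℂ} {x₀ : ℂ}

private theorem norm_aux_ev {x y : ℂ} (h : y ^ 2 = (fP a b).eval x) (J : Finset ℂ) (x₀ : ℂ) :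
    (BJ a b J x₀).eval x + (AJ a b J x₀).eval x * y =
      (∏ i ∈ J, ev x y (ell a b i)) * ev x y (ell a b x₀) := by
  have h1 : ev x y (hJ a b J x₀) = (∏ i ∈ J, ev x y (ell a b i)) * ev x y (ell a b x₀) := by
    rw [hJ, ev_mul h, ev_prod h]
  exact h1

theorem norm_hJ (hJ : ∀ x ∈ J, (fP a b).eval x ≠ 0) (h₀ : x₀ ∈ J) :
    ∃ ε : ℂ, ε ^ 2 = 1 ∧ BJ a b J x₀ ^ 2 - fP a b * AJ a b J x₀ ^ 2 = C ε * NJ a b J x₀ := by
  refine ⟨(-1) ^ (J.card + 1), ?_, ?_⟩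
  · rw [← pow_mul, mul_comm, pow_mul]
    norm_num
  · have h1 : BJ a b J x₀ ^ 2 - fP a b * AJ a b J x₀ ^ 2 =
        QuadraticAlgebra.norm (EG.hJ a b J x₀) := by
      rw [QuadraticAlgebra.norm_def, BJ, AJ]
      ring
    rw [h1, EG.hJ, map_mul, map_prod, norm_ell (hJ x₀ h₀),
      Finset.prod_congr rfl (fun x hx => norm_ell (hJ x hx)), Finset.prod_neg, NJ]
    simp only [map_pow, map_neg, map_one]
    ring

theorem AJ_eval_ne (hab : 4 * a ^ 3 + 27 * b ^ 2 ≠ 0) (hJ : ∀ x ∈ J, (W a b k).eval x = 0)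
    (h₀ : x₀ ∈ J) {x : ℂ} (hx : x ∈ J) : (AJ a b J x₀).eval x ≠ 0 := by
  intro h0
  have e1 := norm_aux_ev (yy_sq a b x) J x₀
  rw [Finset.prod_eq_zero hx (ev_ell_self x), zero_mul, h0, zero_mul, add_zero] at e1
  have hy : (-yy a b x) ^ 2 = (fP a b).eval x := by rw [neg_sq, yy_sq]
  have e2 := norm_aux_ev hy J x₀
  rw [h0, zero_mul, add_zero, e1] at e2
  have key : ∀ i ∈ J, ev x (-yy a b x) (ell a b i) ≠ 0 := by
    intro i hi
    by_cases hix : x = i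
    · subst hix
      exact ev_ell_neg (W_root hab (hJ x hx)).1
    · refine ev_ell_ne (W_root hab (hJ i hi)).1 hy hix fun h => ?_
      have := W_dbl hab (hJ i hi)
      rw [← h] at this
      exact this (hJ x hx)
  exact mul_ne_zero (Finset.prod_ne_zero_iff.2 key) (key x₀ h₀) e2.symm

theorem BJ_eval (hx₀ : x₀ ∈ J) {x : ℂ} (hx : x ∈ J) :
    (BJ a b J x₀).eval x = -((AJ a b J x₀).eval x * yy a b x) := by
  have e1 := norm_aux_ev (yy_sq a b x) J x₀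
  rw [Finset.prod_eq_zero hx (ev_ell_self x), zero_mul] at e1
  exact eq_neg_of_add_eq_zero_left e1

theorem ev_hJ_out (hab : 4 * a ^ 3 + 27 * b ^ 2 ≠ 0) (hJ : ∀ x ∈ J, (W a b k).eval x = 0)
    (h₀ : x₀ ∈ J) {x y : ℂ} (hx : (W a b k).eval x = 0) (hxJ : x ∉ J)
    (hy : y ^ 2 = (fP a b).eval x) : (BJ a b J x₀).eval x + (AJ a b J x₀).eval x * y ≠ 0 := by
  rw [norm_aux_ev hy J x₀]
  have key : ∀ i ∈ J, ev x y (ell a b i) ≠ 0 := by
    intro i hi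
    refine ev_ell_ne (W_root hab (hJ i hi)).1 hy (fun h => hxJ (by rw [h]; exact hi)) fun h => ?_
    have := W_dbl hab (hJ i hi)
    rw [← h] at this
    exact this hx
  exact mul_ne_zero (Finset.prod_ne_zero_iff.2 key) (key x₀ h₀)

private theorem norm_aux_sub (hab : 4 * a ^ 3 + 27 * b ^ 2 ≠ 0)
    (hJ : ∀ x ∈ J, (W a b k).eval x = 0) (hJ' : ∀ x ∈ J', (W a b k).eval x = 0) (h₀ : x₀ ∈ J)
    (h₀' : x₀ ∈ J') (h : BJ a b J x₀ * AJ a b J' x₀ = BJ a b J' x₀ * AJ a b J x₀) : J ⊆ J' := by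
  intro x hx
  by_contra hx'
  have h1 := congrArg (eval x) h
  rw [eval_mul, eval_mul, BJ_eval h₀ hx] at h1
  have h2 := AJ_eval_ne hab hJ h₀ hx
  refine ev_hJ_out hab hJ' h₀' (hJ x hx) hx' (yy_sq a b x) (mul_left_cancel₀ h2 ?_)
  rw [mul_zero]
  linear_combination -h1

theorem AB_inj (hab : 4 * a ^ 3 + 27 * b ^ 2 ≠ 0) (hJ : ∀ x ∈ J, (W a b k).eval x = 0)
    (hJ' : ∀ x ∈ J', (W a b k).eval x = 0) (h₀ : x₀ ∈ J) (h₀' : x₀ ∈ J')
    (h : BJ a b J x₀ * AJ a b J' x₀ = BJ a b J' x₀ * AJ a b J x₀) : J = J' :=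
  Finset.Subset.antisymm (norm_aux_sub hab hJ hJ' h₀ h₀' h)
    (norm_aux_sub hab hJ' hJ h₀' h₀ h.symm)

theorem AJ_ne_zero (hab : 4 * a ^ 3 + 27 * b ^ 2 ≠ 0) (hJ : ∀ x ∈ J, (W a b k).eval x = 0)
    (h₀ : x₀ ∈ J) : AJ a b J x₀ ≠ 0 := by
  intro h
  have := AJ_eval_ne hab hJ h₀ h₀
  rw [h, eval_zero] at this
  exact this rfl

theorem BJ_ne_zero (hab : 4 * a ^ 3 + 27 * b ^ 2 ≠ 0) (hJ : ∀ x ∈ J, (W a b k).eval x = 0)
    (h₀ : x₀ ∈ J) : BJ a b J x₀ ≠ 0 := by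
  intro h
  have h1 := BJ_eval (a := a) (b := b) h₀ h₀
  rw [h, eval_zero] at h1
  exact mul_ne_zero (AJ_eval_ne hab hJ h₀ h₀) (yy_ne (W_root hab (hJ x₀ h₀)).1)
    (neg_eq_zero.1 h1.symm)

end Pool.Agent.Helper68.EG
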