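import Pool.Agent.Helper68.EG.Defs

/-!
# EG-04: the tangents

`norm ⟨-L, 1⟩ = L² - f`; with `λ = (3x² + a)/(2y)`, `y² = f(x)`, `L = y + λ (X - x)`:
`f - L² = (X - x)² (X - (λ² - 2x))` and `λ² - 2x = dbl x` since
`(3x² + a)² - 8 x f(x) = (x² - a)² - 8 b x`.
-/

set_option autoImplicit false

open Polynomial

namespace Pool.Agent.Helper68.EG

open Pool.Agent.Helper19.ND

variable {a b : ℂ}

theorem yy_ne {x : ℂ} (h : (fP a b).eval x ≠ 0) : yy a b x ≠ 0 := by
  intro h0
  apply h
  rw [← yy_sq, h0]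
  norm_num

theorem norm_ell {x : ℂ} (h : (fP a b).eval x ≠ 0) :
    QuadraticAlgebra.norm (ell a b x) = -((X - C x) ^ 2 * (X - C (dbl a b x))) := by
  set y := yy a b x with hy
  have hy0 : y ≠ 0 := yy_ne h
  have hsq : y ^ 2 = (fP a b).eval x := yy_sq a b x
  have hfx : (fP a b).eval x = x ^ 3 + a * x + b := by simp [fP]
  set lam := (3 * x ^ 2 + a) / (2 * y) with hlam
  have e1 : (C y : ℂ[X]) ^ 2 = C x ^ 3 + C a * C x + C b := by
    rw [← map_pow, hsq, hfx]; simp
  have e2 : (C lam : ℂ[X]) * (2 * C y) = 3 * C x ^ 2 + C a := by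
    have : lam * (2 * y) = 3 * x ^ 2 + a := by rw [hlam]; field_simp
    calc (C lam : ℂ[X]) * (2 * C y) = C (lam * (2 * y)) := by
          simp only [map_mul, map_ofNat]
      _ = 3 * C x ^ 2 + C a := by rw [this]; simp only [map_add, map_mul, map_pow, map_ofNat]
  have hd : dbl a b x = lam ^ 2 - 2 * x := by
    have hlam2 : lam ^ 2 = (3 * x ^ 2 + a) ^ 2 / (4 * (fP a b).eval x) := by
      rw [hlam, div_pow, mul_pow, hsq]; norm_num
    rw [hlam2, dbl, numF]
    have h4 : (4 : ℂ) * (fP a b).eval x ≠ 0 := mul_ne_zero (by norm_num) h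
    rw [div_sub' h4, div_left_inj' h4, hfx]
    ring
  have e3 : (C (dbl a b x) : ℂ[X]) = C lam ^ 2 - 2 * C x := by
    rw [hd]; simp only [map_sub, map_mul, map_pow, map_ofNat]
  have hn : QuadraticAlgebra.norm (ell a b x)
      = tang a b x ^ 2 - fP a b := by
    simp [QuadraticAlgebra.norm, ell]
    try ring
  rw [hn, tang, ← hy, ← hlam]
  have hf : fP a b = X ^ 3 + C a * X + C b := by simp [fP]
  rw [hf]
  linear_combination e1 + (X - C x) * e2 - (X - C x) ^ 2 * e3

/-- value at the point `(x, y)` -/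
noncomputable def ev (x y : ℂ) (z : Fun a b) : ℂ := z.re.eval x + z.im.eval x * y

theorem ev_mul {x y : ℂ} (h : y ^ 2 = (fP a b).eval x) (z w : Fun a b) :
    ev x y (z * w) = ev x y z * ev x y w := by
  simp only [ev, QuadraticAlgebra.re_mul, QuadraticAlgebra.im_mul, eval_add, eval_mul, zero_mul,
    add_zero, ← h]
  ring

theorem ev_one (x y : ℂ) : ev x y (1 : Fun a b) = 1 := by
  have h1 : (1 : Fun a b).re = 1 := QuadraticAlgebra.re_one
  have h2 : (1 : Fun a b).im = 0 := QuadraticAlgebra.im_one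
  rw [ev, h1, h2]; simp

theorem ev_prod {x y : ℂ} (h : y ^ 2 = (fP a b).eval x) {α : Type*} (J : Finset α)
    (z : α → Fun a b) : ev x y (∏ i ∈ J, z i) = ∏ i ∈ J, ev x y (z i) := by
  classical
  induction J using Finset.induction_on with
  | empty => simp [ev_one]
  | insert i s hi ih => rw [Finset.prod_insert hi, Finset.prod_insert hi, ev_mul h, ih]

theorem ev_ell_self (x : ℂ) : ev x (yy a b x) (ell a b x) = 0 := by
  simp [ev, ell, tang]

theorem ev_ell_neg {x : ℂ} (h : (fP a b).eval x ≠ 0) : ev x (-yy a b x) (ell a b x) ≠ 0 := by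
  have h0 : yy a b x ≠ 0 := yy_ne h
  have : ev x (-yy a b x) (ell a b x) = -2 * yy a b x := by
    simp [ev, ell, tang]; try ring
  rw [this]
  exact mul_ne_zero (by norm_num) h0

/-- `ev · conj = norm`, so the value is nonzero away from `x` and `dbl x` -/
theorem ev_ell_ne {x s y : ℂ} (h : (fP a b).eval x ≠ 0) (hy : y ^ 2 = (fP a b).eval s)
    (h1 : s ≠ x) (h2 : s ≠ dbl a b x) : ev s y (ell a b x) ≠ 0 := by
  intro h0
  have hL : y = (tang a b x).eval s := by
    have : ev s y (ell a b x) = -(tang a b x).eval s + y := by simp [ev, ell]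
    rw [this] at h0
    linear_combination h0
  have hn := congrArg (fun q : ℂ[X] => q.eval s) (norm_ell (a := a) (b := b) h)
  have hn' : (QuadraticAlgebra.norm (ell a b x)).eval s = (tang a b x).eval s ^ 2 - (fP a b).eval s := by
    have : QuadraticAlgebra.norm (ell a b x) = tang a b x ^ 2 - fP a b := by
      simp [QuadraticAlgebra.norm, ell]
      try ring
    rw [this]; simp
  simp only [hn', ← hL, hy, sub_self, eval_neg, eval_mul, eval_pow, eval_sub, eval_X, eval_C] at hn
  have hz : (s - x) ^ 2 * (s - dbl a b x) = 0 := by linear_combination (-1 : ℂ) * hn.symm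
  rcases mul_eq_zero.1 hz with hz | hz
  · exact h1 (sub_eq_zero.1 (pow_eq_zero_iff (two_ne_zero) |>.1 hz))
  · exact h2 (sub_eq_zero.1 hz)

end Pool.Agent.Helper68.EG
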