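import Pool.Agent.Helper68.EG.Defs

/-!
# EG-01: the tower of the doubling map

* `cubF (numF) (denF) = sexF ^ 2` is a polynomial identity (`ring`).
* `Q (k+1) = f (2 U W)² = 4 (f U²) W² = denF (P k) (Q k)` by `cub_tow`.
* `no_common`: if `denF = 4 q cubF(p,q) = 0` then `q = 0` (then `numF = p⁴`) or, with `q ≠ 0`,
  `e = p/q` is a root of `f` and `numF = q⁴ (3e² + a)²`, because
  `(x² - a)² - 8 b x = (3x² + a)² - 8 x f(x)`; and
  `4a³ + 27b² = (27b - 18ax) f + (6ax² - 9bx + 4a²) f'`, so `f` and `f'` have no common root.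
* degrees: `P` monic of degree `4^(k+1)`, `natDegree Q < 4^(k+1)`; `W² = P³ + a P Q² + b Q³`.
  `U (k+1) = 2 U W`.
-/

set_option autoImplicit false

open Polynomial

namespace Pool.Agent.Helper68.EG

open Pool.Agent.Helper19.ND

theorem cubF_step {R : Type*} [CommRing R] (a b p q : R) :
    cubF a b (numF a b p q) (denF a b p q) = sexF a b p q ^ 2 := by
  simp only [cubF, numF, denF, sexF]
  ring

variable (a b : ℂ) (k : ℕ)

theorem P_zero : P a b 0 = numF (C a) (C b) X 1 := rfl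

theorem W_zero : W a b 0 = sexF (C a) (C b) X 1 := rfl

theorem U_zero : U a b 0 = C 2 := rfl

theorem Q_zero : Q a b 0 = denF (C a) (C b) X 1 := by
  have h2 : (C 2 : ℂ[X]) = 2 := map_ofNat C 2
  rw [Q, U_zero, h2]
  simp only [denF, cubF, fP]
  ring

theorem P_succ : P a b (k + 1) = numF (C a) (C b) (P a b k) (Q a b k) := rfl

theorem W_succ : W a b (k + 1) = sexF (C a) (C b) (P a b k) (Q a b k) := rfl

theorem U_succ : U a b (k + 1) = C 2 * U a b k * W a b k := rfl

theorem Q_succ_aux (h : cubF (C a) (C b) (P a b k) (Q a b k) = W a b k ^ 2) :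
    Q a b (k + 1) = denF (C a) (C b) (P a b k) (Q a b k) := by
  have h2 : (C 2 : ℂ[X]) = 2 := map_ofNat C 2
  rw [denF, h, Q, U_succ, h2, Q]
  ring

theorem cub_tow : cubF (C a) (C b) (P a b k) (Q a b k) = W a b k ^ 2 := by
  induction k with
  | zero => rw [Q_zero, P_zero, W_zero, cubF_step]
  | succ k ih => rw [Q_succ_aux a b k ih, P_succ, W_succ, cubF_step]

theorem Q_succ : Q a b (k + 1) = denF (C a) (C b) (P a b k) (Q a b k) :=
  Q_succ_aux a b k (cub_tow a b k)

variable {a b}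

theorem disc_form (p q : ℂ) : (4 * a ^ 3 + 27 * b ^ 2) * q ^ 4 =
    (27 * b * q - 18 * a * p) * cubF a b p q +
      (6 * a * p ^ 2 - 9 * b * p * q + 4 * a ^ 2 * q ^ 2) * (3 * p ^ 2 + a * q ^ 2) := by
  simp only [cubF]
  ring

theorem no_common (hab : 4 * a ^ 3 + 27 * b ^ 2 ≠ 0) {p q : ℂ} (h1 : numF a b p q = 0)
    (h2 : denF a b p q = 0) : p = 0 ∧ q = 0 := by
  by_cases hq : q = 0
  · subst hq
    refine ⟨?_, rfl⟩
    simp only [numF] at h1
    have : p ^ 4 = 0 := by linear_combination h1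
    exact pow_eq_zero_iff (by norm_num) |>.1 this
  · exfalso
    have hc : cubF a b p q = 0 := by
      have h4 : (4 : ℂ) * q ≠ 0 := mul_ne_zero (by norm_num) hq
      simp only [denF] at h2
      rcases mul_eq_zero.1 h2 with h | h
      · exact absurd h h4
      · exact h
    have ht : (3 * p ^ 2 + a * q ^ 2) ^ 2 = 0 := by
      have e : (3 * p ^ 2 + a * q ^ 2) ^ 2 = numF a b p q + 8 * p * cubF a b p q := by
        simp only [numF, cubF]
        ring
      rw [e, h1, hc]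
      ring
    have ht' : 3 * p ^ 2 + a * q ^ 2 = 0 := pow_eq_zero_iff (by norm_num) |>.1 ht
    have hd := disc_form (a := a) (b := b) p q
    rw [hc, ht', mul_zero, mul_zero, add_zero] at hd
    rcases mul_eq_zero.1 hd with h | h
    · exact hab h
    · exact hq (pow_eq_zero_iff (by norm_num) |>.1 h)

theorem eval_numF (p q : ℂ[X]) (x : ℂ) :
    (numF (C a) (C b) p q).eval x = numF a b (p.eval x) (q.eval x) := by
  simp [numF]

theorem eval_cubF (p q : ℂ[X]) (x : ℂ) :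
    (cubF (C a) (C b) p q).eval x = cubF a b (p.eval x) (q.eval x) := by
  simp [cubF]

theorem eval_denF (p q : ℂ[X]) (x : ℂ) :
    (denF (C a) (C b) p q).eval x = denF a b (p.eval x) (q.eval x) := by
  simp [denF, cubF]

theorem PQ_ne (hab : 4 * a ^ 3 + 27 * b ^ 2 ≠ 0) (x : ℂ) :
    ¬ ((P a b k).eval x = 0 ∧ (Q a b k).eval x = 0) := by
  induction k with
  | zero =>
    rintro ⟨h1, h2⟩
    rw [P_zero, eval_numF] at h1
    rw [Q_zero, eval_denF] at h2
    have := (no_common hab h1 h2).2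
    simp at this
  | succ k ih =>
    rintro ⟨h1, h2⟩
    rw [P_succ, eval_numF] at h1
    rw [Q_succ, eval_denF] at h2
    exact ih (no_common hab h1 h2)

variable {k}

theorem W_sq_eval (x : ℂ) :
    (W a b k).eval x ^ 2 = cubF a b ((P a b k).eval x) ((Q a b k).eval x) := by
  rw [← eval_cubF, cub_tow, eval_pow]

theorem Q_root (hab : 4 * a ^ 3 + 27 * b ^ 2 ≠ 0) {x : ℂ} (h : (Q a b k).eval x = 0) :
    (P a b k).eval x ≠ 0 ∧ (W a b k).eval x ≠ 0 := by
  have hP : (P a b k).eval x ≠ 0 := fun h' => PQ_ne k hab x ⟨h', h⟩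
  refine ⟨hP, fun hW => ?_⟩
  have e := W_sq_eval (a := a) (b := b) (k := k) x
  rw [hW, h] at e
  simp only [cubF] at e
  have : (P a b k).eval x ^ 3 = 0 := by linear_combination -e
  exact hP (pow_eq_zero_iff (by norm_num) |>.1 this)

theorem W_root (hab : 4 * a ^ 3 + 27 * b ^ 2 ≠ 0) {x : ℂ} (h : (W a b k).eval x = 0) :
    (fP a b).eval x ≠ 0 ∧ (U a b k).eval x ≠ 0 ∧ (Q a b k).eval x ≠ 0 ∧
      3 * (P a b k).eval x ^ 2 + a * (Q a b k).eval x ^ 2 ≠ 0 := by
  have hQ : (Q a b k).eval x ≠ 0 := fun h' => (Q_root hab h').2 h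
  have hQ' : (fP a b).eval x * (U a b k).eval x ^ 2 ≠ 0 := by
    have : (Q a b k).eval x = (fP a b).eval x * (U a b k).eval x ^ 2 := by
      rw [Q, eval_mul, eval_pow]
    rwa [this] at hQ
  refine ⟨fun h' => hQ' (by rw [h', zero_mul]), fun h' => hQ' (by rw [h']; ring), hQ, fun h' => ?_⟩
  have e := W_sq_eval (a := a) (b := b) (k := k) x
  rw [h] at e
  have hc : cubF a b ((P a b k).eval x) ((Q a b k).eval x) = 0 := by
    rw [← e]
    ring
  have hd := disc_form (a := a) (b := b) ((P a b k).eval x) ((Q a b k).eval x)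
  rw [hc, h', mul_zero, mul_zero, add_zero] at hd
  rcases mul_eq_zero.1 hd with h | h
  · exact hab h
  · exact hQ (pow_eq_zero_iff (by norm_num) |>.1 h)

variable (a b)

theorem term_le (c : ℂ) (p q : ℂ[X]) (i j : ℕ) :
    (C c * p ^ i * q ^ j).natDegree ≤ i * p.natDegree + j * q.natDegree := by
  refine natDegree_mul_le.trans (Nat.add_le_add ?_ natDegree_pow_le)
  exact (natDegree_C_mul_le _ _).trans natDegree_pow_le

theorem numF_deg {p q : ℂ[X]} (hp : p.Monic) (h : q.natDegree < p.natDegree) :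
    (numF (C a) (C b) p q).Monic ∧ (numF (C a) (C b) p q).natDegree = 4 * p.natDegree := by
  have e : numF (C a) (C b) p q = p ^ 4 +
      (C (-2 * a) * p ^ 2 * q ^ 2 + C (a ^ 2) * p ^ 0 * q ^ 4 + C (-8 * b) * p ^ 1 * q ^ 3) := by
    simp only [numF, map_mul, map_neg, map_pow, map_ofNat]
    ring
  have h4 : (p ^ 4).natDegree = 4 * p.natDegree := hp.natDegree_pow 4
  have hR : (C (-2 * a) * p ^ 2 * q ^ 2 + C (a ^ 2) * p ^ 0 * q ^ 4 +
      C (-8 * b) * p ^ 1 * q ^ 3).natDegree < 4 * p.natDegree := by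
    have h1 := term_le (-2 * a) p q 2 2
    have h2 := term_le (a ^ 2) p q 0 4
    have h3 := term_le (-8 * b) p q 1 3
    have h5 := natDegree_add_le (C (-2 * a) * p ^ 2 * q ^ 2 + C (a ^ 2) * p ^ 0 * q ^ 4)
      (C (-8 * b) * p ^ 1 * q ^ 3)
    have h6 := natDegree_add_le (C (-2 * a) * p ^ 2 * q ^ 2) (C (a ^ 2) * p ^ 0 * q ^ 4)
    omega
  rw [e]
  refine ⟨(hp.pow 4).add_of_left ?_, ?_⟩
  · refine degree_lt_degree ?_
    rw [h4]
    exact hR
  · rw [natDegree_add_eq_left_of_natDegree_lt (by rw [h4]; exact hR), h4]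

theorem sexF_deg {p q : ℂ[X]} (hp : p.Monic) (h : q.natDegree < p.natDegree) :
    (sexF (C a) (C b) p q).Monic ∧ (sexF (C a) (C b) p q).natDegree = 6 * p.natDegree := by
  have e : sexF (C a) (C b) p q = p ^ 6 +
      (C (5 * a) * p ^ 4 * q ^ 2 + C (20 * b) * p ^ 3 * q ^ 3 + C (-5 * a ^ 2) * p ^ 2 * q ^ 4 +
        C (-4 * a * b) * p ^ 1 * q ^ 5 + C (-(8 * b ^ 2 + a ^ 3)) * p ^ 0 * q ^ 6) := by
    simp only [sexF, map_mul, map_neg, map_pow, map_ofNat, map_add]
    ring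
  have h4 : (p ^ 6).natDegree = 6 * p.natDegree := hp.natDegree_pow 6
  have hR : (C (5 * a) * p ^ 4 * q ^ 2 + C (20 * b) * p ^ 3 * q ^ 3 +
      C (-5 * a ^ 2) * p ^ 2 * q ^ 4 + C (-4 * a * b) * p ^ 1 * q ^ 5 +
      C (-(8 * b ^ 2 + a ^ 3)) * p ^ 0 * q ^ 6).natDegree < 6 * p.natDegree := by
    have h1 := term_le (5 * a) p q 4 2
    have h2 := term_le (20 * b) p q 3 3
    have h3 := term_le (-5 * a ^ 2) p q 2 4
    have h5 := term_le (-4 * a * b) p q 1 5
    have h6 := term_le (-(8 * b ^ 2 + a ^ 3)) p q 0 6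
    have g1 := natDegree_add_le (C (5 * a) * p ^ 4 * q ^ 2) (C (20 * b) * p ^ 3 * q ^ 3)
    have g2 := natDegree_add_le (C (5 * a) * p ^ 4 * q ^ 2 + C (20 * b) * p ^ 3 * q ^ 3)
      (C (-5 * a ^ 2) * p ^ 2 * q ^ 4)
    have g3 := natDegree_add_le (C (5 * a) * p ^ 4 * q ^ 2 + C (20 * b) * p ^ 3 * q ^ 3 +
      C (-5 * a ^ 2) * p ^ 2 * q ^ 4) (C (-4 * a * b) * p ^ 1 * q ^ 5)
    have g4 := natDegree_add_le (C (5 * a) * p ^ 4 * q ^ 2 + C (20 * b) * p ^ 3 * q ^ 3 +
      C (-5 * a ^ 2) * p ^ 2 * q ^ 4 + C (-4 * a * b) * p ^ 1 * q ^ 5)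
      (C (-(8 * b ^ 2 + a ^ 3)) * p ^ 0 * q ^ 6)
    omega
  rw [e]
  refine ⟨(hp.pow 6).add_of_left ?_, ?_⟩
  · refine degree_lt_degree ?_
    rw [h4]
    exact hR
  · rw [natDegree_add_eq_left_of_natDegree_lt (by rw [h4]; exact hR), h4]

theorem denF_deg {p q : ℂ[X]} (h : q.natDegree < p.natDegree) :
    (denF (C a) (C b) p q).natDegree < 4 * p.natDegree := by
  have e : denF (C a) (C b) p q =
      C 4 * p ^ 3 * q ^ 1 + C (4 * a) * p ^ 1 * q ^ 3 + C (4 * b) * p ^ 0 * q ^ 4 := by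
    simp only [denF, cubF, map_mul, map_ofNat]
    ring
  have h1 := term_le 4 p q 3 1
  have h2 := term_le (4 * a) p q 1 3
  have h3 := term_le (4 * b) p q 0 4
  have g1 := natDegree_add_le (C 4 * p ^ 3 * q ^ 1) (C (4 * a) * p ^ 1 * q ^ 3)
  have g2 := natDegree_add_le (C 4 * p ^ 3 * q ^ 1 + C (4 * a) * p ^ 1 * q ^ 3)
    (C (4 * b) * p ^ 0 * q ^ 4)
  rw [e]
  omega

theorem one_lt_X : (1 : ℂ[X]).natDegree < (X : ℂ[X]).natDegree := by
  rw [natDegree_one, natDegree_X]
  norm_num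

variable (k)

theorem P_deg : (P a b k).Monic ∧ (P a b k).natDegree = 4 ^ (k + 1) ∧
    (Q a b k).natDegree < 4 ^ (k + 1) := by
  induction k with
  | zero =>
    have h := numF_deg a b (monic_X (R := ℂ)) one_lt_X
    have h' := denF_deg a b one_lt_X
    rw [natDegree_X] at h h'
    rw [P_zero, Q_zero]
    exact ⟨h.1, by rw [h.2]; norm_num, by simpa using h'⟩
  | succ k ih =>
    obtain ⟨h1, h2, h3⟩ := ih
    have hlt : (Q a b k).natDegree < (P a b k).natDegree := by rw [h2]; exact h3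
    have h := numF_deg a b h1 hlt
    have h' := denF_deg a b hlt
    rw [P_succ, Q_succ]
    rw [h2] at h h'
    refine ⟨h.1, ?_, ?_⟩
    · rw [h.2, pow_succ 4 (k + 1)]
      ring
    · rw [pow_succ 4 (k + 1)]
      omega

theorem natDegree_Q_lt : (Q a b k).natDegree < 4 ^ (k + 1) := (P_deg a b k).2.2

theorem P_monic : (P a b k).Monic := (P_deg a b k).1

theorem natDegree_P : (P a b k).natDegree = 4 ^ (k + 1) := (P_deg a b k).2.1

theorem W_deg : (W a b k).Monic ∧ (W a b k).natDegree = 6 * 4 ^ k := by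
  cases k with
  | zero =>
    have h := sexF_deg a b (monic_X (R := ℂ)) one_lt_X
    rw [natDegree_X] at h
    rw [W_zero]
    exact ⟨h.1, by rw [h.2]; norm_num⟩
  | succ k =>
    have hlt : (Q a b k).natDegree < (P a b k).natDegree := by
      rw [natDegree_P]
      exact natDegree_Q_lt a b k
    have h := sexF_deg a b (P_monic a b k) hlt
    rw [natDegree_P] at h
    rw [W_succ]
    exact h

theorem natDegree_W : (W a b k).natDegree = 6 * 4 ^ k := (W_deg a b k).2

theorem W_ne_zero : W a b k ≠ 0 := (W_deg a b k).1.ne_zero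

theorem U_ne_zero : U a b k ≠ 0 := by
  induction k with
  | zero =>
    rw [U_zero]
    exact C_ne_zero.2 (by norm_num)
  | succ k ih =>
    rw [U_succ]
    exact mul_ne_zero (mul_ne_zero (C_ne_zero.2 (by norm_num)) ih) (W_ne_zero a b k)

theorem natDegree_U : (U a b k).natDegree = 2 * (4 ^ k - 1) := by
  induction k with
  | zero =>
    rw [U_zero, natDegree_C]
    norm_num
  | succ k ih =>
    have h2 : (C 2 : ℂ[X]) ≠ 0 := C_ne_zero.2 (by norm_num)
    rw [U_succ, natDegree_mul (mul_ne_zero h2 (U_ne_zero a b k)) (W_ne_zero a b k),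
      natDegree_mul h2 (U_ne_zero a b k), natDegree_C, ih, natDegree_W, pow_succ]
    have : 1 ≤ 4 ^ k := Nat.one_le_pow _ _ (by norm_num)
    omega

theorem natDegree_fP' : (fP a b).natDegree = 3 := by
  rw [fP]
  compute_degree!

theorem fP_ne_zero : fP a b ≠ 0 := by
  intro h
  have := natDegree_fP' a b
  rw [h, natDegree_zero] at this
  exact absurd this (by norm_num)

theorem Q_ne_zero : Q a b k ≠ 0 := by
  rw [Q]
  exact mul_ne_zero (fP_ne_zero a b) (pow_ne_zero _ (U_ne_zero a b k))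

end Pool.Agent.Helper68.EG
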