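import Pool.Agent.Helper68.EG.Defs

/-!
# EG-06: the valuation lemma

Let `β = y² - x³ - a x`, `(x', y')` the double of `(x, y)` on `Y² = X³ + a X + β`. Then
`y'² - x'³ - a x' = β`. Suppose `v x', v y' ≤ 1` and `v (β - b) < 1`.
* If `v x > 1`: `y² = x³ + a x + β`, `v β ≤ 1`, so `v (y²) = (v x)³`, and
  `x' = (x⁴ - 2 a x² - 8 β x + a²) / (4 (x³ + a x + β))` has `v x' = v x > 1`.
* If `v x ≤ 1`: then `v (y²) ≤ 1`, so `v y ≤ 1`, so `v y < 1` by hypothesis. With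
  `N = 3x² + a`: `4 y² x' = N² - 8 x y²`, so `v N < 1`; `v (x³ + a x + b) < 1`. But
  `4a³ + 27b² = (27b - 18ax)(x³ + ax + b) + (6ax² - 9bx + 4a²)(3x² + a)`.
-/

set_option autoImplicit false

open Polynomial

namespace Pool.Agent.Helper68.EG

open Pool.Agent.Helper19.ND

/-- abscissa of the double of `(x, y)` -/
noncomputable def dx (a : ℂ) (x y : RatFunc ℂ) : RatFunc ℂ :=
  ((3 * x ^ 2 + RatFunc.C a) / (2 * y)) ^ 2 - 2 * x

/-- ordinate of the double of `(x, y)` -/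
noncomputable def dy (a : ℂ) (x y : RatFunc ℂ) : RatFunc ℂ :=
  (3 * x ^ 2 + RatFunc.C a) / (2 * y) * (x - dx a x y) - y

/-- the parameter of the pencil, minus `b` -/
noncomputable def bb (a b : ℂ) (x y : RatFunc ℂ) : RatFunc ℂ :=
  y ^ 2 - x ^ 3 - RatFunc.C a * x - RatFunc.C b

theorem bb_double (a b : ℂ) {x y : RatFunc ℂ} (hy : y ≠ 0) :
    bb a b (dx a x y) (dy a x y) = bb a b x y := by
  obtain ⟨m, hm⟩ : ∃ m, m = (3 * x ^ 2 + RatFunc.C a) / (2 * y) := ⟨_, rfl⟩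
  have h2 : (2 : RatFunc ℂ) ≠ 0 := two_ne_zero
  have hm' : 2 * y * m = 3 * x ^ 2 + RatFunc.C a := by
    rw [hm]
    field_simp
  have e1 : dx a x y = m ^ 2 - 2 * x := by rw [dx, hm]
  have e2 : dy a x y = m * (x - (m ^ 2 - 2 * x)) - y := by rw [dy, e1, hm]
  rw [bb, bb, e1, e2]
  linear_combination (m ^ 2 - 3 * x) * hm'

private theorem v_nat (pl : Place) (n : ℕ) (hn : n ≠ 0) : pl.v (n : RatFunc ℂ) = 1 := by
  have h := pl.const (n : ℂ) (Nat.cast_ne_zero.2 hn)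
  rwa [map_natCast] at h

private theorem v_two (pl : Place) : pl.v (2 : RatFunc ℂ) = 1 := by
  have h := v_nat pl 2 (by norm_num)
  exact_mod_cast h

private theorem v_C_le (pl : Place) (c : ℂ) : pl.v (RatFunc.C c) ≤ 1 := by
  by_cases hc : c = 0
  · rw [hc, map_zero, map_zero]
    exact zero_le_one
  · exact (pl.const c hc).le

private theorem v_nat_le (pl : Place) (n : ℕ) : pl.v (n : RatFunc ℂ) ≤ 1 := by
  have h := v_C_le pl (n : ℂ)
  rwa [map_natCast] at h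

private theorem sub_le' (pl : Place) {g : WithZero (Multiplicative ℤ)} {x y : RatFunc ℂ}
    (hx : pl.v x ≤ g) (hy : pl.v y ≤ g) : pl.v (x - y) ≤ g :=
  (pl.v.map_sub x y).trans (max_le hx hy)

private theorem sub_lt' (pl : Place) {g : WithZero (Multiplicative ℤ)} {x y : RatFunc ℂ}
    (hx : pl.v x < g) (hy : pl.v y < g) : pl.v (x - y) < g :=
  lt_of_le_of_lt (pl.v.map_sub x y) (max_lt hx hy)

private theorem mul_le1 (pl : Place) {x y : RatFunc ℂ} (hx : pl.v x ≤ 1) (hy : pl.v y ≤ 1) :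
    pl.v (x * y) ≤ 1 := by
  rw [map_mul]
  exact mul_le_one' hx hy

private theorem mul_lt1 (pl : Place) {x y : RatFunc ℂ} (hx : pl.v x ≤ 1) (hy : pl.v y < 1) :
    pl.v (x * y) < 1 := by
  rw [map_mul]
  exact lt_of_le_of_lt (mul_le_of_le_one_left' hx) hy

theorem valA {a b : ℂ} (hab : 4 * a ^ 3 + 27 * b ^ 2 ≠ 0) (pl : Place) {x y : RatFunc ℂ}
    (hy : y ≠ 0) (h1 : pl.v (dx a x y) ≤ 1) (h2 : pl.v (dy a x y) ≤ 1)
    (h3 : pl.v (bb a b x y) < 1) (hH : pl.v x ≤ 1 → pl.v y ≤ 1 → pl.v y < 1) : False := by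
  have _ := h2
  have h20 : (2 : RatFunc ℂ) ≠ 0 := two_ne_zero
  -- the doubling formula
  have hdx : 4 * y ^ 2 * dx a x y = (3 * x ^ 2 + RatFunc.C a) ^ 2 - 8 * x * y ^ 2 := by
    rw [dx]
    field_simp
    ring
  have hy2 : y ^ 2 = x ^ 3 + (RatFunc.C a * x + (RatFunc.C b + bb a b x y)) := by
    rw [bb]
    ring
  have hβ : pl.v (RatFunc.C b + bb a b x y) ≤ 1 :=
    (pl.v.map_add _ _).trans (max_le (v_C_le pl b) h3.le)
  have v4 : pl.v (4 : RatFunc ℂ) = 1 := by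
    have h := v_nat pl 4 (by norm_num)
    exact_mod_cast h
  have v8 : pl.v (8 : RatFunc ℂ) = 1 := by
    have h := v_nat pl 8 (by norm_num)
    exact_mod_cast h
  rcases lt_or_ge 1 (pl.v x) with hx | hx
  · -- `v x > 1`
    have hx0 : pl.v x ≠ 0 := (zero_lt_one.trans hx).ne'
    have hx3 : pl.v x < pl.v x ^ 3 := by
      calc pl.v x = pl.v x ^ 1 := (pow_one _).symm
        _ < pl.v x ^ 3 := pow_lt_pow_right₀ hx (by norm_num)
    have hvy : pl.v y ^ 2 = pl.v x ^ 3 := by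
      rw [← map_pow, hy2, ← map_pow]
      apply pl.v.map_add_eq_of_lt_left
      rw [map_pow]
      refine lt_of_le_of_lt (pl.v.map_add _ _) (max_lt ?_ ?_)
      · rw [map_mul]
        refine lt_of_le_of_lt ?_ hx3
        calc pl.v (RatFunc.C a) * pl.v x ≤ 1 * pl.v x := mul_le_mul_left (v_C_le pl a) _
          _ = pl.v x := one_mul _
      · exact lt_of_le_of_lt hβ (hx.trans hx3)
    have hnum : 4 * y ^ 2 * dx a x y = x ^ 4 + (-(2 * RatFunc.C a * x ^ 2) +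
        (-(8 * (RatFunc.C b + bb a b x y) * x) + RatFunc.C a ^ 2)) := by
      rw [hdx]
      have e : bb a b x y = y ^ 2 - x ^ 3 - RatFunc.C a * x - RatFunc.C b := rfl
      rw [e]
      ring
    have hx24 : pl.v x ^ 2 < pl.v x ^ 4 := pow_lt_pow_right₀ hx (by norm_num)
    have hx14 : pl.v x < pl.v x ^ 4 := by
      calc pl.v x = pl.v x ^ 1 := (pow_one _).symm
        _ < pl.v x ^ 4 := pow_lt_pow_right₀ hx (by norm_num)
    have hv : pl.v (4 * y ^ 2 * dx a x y) = pl.v x ^ 4 := by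
      rw [hnum, show pl.v x ^ 4 = pl.v (x ^ 4) from (map_pow _ _ _).symm]
      apply pl.v.map_add_eq_of_lt_left
      rw [map_pow]
      refine lt_of_le_of_lt (pl.v.map_add _ _) (max_lt ?_ ?_)
      · rw [Valuation.map_neg, map_mul, map_mul, map_pow, v_two, one_mul]
        refine lt_of_le_of_lt ?_ hx24
        calc pl.v (RatFunc.C a) * pl.v x ^ 2 ≤ 1 * pl.v x ^ 2 :=
              mul_le_mul_left (v_C_le pl a) _
          _ = pl.v x ^ 2 := one_mul _
      · refine lt_of_le_of_lt (pl.v.map_add _ _) (max_lt ?_ ?_)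
        · rw [Valuation.map_neg, map_mul, map_mul, v8, one_mul]
          refine lt_of_le_of_lt ?_ hx14
          calc pl.v (RatFunc.C b + bb a b x y) * pl.v x ≤ 1 * pl.v x :=
                mul_le_mul_left hβ _
            _ = pl.v x := one_mul _
        · rw [map_pow]
          refine lt_of_le_of_lt (pow_le_one' (v_C_le pl a) 2) (hx.trans hx14)
    rw [map_mul, map_mul, map_pow, v4, one_mul, hvy] at hv
    have h5 : pl.v x ^ 3 * pl.v (dx a x y) ≤ pl.v x ^ 3 * 1 := mul_le_mul_right h1 _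
    rw [hv, mul_one] at h5
    exact absurd (pow_lt_pow_right₀ hx (by norm_num : 3 < 4)) (not_lt.2 h5)
  · -- `v x ≤ 1`
    have hvy : pl.v y ≤ 1 := by
      by_contra hcon
      have h4 : 1 < pl.v y := not_le.1 hcon
      have h5 : 1 < pl.v (y ^ 2) := by
        rw [map_pow]
        exact one_lt_pow₀ h4 two_ne_zero
      have h6 : pl.v (y ^ 2) ≤ 1 := by
        rw [hy2]
        refine (pl.v.map_add _ _).trans (max_le ?_ ((pl.v.map_add _ _).trans (max_le ?_ hβ)))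
        · rw [map_pow]
          exact pow_le_one' hx 3
        · exact mul_le1 pl (v_C_le pl a) hx
      exact absurd h5 (not_lt.2 h6)
    have hy1 : pl.v y < 1 := hH hx hvy
    have hy21 : pl.v (y ^ 2) < 1 := by
      rw [map_pow]
      exact pow_lt_one₀ zero_le hy1 two_ne_zero
    have hN2 : pl.v ((3 * x ^ 2 + RatFunc.C a) ^ 2) < 1 := by
      have e : (3 * x ^ 2 + RatFunc.C a) ^ 2 = 4 * y ^ 2 * dx a x y + 8 * x * y ^ 2 := by
        rw [hdx]
        ring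
      rw [e]
      refine lt_of_le_of_lt (pl.v.map_add _ _) (max_lt ?_ ?_)
      · rw [map_mul, map_mul, v4, one_mul]
        exact lt_of_le_of_lt (mul_le_of_le_one_right' h1) hy21
      · rw [map_mul, map_mul, v8, one_mul]
        exact lt_of_le_of_lt (mul_le_of_le_one_left' hx) hy21
    have hN : pl.v (3 * x ^ 2 + RatFunc.C a) < 1 := by
      by_contra hcon
      have h4 : 1 ≤ pl.v (3 * x ^ 2 + RatFunc.C a) := not_lt.1 hcon
      rw [map_pow] at hN2
      exact absurd hN2 (not_lt.2 (one_le_pow_of_one_le' h4 2))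
    have hF : pl.v (x ^ 3 + RatFunc.C a * x + RatFunc.C b) < 1 := by
      have e : x ^ 3 + RatFunc.C a * x + RatFunc.C b = y ^ 2 - bb a b x y := by
        rw [bb]
        ring
      rw [e]
      exact sub_lt' pl hy21 h3
    have hid : RatFunc.C (4 * a ^ 3 + 27 * b ^ 2) =
        (27 * RatFunc.C b - 18 * RatFunc.C a * x) * (x ^ 3 + RatFunc.C a * x + RatFunc.C b) +
        (6 * RatFunc.C a * x ^ 2 - 9 * RatFunc.C b * x + 4 * RatFunc.C a ^ 2) *
          (3 * x ^ 2 + RatFunc.C a) := by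
      have e : RatFunc.C (4 * a ^ 3 + 27 * b ^ 2) =
          4 * RatFunc.C a ^ 3 + 27 * RatFunc.C b ^ 2 := by
        simp only [map_add, map_mul, map_pow, map_ofNat]
      rw [e]
      ring
    have hn : ∀ n : ℕ, pl.v (n : RatFunc ℂ) ≤ 1 := v_nat_le pl
    have n27 : pl.v (27 : RatFunc ℂ) ≤ 1 := by exact_mod_cast hn 27
    have n18 : pl.v (18 : RatFunc ℂ) ≤ 1 := by exact_mod_cast hn 18
    have n6 : pl.v (6 : RatFunc ℂ) ≤ 1 := by exact_mod_cast hn 6
    have n9 : pl.v (9 : RatFunc ℂ) ≤ 1 := by exact_mod_cast hn 9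
    have hx2 : pl.v (x ^ 2) ≤ 1 := by
      rw [map_pow]
      exact pow_le_one' hx 2
    have ha2 : pl.v (RatFunc.C a ^ 2) ≤ 1 := by
      rw [map_pow]
      exact pow_le_one' (v_C_le pl a) 2
    have c1 : pl.v (27 * RatFunc.C b - 18 * RatFunc.C a * x) ≤ 1 :=
      sub_le' pl (mul_le1 pl n27 (v_C_le pl b))
        (mul_le1 pl (mul_le1 pl n18 (v_C_le pl a)) hx)
    have c2 : pl.v (6 * RatFunc.C a * x ^ 2 - 9 * RatFunc.C b * x + 4 * RatFunc.C a ^ 2) ≤ 1 :=
      (pl.v.map_add _ _).trans (max_le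
        (sub_le' pl (mul_le1 pl (mul_le1 pl n6 (v_C_le pl a)) hx2)
          (mul_le1 pl (mul_le1 pl n9 (v_C_le pl b)) hx))
        (mul_le1 pl v4.le ha2))
    have hlt : pl.v (RatFunc.C (4 * a ^ 3 + 27 * b ^ 2)) < 1 := by
      rw [hid]
      exact lt_of_le_of_lt (pl.v.map_add _ _) (max_lt (mul_lt1 pl c1 hF) (mul_lt1 pl c2 hN))
    rw [pl.const _ hab] at hlt
    exact lt_irrefl _ hlt

/-- the double of a point with `v x ≤ 1`, `v (3x² + a) = 1`, `v y < 1` -/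
theorem val_double {a : ℂ} (pl : Place) {x y : RatFunc ℂ} (hx : pl.v x ≤ 1)
    (hN : pl.v (3 * x ^ 2 + RatFunc.C a) = 1) (hy0 : y ≠ 0) (hy : pl.v y < 1) :
    pl.v (dx a x y) = (pl.v y)⁻¹ ^ 2 ∧ pl.v (dy a x y) = (pl.v y)⁻¹ ^ 3 := by
  have hvy0 : pl.v y ≠ 0 := (Valuation.ne_zero_iff _).2 hy0
  have hinv : 1 < (pl.v y)⁻¹ := (one_lt_inv₀ (zero_lt_iff.2 hvy0)).2 hy
  have hm : pl.v ((3 * x ^ 2 + RatFunc.C a) / (2 * y)) = (pl.v y)⁻¹ := by
    rw [map_div₀, hN, map_mul, v_two, one_mul, one_div]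
  have h2x : pl.v (2 * x) ≤ 1 := mul_le1 pl (v_two pl).le hx
  have h1 : pl.v (dx a x y) = (pl.v y)⁻¹ ^ 2 := by
    rw [dx, sub_eq_add_neg, ← hm, ← map_pow]
    apply pl.v.map_add_eq_of_lt_left
    rw [Valuation.map_neg, map_pow, hm]
    exact lt_of_le_of_lt h2x (one_lt_pow₀ hinv two_ne_zero)
  refine ⟨h1, ?_⟩
  have h2 : pl.v (x - dx a x y) = (pl.v y)⁻¹ ^ 2 := by
    rw [← h1, sub_eq_neg_add, ← Valuation.map_neg pl.v (dx a x y)]
    apply pl.v.map_add_eq_of_lt_left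
    rw [Valuation.map_neg, h1]
    exact lt_of_le_of_lt hx (one_lt_pow₀ hinv two_ne_zero)
  have h3 : pl.v ((3 * x ^ 2 + RatFunc.C a) / (2 * y) * (x - dx a x y)) = (pl.v y)⁻¹ ^ 3 := by
    rw [map_mul, hm, h2, ← pow_succ']
  rw [dy, sub_eq_add_neg, ← h3]
  apply pl.v.map_add_eq_of_lt_left
  rw [Valuation.map_neg, h3]
  exact hy.trans (one_lt_pow₀ hinv (by norm_num))

end Pool.Agent.Helper68.EG
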