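import Pool.Agent.Helper68.EG.Local

/-!
# EG-12c: values of `rx`, `ry`, `bb` for `TJ`

* `val_xy`: at `x ∈ J`: `W` has a simple root (`W_mult`), `f, U, Q, A, B ≠ 0` at `x` (`W_root`, `AJ_eval_ne`,
  `BJ_eval`, `yy_ne`), so `v yD = exp (-1)`, `v xD ≤ 1`, `v (3 xD² + a) = v ((3P² + aQ²)/Q²) = 1`
  (`W_root`); then `val_double`.
* `val_w_*`: `bb (rx) (ry) = bb xD yD` (`bb_double`), `bb_eq`, `W_mult`, `mult_NJ_self`, `mult_NJ_le` (the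
  denominator only increases the valuation, `plAt_le_one`); at infinity
  `2 deg W + deg NJ - 4·3 - 6 deg U - 2 deg A = 3 (|J| + 1) - 2 deg A ≥ 3` (`natDegree_AJ`).
-/

set_option autoImplicit false

open Polynomial WithZero

namespace Pool.Agent.Helper68.EG

open Pool.Agent.Helper19.ND

variable {a b : ℂ} {k : ℕ} {J : Finset ℂ} {x₀ : ℂ}

private theorem vals_ι_ne {p : ℂ[X]} (h : p ≠ 0) : ι p ≠ 0 := by
  intro h0
  exact h ((map_eq_zero_iff _ (RatFunc.algebraMap_injective ℂ)).1 h0)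

private theorem vals_ι_C (c : ℂ) : ι (C c) = RatFunc.C c := RatFunc.algebraMap_C c

/-- the value of `yD` at the points of `J` -/
private theorem vals_yD (hab : 4 * a ^ 3 + 27 * b ^ 2 ≠ 0) (hJ : ∀ x ∈ J, (W a b k).eval x = 0)
    (h₀ : x₀ ∈ J) {x : ℂ} (hx : x ∈ J) :
    (plAt x).v (yD a b k J x₀) = exp (-1 : ℤ) := by
  obtain ⟨hf, hU, hQ, hN⟩ := W_root hab (hJ x hx)
  have hA := AJ_eval_ne hab hJ h₀ hx
  have hB : (BJ a b J x₀).eval x ≠ 0 := by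
    rw [BJ_eval h₀ hx]
    exact neg_ne_zero.2 (mul_ne_zero hA (yy_ne hf))
  have h1 : (plAt x).v (ι (dY a b k J x₀)) = exp (-1 : ℤ) := by
    rw [dY, map_neg, Valuation.map_neg, map_mul, map_mul, plAt_v x (W_ne_zero a b k),
      W_mult hab (hJ x hx), plAt_eq_one.2 hB, mul_one]
    norm_num
  have h2 : (plAt x).v (ι (dZ a b k J x₀)) = 1 := by
    rw [plAt_eq_one, dZ, eval_mul, eval_mul, eval_pow, eval_pow]
    exact mul_ne_zero (mul_ne_zero (pow_ne_zero _ hf) (pow_ne_zero _ hU)) hA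
  rw [yD, map_div₀, h1, h2, div_one]

theorem val_xy (hab : 4 * a ^ 3 + 27 * b ^ 2 ≠ 0) (hJ : ∀ x ∈ J, (W a b k).eval x = 0)
    (h₀ : x₀ ∈ J) {x : ℂ} (hx : x ∈ J) :
    (plAt x).v (rx (TJ a b k J x₀)) = exp (2 : ℤ) ∧
      (plAt x).v (ry (TJ a b k J x₀)) = exp (3 : ℤ) := by
  obtain ⟨hf, hU, hQ, hN⟩ := W_root hab (hJ x hx)
  have hy := vals_yD hab hJ h₀ hx
  have hQ1 : (plAt x).v (ι (Q a b k)) = 1 := plAt_eq_one.2 hQ
  have hx1 : (plAt x).v (xD a b k J x₀) ≤ 1 := by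
    rw [xD_eq hab hJ h₀, map_div₀, hQ1, div_one]
    exact plAt_le_one x _
  have hQ0 := vals_ι_ne (Q_ne_zero a b k)
  have hN1 : (plAt x).v (3 * xD a b k J x₀ ^ 2 + RatFunc.C a) = 1 := by
    have e : 3 * xD a b k J x₀ ^ 2 + RatFunc.C a =
        ι (3 * P a b k ^ 2 + C a * Q a b k ^ 2) / ι (Q a b k) ^ 2 := by
      rw [xD_eq hab hJ h₀]
      simp only [map_mul, map_pow, map_add, map_ofNat, vals_ι_C]
      field_simp
    rw [e, map_div₀, map_pow, hQ1, one_pow, div_one, plAt_eq_one]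
    simpa using hN
  have hlt : (plAt x).v (yD a b k J x₀) < 1 := by
    rw [hy, ← exp_zero, exp_lt_exp]
    norm_num
  have h := val_double (plAt x) hx1 hN1 (yD_ne hab hJ h₀) hlt
  rw [rx_TJ hab hJ h₀, ry_TJ hab hJ h₀, h.1, h.2, hy, ← exp_neg, ← exp_nsmul, ← exp_nsmul]
  constructor <;> norm_num

private theorem vals_bb (hab : 4 * a ^ 3 + 27 * b ^ 2 ≠ 0) (hJ : ∀ x ∈ J, (W a b k).eval x = 0)
    (h₀ : x₀ ∈ J) : ∃ ε : ℂ, ε ≠ 0 ∧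
      bb a b (rx (TJ a b k J x₀)) (ry (TJ a b k J x₀)) =
      ι (C ε * W a b k ^ 2 * NJ a b J x₀) /
        ι (fP a b ^ 4 * U a b k ^ 6 * AJ a b J x₀ ^ 2) := by
  obtain ⟨ε, hε, h⟩ := bb_eq hab hJ h₀
  refine ⟨ε, ?_, ?_⟩
  · rintro rfl
    norm_num at hε
  · rw [rx_TJ hab hJ h₀, ry_TJ hab hJ h₀, bb_double a b (yD_ne hab hJ h₀), h]

private theorem vals_num {ε : ℂ} (hε : ε ≠ 0) (s : ℂ) :
    (plAt s).v (ι (C ε * W a b k ^ 2 * NJ a b J x₀)) =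
      exp (-((2 * (W a b k).rootMultiplicity s + (NJ a b J x₀).rootMultiplicity s : ℕ) : ℤ)) := by
  rw [map_mul, map_mul, map_mul, map_mul, map_pow, map_pow, vals_ι_C, (plAt s).const ε hε,
    plAt_v s (W_ne_zero a b k), plAt_v s NJ_ne_zero, one_mul, ← exp_nsmul, ← exp_add]
  congr 1
  push_cast
  ring

theorem val_w_self (hab : 4 * a ^ 3 + 27 * b ^ 2 ≠ 0) (hJ : ∀ x ∈ J, (W a b k).eval x = 0)
    (h₀ : x₀ ∈ J) :
    (plAt x₀).v (bb a b (rx (TJ a b k J x₀)) (ry (TJ a b k J x₀))) = exp (-6 : ℤ) := by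
  obtain ⟨ε, hε, h⟩ := vals_bb hab hJ h₀
  obtain ⟨hf, hU, hQ, hN⟩ := W_root hab (hJ x₀ h₀)
  have hA := AJ_eval_ne hab hJ h₀ h₀
  have h2 : (plAt x₀).v (ι (fP a b ^ 4 * U a b k ^ 6 * AJ a b J x₀ ^ 2)) = 1 := by
    rw [plAt_eq_one, eval_mul, eval_mul, eval_pow, eval_pow, eval_pow]
    exact mul_ne_zero (mul_ne_zero (pow_ne_zero _ hf) (pow_ne_zero _ hU)) (pow_ne_zero _ hA)
  rw [h, map_div₀, vals_num hε, h2, div_one, W_mult hab (hJ x₀ h₀), mult_NJ_self hab hJ h₀]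
  norm_num

theorem val_w_ne (hab : 4 * a ^ 3 + 27 * b ^ 2 ≠ 0) (hJ : ∀ x ∈ J, (W a b k).eval x = 0)
    (h₀ : x₀ ∈ J) {s : ℂ} (hs : s ≠ x₀) :
    exp (-6 : ℤ) < (plAt s).v (bb a b (rx (TJ a b k J x₀)) (ry (TJ a b k J x₀))) := by
  obtain ⟨ε, hε, h⟩ := vals_bb hab hJ h₀
  have hden : fP a b ^ 4 * U a b k ^ 6 * AJ a b J x₀ ^ 2 ≠ 0 :=
    mul_ne_zero (mul_ne_zero (pow_ne_zero _ (fP_ne_zero a b)) (pow_ne_zero _ (U_ne_zero a b k)))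
      (pow_ne_zero _ (AJ_ne_zero hab hJ h₀))
  have h5 := mult_NJ_le hab hJ h₀ hs
  rw [h, map_div₀, vals_num hε, plAt_v s hden, ← exp_sub, exp_lt_exp]
  omega

theorem val_w_inf (hab : 4 * a ^ 3 + 27 * b ^ 2 ≠ 0) (hJ : ∀ x ∈ J, (W a b k).eval x = 0)
    (h₀ : x₀ ∈ J) :
    exp (-6 : ℤ) < plInf.v (bb a b (rx (TJ a b k J x₀)) (ry (TJ a b k J x₀))) := by
  obtain ⟨ε, hε, h⟩ := vals_bb hab hJ h₀
  have hA := AJ_ne_zero hab hJ h₀
  have hdA := natDegree_AJ (fun x hx => (W_root hab (hJ x hx)).1) h₀ hA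
  have hf := fP_ne_zero a b
  have hU := U_ne_zero a b k
  have hden : fP a b ^ 4 * U a b k ^ 6 * AJ a b J x₀ ^ 2 ≠ 0 :=
    mul_ne_zero (mul_ne_zero (pow_ne_zero _ hf) (pow_ne_zero _ hU)) (pow_ne_zero _ hA)
  have hnum : C ε * W a b k ^ 2 * NJ a b J x₀ ≠ 0 :=
    mul_ne_zero (mul_ne_zero (C_ne_zero.2 hε) (pow_ne_zero _ (W_ne_zero a b k))) NJ_ne_zero
  have hd1 : (C ε * W a b k ^ 2 * NJ a b J x₀).natDegree = 2 * (6 * 4 ^ k) + 3 * (J.card + 1) := by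
    rw [natDegree_mul (mul_ne_zero (C_ne_zero.2 hε) (pow_ne_zero _ (W_ne_zero a b k))) NJ_ne_zero,
      natDegree_mul (C_ne_zero.2 hε) (pow_ne_zero _ (W_ne_zero a b k)), natDegree_C, natDegree_pow,
      natDegree_W, natDegree_NJ, zero_add]
  have hd2 : (fP a b ^ 4 * U a b k ^ 6 * AJ a b J x₀ ^ 2).natDegree =
      4 * 3 + 6 * (2 * (4 ^ k - 1)) + 2 * (AJ a b J x₀).natDegree := by
    rw [natDegree_mul (mul_ne_zero (pow_ne_zero _ hf) (pow_ne_zero _ hU)) (pow_ne_zero _ hA),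
      natDegree_mul (pow_ne_zero _ hf) (pow_ne_zero _ hU), natDegree_pow, natDegree_pow,
      natDegree_pow, natDegree_U, natDegree_fP']
  have hk : 1 ≤ 4 ^ k := Nat.one_le_pow _ _ (by norm_num)
  rw [h, map_div₀, plInf_v hnum, plInf_v hden, ← exp_sub, exp_lt_exp, hd1, hd2]
  omega

end Pool.Agent.Helper68.EG
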